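import Pool.Agent.LibDB82.Defs

set_option autoImplicit false

/-! Task A3: the weighted matrix satisfies the standing assumptions with `k²` instead of `k`.
Cite A1. -/

open Finset Pool.Agent.LibLoc73
open Pool.Agent.LibLev64 (M X M_pos M_succ X_zero X_succ X_mono X_pos X_eq)

namespace Pool.Agent.LibDB82

variable {ι κ : Type*} [Fintype ι] [Fintype κ] [DecidableEq ι]

/-- the seen level is at most the level -/
theorem act_le (P : LPar ι κ) (s : ℕ) (st : LSt ι κ) (h : ∀ j, st.lev0 j ≤ st.lev j) (i : ι)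
    (j : κ) : P.act s st i j ≤ st.lev j := by
  unfold LPar.act
  split_ifs
  · exact h j
  · exact le_rfl

theorem inst_a_ne_zero (P : LPar ι κ) (s : ℕ) (st : LSt ι κ) (i : ι)
    (jl : κ × Fin (P.H + 1)) (h : (P.inst s st).a i jl ≠ 0) :
    P.a i jl.1 ≠ 0 ∧ i ∈ st.L ∧ (jl.2 : ℕ) ≤ P.act s st i jl.1 := by
  by_cases hc : i ∈ st.L ∧ (jl.2 : ℕ) ≤ P.act s st i jl.1
  · refine ⟨?_, hc.1, hc.2⟩
    intro h0
    apply h
    simp [LPar.inst, h0]
  · exfalso
    apply h
    simp only [LPar.inst, if_neg hc]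

private theorem A3_sum_sq (P : LPar ι κ) (s : ℕ) (st : LSt ι κ) (i : ι) (j : κ) :
    ∑ l : Fin (P.H + 1), ((P.inst s st).a i (j, l)) ^ 2 ≤ P.a i j ^ 2 * X (P.act s st i j) := by
  have h1 : ∀ l : Fin (P.H + 1), ((P.inst s st).a i (j, l)) ^ 2 ≤
      (if (l : ℕ) ≤ P.act s st i j then P.a i j ^ 2 * M l ^ 2 else 0) := by
    intro l
    by_cases hl : (l : ℕ) ≤ P.act s st i j
    · rw [if_pos hl]
      by_cases hi : i ∈ st.L
      · have h2 : (P.inst s st).a i (j, l) = M l * P.a i j := by
          simp only [LPar.inst]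
          rw [if_pos ⟨hi, hl⟩]
        rw [h2]
        exact le_of_eq (by ring)
      · have h2 : (P.inst s st).a i (j, l) = 0 := by
          simp only [LPar.inst]
          rw [if_neg (fun h => hi h.1)]
        rw [h2]
        have h3 : 0 ≤ P.a i j ^ 2 * M l ^ 2 := by positivity
        simpa using h3
    · rw [if_neg hl]
      have h2 : (P.inst s st).a i (j, l) = 0 := by
        simp only [LPar.inst]
        rw [if_neg (fun h => hl h.2)]
      rw [h2]
      simp
  refine (Finset.sum_le_sum (fun l _ => h1 l)).trans ?_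
  rw [Fin.sum_univ_eq_sum_range
    (fun l => if l ≤ P.act s st i j then P.a i j ^ 2 * M l ^ 2 else 0) (P.H + 1)]
  rw [← Finset.sum_filter]
  unfold X
  rw [Finset.mul_sum]
  refine Finset.sum_le_sum_of_subset_of_nonneg ?_ ?_
  · intro l hl
    rw [Finset.mem_filter] at hl
    rw [Finset.mem_range]
    have := hl.2
    omega
  · intro l _ _
    positivity

/-- `∑_{j, l} a'(i,(j,l))² = ∑_j a_ij² X(act) ≤ ∑_j a_ij² X(lev j) ≤ 1` for live `i`; a column has at most
`k² (H+1) ≤ k⁴` nonzero entries; a row has at most `k ≤ k²` -/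
theorem inst_ok (P : LPar ι κ) (k : ℕ) (hP : P.Ok k) (s : ℕ) (st : LSt ι κ) (hI : P.Inv st) :
    (P.inst s st).Ok (k ^ 2) := by
  classical
  have hk := hP.hB.hk
  have hkk : k ≤ k ^ 2 := by nlinarith
  refine
    { hk := hk.trans hkk
      hcol := ?_
      hrow := ?_
      hrows := ?_
      hc := ?_
      hT := hP.hB.hT
      hL := ?_
      hδ := hP.hB.hδ
      hδη := hP.hB.hδη
      hη := hP.hB.hη
      hηk := ?_
      hlam := ?_ }
  · intro i
    rw [Fintype.sum_prod_type]
    by_cases hi : i ∈ st.L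
    · refine (Finset.sum_le_sum (fun j _ => A3_sum_sq P s st i j)).trans ?_
      refine (Finset.sum_le_sum (fun j _ => ?_)).trans (hI.hbud i hi)
      exact mul_le_mul_of_nonneg_left (X_mono (act_le P s st hI.hlev0 i j)) (sq_nonneg _)
    · have h0 : ∀ j : κ, ∀ l : Fin (P.H + 1), (P.inst s st).a i (j, l) = 0 := by
        intro j l
        simp only [LPar.inst]
        rw [if_neg (fun h => hi h.1)]
      have h1 : ∑ j : κ, ∑ l : Fin (P.H + 1), ((P.inst s st).a i (j, l)) ^ 2 = 0 := by
        refine Finset.sum_eq_zero (fun j _ => Finset.sum_eq_zero (fun l _ => ?_))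
        rw [h0 j l]
        norm_num
      rw [h1]
      exact zero_le_one
  · intro jl
    refine le_trans (Finset.card_le_card ?_) ((hP.hB.hrow jl.1).trans hkk)
    intro i hi
    rw [Finset.mem_filter] at hi ⊢
    exact ⟨Finset.mem_univ _, (inst_a_ne_zero P s st i jl hi.2).1⟩
  · intro i
    have h1 : (univ.filter (fun jl : κ × Fin (P.H + 1) => (P.inst s st).a i jl ≠ 0)).card ≤
        ((univ.filter (fun j => P.a i j ≠ 0)) ×ˢ (univ : Finset (Fin (P.H + 1)))).card := by
      refine Finset.card_le_card ?_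
      intro jl hjl
      rw [Finset.mem_filter] at hjl
      rw [Finset.mem_product, Finset.mem_filter]
      exact ⟨⟨Finset.mem_univ _, (inst_a_ne_zero P s st i jl hjl.2).1⟩, Finset.mem_univ _⟩
    refine h1.trans ?_
    rw [Finset.card_product, Finset.card_univ, Fintype.card_fin]
    calc (univ.filter (fun j => P.a i j ≠ 0)).card * (P.H + 1) ≤ k ^ 2 * k ^ 2 :=
          Nat.mul_le_mul (hP.hB.hrows i) hP.hH
      _ = (k ^ 2) ^ 2 := by ring
  · intro i i' jl hne h1 h2
    exact hP.hB.hc i i' jl.1 hne (inst_a_ne_zero P s st i jl h1).1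
      (inst_a_ne_zero P s st i' jl h2).1
  · have h := hP.hL2
    show 2 * ((k ^ 2 : ℕ) : ℝ) ≤ P.Lc
    push_cast
    exact h
  · have h := hP.hηk2
    show P.η * ((k ^ 2 : ℕ) : ℝ) ≤ 1
    push_cast
    exact h
  · show (0 : ℝ) < 1
    exact one_pos

end Pool.Agent.LibDB82
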