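import Pool.Agent.LibDB82.Defs

set_option autoImplicit false

/-! Task A4: the invariant is preserved. Cite A1. -/

open Finset Pool.Agent.LibLoc73
open Pool.Agent.LibLev64 (M X M_pos M_succ X_zero X_succ X_mono X_pos X_eq)

namespace Pool.Agent.LibDB82

variable {ι κ : Type*} [Fintype ι] [Fintype κ] [DecidableEq ι]

theorem newlev_le (P : LPar ι κ) (s : ℕ) (st : LSt ι κ) (ξ : ι → Bool) (j : κ) :
    st.lev j ≤ P.newlev s st ξ j ∧ P.newlev s st ξ j ≤ st.lev j + 1 := by
  unfold LPar.newlev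
  split_ifs <;> omega

theorem newL_subset (P : LPar ι κ) (s : ℕ) (st : LSt ι κ) (ξ : ι → Bool) :
    P.newL s st ξ ⊆ st.L := by
  unfold LPar.newL
  exact filter_subset _ _

theorem inv_step (P : LPar ι κ) (s : ℕ) (st : LSt ι κ) (ξ : ι → Bool)
    (hI : P.Inv st) : P.Inv (P.step s st ξ) := by
  refine ⟨?_, ?_, ?_, ?_⟩
  · intro i hi
    exact (mem_filter.1 hi).2.1
  · intro i hi j hj
    exact ((mem_filter.1 hi).2.2.1 j hj).1
  · intro i hi
    exact (mem_filter.1 hi).2.2.2
  · intro j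
    show (if (s + 1) / P.T = s / P.T then st.lev0 j else P.newlev s st ξ j) ≤ P.newlev s st ξ j
    split_ifs
    · exact (hI.hlev0 j).trans (newlev_le P s st ξ j).1
    · exact le_rfl

/-- the initial state: `X 0 = 1/4` and `∑ a_ij² ≤ 1` -/
theorem inv_run (P : LPar ι κ) (k : ℕ) (hP : P.Ok k) (ω : ℕ → ι → Bool) (s : ℕ) :
    P.Inv (P.run ω s) := by
  induction s with
  | zero =>
    refine ⟨hP.hL0, ?_, ?_, ?_⟩
    · intro i _ j _
      exact Nat.zero_le _
    · intro i _
      show ∑ j, P.a i j ^ 2 * X 0 ≤ 1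
      rw [← sum_mul, X_zero]
      have h1 := hP.hB.hcol i
      have h2 : 0 ≤ ∑ j, P.a i j ^ 2 := sum_nonneg fun j _ => sq_nonneg _
      linarith
    · intro j
      exact le_rfl
  | succ s ih => exact inv_step P s _ _ ih

end Pool.Agent.LibDB82
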