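import Pool.Agent.LibDB82.A5
import Pool.Agent.LibLoc73.C3
import Pool.Agent.LibLoc73.B4
import Pool.Agent.LibLoc73.D2a

set_option autoImplicit false

/-! Task A6: the one step inequality. Cite A5 (`pot_det`), `LibLoc73`: `key_identity`, `eps_bound`,
`Psi_step`, `D2a_iter_not_mem`, `bes_of_color`. Copy the end of the proof of
`LibLoc73.Psi_walk_step` (file D2a). -/

open Finset Pool.Agent.LibLoc73
open Pool.Agent.LibLev64 (M X M_pos M_succ X_zero X_succ X_mono X_pos X_eq)

namespace Pool.Agent.LibDB82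

variable {ι κ : Type*} [Fintype ι] [Fintype κ] [DecidableEq ι]

/-- the pivots move by `± δ` -/
theorem newx_piv (P : LPar ι κ) (s : ℕ) (st : LSt ι κ) (ξ : ι → Bool) (p : ι)
    (hp : p ∈ P.toPar.piv s st.L) : P.newx s st ξ p = st.x p + P.δ * sgn (ξ p) := by
  have hn := D2a_not_mem P.toPar s st.L p hp
  unfold LPar.newx
  rw [if_neg]
  · congr 1
    unfold LPar.upd Par.upd
    rw [D2a_iter_not_mem (P.inst s st) ((P.inst s st).sla s st.L) p hn]
    unfold Par.ini
    exact if_pos hp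
  · unfold LPar.big
    rw [mem_filter]
    exact fun h => hn h.1

theorem pot_step (P : LPar ι κ) (k : ℕ) (hP : P.Ok k) (s : ℕ) (st : LSt ι κ) (hI : P.Inv st)
    (v : EuclideanSpace ℝ (ι ⊕ κ × Fin (P.H + 1))) (S : ι → ℝ) :
    ∑ ξ : ι → Bool, Real.exp
        (inner ℝ v ((P.inst s st).emb (P.upd s st ξ))
          + ∑ i ∈ P.toPar.sla s st.L, S i * P.upd s st ξ i
          + P.pot (s + 1) (P.step s st ξ) v)
      ≤ 2 ^ Fintype.card ι * Real.exp (P.pot s st v
          + 20 * P.δ ^ 2 * ((1 - 1 / P.Lc) ^ P.r * ‖v‖ ^ 2 + ∑ i, S i ^ 2)) := by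
  have hQ := inst_ok P k hP s st hI
  have hδ := hP.hB.hδ
  have hδη := hP.hB.hδη
  have hpiv : ∀ p ∈ P.toPar.piv s st.L, |st.x p| < 1 - P.η := by
    intro p hp
    apply hI.hx
    unfold Par.piv at hp
    exact (mem_filter.mp hp).1
  have hB : Bes (P.inst s st).wv (P.toPar.piv s st.L) := by
    apply bes_of_color (P.inst s st) (k ^ 2) hQ _ (s / P.T)
    intro p hp
    unfold Par.piv at hp
    exact (mem_filter.mp hp).2
  set A : ℝ := 40 * ∑ jl : κ × Fin (P.H + 1),
          if st.lev jl.1 < (jl.2 : ℕ) then (v (Sum.inr jl)) ^ 2 else 0 with hA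
  -- the comparison of the potentials
  have hcmp : ∀ ξ : ι → Bool, P.pot (s + 1) (P.step s st ξ) v ≤
      Psi (P.inst s st).wv (P.toPar.piv s st.L) ((P.inst s st).spn (P.toPar.sla s st.L)) v
        (fun i => st.x i + P.δ * sgn (ξ i)) + A := by
    intro ξ
    have h1 := pot_det P k hP s st hI ξ v
    rwa [D2a_Psi_congr (P.inst s st).wv (P.toPar.piv s st.L) _ v (P.newx s st ξ)
      (fun i => st.x i + P.δ * sgn (ξ i)) (fun p hp => newx_piv P s st ξ p hp)] at h1
  have hx2 : ∀ p ∈ P.toPar.piv s st.L, |st.x p + P.δ| ≤ 1 ∧ |st.x p - P.δ| ≤ 1 := by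
    intro p hp
    have h1 := abs_lt.mp (hpiv p hp)
    constructor
    · rw [abs_le]; constructor <;> linarith
    · rw [abs_le]; constructor <;> linarith
  have hstep := Psi_step (P.inst s st).wv (P.toPar.piv s st.L) P.δ st.x hx2 hB
    ((P.inst s st).spn (P.toPar.sla s st.L)) v (eps (P.inst s st) (P.toPar.sla s st.L) v S)
  have heps := eps_bound (P.inst s st) (k ^ 2) hQ (P.toPar.sla s st.L) (P.toPar.piv s st.L) hB v S
  have hS : ∑ i ∈ P.toPar.sla s st.L, S i ^ 2 ≤ ∑ i, S i ^ 2 :=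
    sum_le_sum_of_subset_of_nonneg (subset_univ _) (fun i _ _ => sq_nonneg _)
  have hkey : ∀ ξ : ι → Bool, inner ℝ v ((P.inst s st).emb (P.upd s st ξ))
          + ∑ i ∈ P.toPar.sla s st.L, S i * P.upd s st ξ i =
      ∑ p ∈ P.toPar.piv s st.L, P.δ * sgn (ξ p) * (inner ℝ ((P.inst s st).wv p)
            (v - ((P.inst s st).spn (P.toPar.sla s st.L)).starProjection v)
              + eps (P.inst s st) (P.toPar.sla s st.L) v S p) :=
    fun ξ => key_identity (P.inst s st) s st.L ξ v S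
  calc ∑ ξ : ι → Bool, Real.exp
        (inner ℝ v ((P.inst s st).emb (P.upd s st ξ))
          + ∑ i ∈ P.toPar.sla s st.L, S i * P.upd s st ξ i
          + P.pot (s + 1) (P.step s st ξ) v)
      ≤ ∑ ξ : ι → Bool, Real.exp
        (∑ p ∈ P.toPar.piv s st.L, P.δ * sgn (ξ p) * (inner ℝ ((P.inst s st).wv p)
            (v - ((P.inst s st).spn (P.toPar.sla s st.L)).starProjection v)
              + eps (P.inst s st) (P.toPar.sla s st.L) v S p)
          + Psi (P.inst s st).wv (P.toPar.piv s st.L) ((P.inst s st).spn (P.toPar.sla s st.L)) v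
            (fun i => st.x i + P.δ * sgn (ξ i))) * Real.exp A := by
        refine sum_le_sum fun ξ _ => ?_
        rw [← Real.exp_add]
        refine Real.exp_le_exp.mpr ?_
        rw [hkey ξ, add_assoc]
        exact add_le_add le_rfl (hcmp ξ)
    _ = (∑ ξ : ι → Bool, Real.exp
        (∑ p ∈ P.toPar.piv s st.L, P.δ * sgn (ξ p) * (inner ℝ ((P.inst s st).wv p)
            (v - ((P.inst s st).spn (P.toPar.sla s st.L)).starProjection v)
              + eps (P.inst s st) (P.toPar.sla s st.L) v S p)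
          + Psi (P.inst s st).wv (P.toPar.piv s st.L) ((P.inst s st).spn (P.toPar.sla s st.L)) v
            (fun i => st.x i + P.δ * sgn (ξ i)))) * Real.exp A := by
        rw [sum_mul]
    _ ≤ (2 ^ Fintype.card ι * Real.exp (Psi (P.inst s st).wv (P.toPar.piv s st.L)
            ((P.inst s st).spn (P.toPar.sla s st.L)) v st.x
          + 5 * P.δ ^ 2 * ∑ p ∈ P.toPar.piv s st.L,
              eps (P.inst s st) (P.toPar.sla s st.L) v S p ^ 2)) * Real.exp A :=
        mul_le_mul_of_nonneg_right hstep (Real.exp_pos _).le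
    _ ≤ _ := by
        rw [mul_assoc, ← Real.exp_add]
        refine mul_le_mul_of_nonneg_left (Real.exp_le_exp.mpr ?_) (by positivity)
        have h5 : 0 ≤ 5 * P.δ ^ 2 := by positivity
        have h6 : 5 * P.δ ^ 2 * ∑ p ∈ P.toPar.piv s st.L,
              eps (P.inst s st) (P.toPar.sla s st.L) v S p ^ 2
            ≤ 5 * P.δ ^ 2 * (4 * ((1 - 1 / P.Lc) ^ P.r * ‖v‖ ^ 2 + ∑ i, S i ^ 2)) := by
          refine mul_le_mul_of_nonneg_left (heps.trans ?_) h5
          have h7 : (1 - 1 / (P.inst s st).Lc) ^ (P.inst s st).r * ‖v‖ ^ 2 =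
            (1 - 1 / P.Lc) ^ P.r * ‖v‖ ^ 2 := rfl
          rw [h7]
          linarith
        have h8 : P.pot s st v = Psi (P.inst s st).wv (P.toPar.piv s st.L)
            ((P.inst s st).spn (P.toPar.sla s st.L)) v st.x + A := rfl
        rw [h8]
        linarith

end Pool.Agent.LibDB82
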