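import Pool.Agent.LibDB82.C1

set_option autoImplicit false

/-! Task C2: splitting the contribution of a step into slaves and pivots. Cite A4, C1. -/

open Finset Pool.Agent.LibLoc73
open Pool.Agent.LibLev64 (M X M_pos M_succ X_zero X_succ X_mono X_pos X_eq)

namespace Pool.Agent.LibDB82

variable {ι κ : Type*} [Fintype ι] [Fintype κ] [DecidableEq ι]

/-- contribution of the slaves to row `j` at step `t` -/
noncomputable def slv (P : LPar ι κ) (ω : ℕ → ι → Bool) (t : ℕ) (j : κ) : ℝ :=
  ∑ i ∈ P.toPar.sla t (P.run ω t).L, P.a i j * P.U ω t i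

/-- contribution of the pivots to row `j` at step `t` -/
noncomputable def pvt (P : LPar ι κ) (ω : ℕ → ι → Bool) (t : ℕ) (j : κ) : ℝ :=
  ∑ i ∈ P.toPar.piv t (P.run ω t).L, P.a i j * P.U ω t i

omit [Fintype κ] in
private theorem C2_split (P : LPar ι κ) (t : ℕ) (L : Finset ι) (f : ι → ℝ)
    (hf : ∀ i, i ∉ P.toPar.piv t L → i ∉ P.toPar.sla t L → f i = 0) :
    ∑ i, f i = ∑ i ∈ P.toPar.sla t L, f i + ∑ i ∈ P.toPar.piv t L, f i := by
  classical
  have hdisj : Disjoint (P.toPar.sla t L) (P.toPar.piv t L) := by
    rw [Finset.disjoint_left]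
    intro i h1 h2
    have h1' := (Finset.mem_filter.1 h1).2
    have h2' := (Finset.mem_filter.1 h2).2
    omega
  rw [← Finset.sum_union hdisj]
  symm
  apply Finset.sum_subset (Finset.subset_univ _)
  intro i _ hi
  rw [Finset.mem_union, not_or] at hi
  exact hf i hi.2 hi.1

theorem row_U (P : LPar ι κ) (ω : ℕ → ι → Bool) (t : ℕ) (j : κ) :
    P.toPar.row (P.U ω t) j = slv P ω t j + pvt P ω t j := by
  apply C2_split P t (P.run ω t).L (fun i => P.a i j * P.U ω t i)
  intro i h1 h2
  have : P.U ω t i = 0 := upd_zero P t (P.run ω t) (ω t) i h1 h2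
  simp only [this, mul_zero]

/-- slaves see row `j` up to its level, pivots up to `lev0` -/
theorem inc_eq (P : LPar ι κ) (ω : ℕ → ι → Bool) (t : ℕ) (j : κ) (l : ℕ) :
    P.inc ω t j l = (if l ≤ (P.run ω t).lev j then slv P ω t j else 0)
      + (if l ≤ (P.run ω t).lev0 j then pvt P ω t j else 0) := by
  classical
  have h0 : P.inc ω t j l = ∑ i, (fun i => if i ∈ (P.run ω t).L ∧
      l ≤ P.act t (P.run ω t) i j then P.a i j * P.U ω t i else 0) i := rfl
  rw [h0, C2_split P t (P.run ω t).L]
  · congr 1
    · by_cases hl : l ≤ (P.run ω t).lev j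
      · rw [if_pos hl]
        apply Finset.sum_congr rfl
        intro i hi
        have h1 := Finset.mem_filter.1 hi
        have h2 : P.act t (P.run ω t) i j = (P.run ω t).lev j := by
          unfold LPar.act
          rw [if_neg (by have := h1.2; omega)]
        simp only [h2]
        rw [if_pos ⟨h1.1, hl⟩]
      · rw [if_neg hl]
        apply Finset.sum_eq_zero
        intro i hi
        have h1 := Finset.mem_filter.1 hi
        have h2 : P.act t (P.run ω t) i j = (P.run ω t).lev j := by
          unfold LPar.act
          rw [if_neg (by have := h1.2; omega)]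
        simp only [h2]
        rw [if_neg (fun h => hl h.2)]
    · by_cases hl : l ≤ (P.run ω t).lev0 j
      · rw [if_pos hl]
        apply Finset.sum_congr rfl
        intro i hi
        have h1 := Finset.mem_filter.1 hi
        have h2 : P.act t (P.run ω t) i j = (P.run ω t).lev0 j := by
          unfold LPar.act
          rw [if_pos h1.2]
        simp only [h2]
        rw [if_pos ⟨h1.1, hl⟩]
      · rw [if_neg hl]
        apply Finset.sum_eq_zero
        intro i hi
        have h1 := Finset.mem_filter.1 hi
        have h2 : P.act t (P.run ω t) i j = (P.run ω t).lev0 j := by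
          unfold LPar.act
          rw [if_pos h1.2]
        simp only [h2]
        rw [if_neg (fun h => hl h.2)]
  · intro i h1 h2
    have : P.U ω t i = 0 := upd_zero P t (P.run ω t) (ω t) i h1 h2
    simp only [this, mul_zero, ite_self]

/-- rows of live variables have level `≤ H` -/
theorem V_top (P : LPar ι κ) (k : ℕ) (hP : P.Ok k) (ω : ℕ → ι → Bool) (s : ℕ) (j : κ) :
    P.V ω s j (P.H + 1) = 0 := by
  classical
  unfold LPar.V
  apply Finset.sum_eq_zero
  intro t _
  unfold LPar.inc
  apply Finset.sum_eq_zero
  intro i _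
  split_ifs with h
  · by_cases ha : P.a i j = 0
    · rw [ha, zero_mul]
    · exfalso
      have hI := inv_run P k hP ω t
      have h1 := hI.hlev i h.1 j ha
      have h2 := hI.hlev0 j
      have h3 := h.2
      unfold LPar.act at h3
      split_ifs at h3 <;> omega
  · rfl

end Pool.Agent.LibDB82
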