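import Pool.Agent.LibDB82.C2

set_option autoImplicit false

/-! Task C5: contributions of the pivots during a part of a phase. Cite C1, C2. -/

open Finset Pool.Agent.LibLoc73
open Pool.Agent.LibLev64 (M X M_pos M_succ X_zero X_succ X_mono X_pos X_eq)

namespace Pool.Agent.LibDB82

variable {ι κ : Type*} [Fintype ι] [Fintype κ] [DecidableEq ι]

/-- the entry of a live variable in a row of level `m` is at most `1 / M m` -/
theorem live_entry_le (P : LPar ι κ) (k : ℕ) (hP : P.Ok k) (ω : ℕ → ι → Bool) (t : ℕ) (p : ι)
    (j : κ) (m : ℕ) (hp : p ∈ (P.run ω t).L) (hm : m ≤ (P.run ω t).lev j) :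
    |P.a p j| ≤ P.pe m := by
  refine le_min (hP.hep p j) ?_
  have hM := M_pos m
  have h1 : P.a p j ^ 2 * X ((P.run ω t).lev j) ≤ 1 := by
    refine le_trans ?_ ((inv_run P k hP ω t).hbud p hp)
    exact Finset.single_le_sum (f := fun j => P.a p j ^ 2 * X ((P.run ω t).lev j))
      (fun j _ => mul_nonneg (sq_nonneg _) (X_pos _).le) (Finset.mem_univ j)
  have h2 : M m ^ 2 ≤ X ((P.run ω t).lev j) := by
    refine le_trans ?_ (X_mono hm)
    unfold X
    exact Finset.single_le_sum (f := fun l => M l ^ 2) (fun l _ => sq_nonneg _)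
      (Finset.mem_range.2 (Nat.lt_succ_self m))
  have h3 : (|P.a p j| * M m) ^ 2 ≤ 1 := by
    rw [mul_pow, sq_abs]
    exact (mul_le_mul_of_nonneg_left h2 (sq_nonneg _)).trans h1
  rw [le_div_iff₀ hM]
  have h4 : 0 ≤ |P.a p j| * M m := by positivity
  nlinarith

/-- In one phase at most one pivot `p` has `a_pj ≠ 0` (colouring). While `p` is live its position moves by
its virtual increment, afterwards it is not a pivot any more. So the sum is `a_pj (x_p(b') - x_p(a))`; it is
`0` if `p` is not live at time `a`. -/
theorem pvt_sum_le (P : LPar ι κ) (k : ℕ) (hP : P.Ok k) (ω : ℕ → ι → Bool) (j : κ) (m : ℕ)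
    (a b : ℕ) (hab : a ≤ b) (hm : m ≤ (P.run ω a).lev j)
    (hph : ∀ t, a ≤ t → t < b → t / P.T = a / P.T) :
    |∑ t ∈ Ico a b, pvt P ω t j| ≤ 2 * P.pe m := by
  have hep0 := hP.hep0
  have hpe0 : 0 ≤ P.pe m := le_min hep0 (by have := M_pos m; positivity)
  by_cases hex : ∃ p, P.a p j ≠ 0 ∧ P.c p = a / P.T
  · obtain ⟨p, hpa, hpc⟩ := hex
    have huniq : ∀ i, P.a i j ≠ 0 → P.c i = a / P.T → i = p := by
      intro i h1 h2
      by_contra hne
      exact hP.hB.hc i p j hne h1 hpa (h2.trans hpc.symm)
    have hterm : ∀ t ∈ Ico a b,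
        pvt P ω t j = P.a p j * ((P.run ω (t + 1)).x p - (P.run ω t).x p) := by
      intro t ht
      rw [mem_Ico] at ht
      have hq := hph t ht.1 ht.2
      have hrun : (P.run ω (t + 1)).x = P.newx t (P.run ω t) (ω t) := rfl
      unfold pvt
      by_cases hpL : p ∈ (P.run ω t).L
      · have hpp : p ∈ P.toPar.piv t (P.run ω t).L := by
          unfold Par.piv
          rw [mem_filter]
          exact ⟨hpL, by rw [hq]; exact hpc⟩
        rw [Finset.sum_eq_single_of_mem p hpp]
        · rw [hrun, newx_piv' P t (P.run ω t) (ω t) p hpp]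
          have : P.U ω t p = P.δ * sgn (ω t p) := upd_piv P t (P.run ω t) (ω t) p hpp
          rw [this]
          ring
        · intro i hi hne
          unfold Par.piv at hi
          rw [mem_filter] at hi
          have : P.a i j = 0 := by
            by_contra h
            exact hne (huniq i h (by rw [← hq]; exact hi.2))
          rw [this, zero_mul]
      · rw [Finset.sum_eq_zero]
        · rw [hrun, newx_of_notMem P t (P.run ω t) (ω t) p hpL]
          ring
        · intro i hi
          unfold Par.piv at hi
          rw [mem_filter] at hi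
          have : P.a i j = 0 := by
            by_contra h
            have := huniq i h (by rw [← hq]; exact hi.2)
            rw [this] at hi
            exact hpL hi.1
          rw [this, zero_mul]
    rw [Finset.sum_congr rfl hterm, ← Finset.mul_sum,
      Finset.sum_Ico_sub (fun t => (P.run ω t).x p) hab, abs_mul]
    by_cases hpa' : p ∈ (P.run ω a).L
    swap
    · rw [run_x_of_notMem P ω hab p hpa', sub_self, abs_zero, mul_zero]
      positivity
    have h1 := live_entry_le P k hP ω a p j m hpa' hm
    have h2 := run_x_le P k hP ω b p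
    have h3 := run_x_le P k hP ω a p
    have h4 : |(P.run ω b).x p - (P.run ω a).x p| ≤ 2 := by
      have := abs_sub (P.run ω b |>.x p) (P.run ω a |>.x p)
      linarith
    calc |P.a p j| * |(P.run ω b).x p - (P.run ω a).x p| ≤ P.pe m * 2 :=
          mul_le_mul h1 h4 (abs_nonneg _) hpe0
      _ = 2 * P.pe m := by ring
  · have hzero : ∀ t ∈ Ico a b, pvt P ω t j = 0 := by
      intro t ht
      rw [mem_Ico] at ht
      unfold pvt
      apply Finset.sum_eq_zero
      intro i hi
      unfold Par.piv at hi
      rw [mem_filter] at hi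
      have : P.a i j = 0 := by
        by_contra h
        exact hex ⟨i, h, by rw [← hph t ht.1 ht.2]; exact hi.2⟩
      rw [this, zero_mul]
    rw [Finset.sum_eq_zero hzero, abs_zero]
    positivity

end Pool.Agent.LibDB82
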