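import Pool.Agent.LibDB82.C3
import Pool.Agent.LibDB82.C4
import Pool.Agent.LibDB82.C5

set_option autoImplicit false

/-! Task C6: a row that has left level `l` satisfies the event `Up`. Cite C1 -- C5. -/

open Finset Pool.Agent.LibLoc73
open Pool.Agent.LibLev64 (M X M_pos M_succ X_zero X_succ X_mono X_pos X_eq)

namespace Pool.Agent.LibDB82

variable {ι κ : Type*} [Fintype ι] [Fintype κ] [DecidableEq ι]

/-- `V_l - V_{l+1} = ∑_t [lev = l] slv + [lev0 = l] pvt` (`inc_eq`), and by `seq_cross` (for `m = l` and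
`m = l+1`, `e = 2 ep`, `ph t = t / T`, `lev0` from the definition of `step`) it differs by at most `4 ep` from
`∑_t [lev = l] (slv + pvt)`, which is at least `D l = E l + 4 ep` in absolute value (`level_sum`). -/
theorem up_of_lt (P : LPar ι κ) (k : ℕ) (hP : P.Ok k) (ω : ℕ → ι → Bool) (s : ℕ) (j : κ) (l : ℕ)
    (hl : l < (P.run ω s).lev j) : P.Up ω s j l := by
  have hcross : ∀ m : ℕ, |∑ t ∈ range s, ((if m ≤ (P.run ω t).lev j then pvt P ω t j else 0)
      - (if m ≤ (P.run ω t).lev0 j then pvt P ω t j else 0))| ≤ 2 * P.pe m := by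
    intro m
    refine seq_cross (fun t => (P.run ω t).lev j) (fun t => (P.run ω t).lev0 j)
      (fun t => t / P.T) (fun t => pvt P ω t j) (2 * P.pe m) ?_ ?_ ?_ ?_ ?_ m ?_ s
    · have : 0 ≤ P.pe m := le_min hP.hep0 (by have := M_pos m; positivity)
      positivity
    · intro t t' h
      exact lev_mono P ω h j
    · intro t t' h
      exact Nat.div_le_div_right h
    · rfl
    · intro t
      rfl
    · intro a b hab hm h
      exact pvt_sum_le P k hP ω j m a b hab hm h
  have hA := level_sum P ω s j l hl
  have hdiff : P.V ω s j l - P.V ω s j (l + 1)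
      = (∑ t ∈ range s, if (P.run ω t).lev j = l then P.toPar.row (P.U ω t) j else 0)
        - (∑ t ∈ range s, ((if l ≤ (P.run ω t).lev j then pvt P ω t j else 0)
            - (if l ≤ (P.run ω t).lev0 j then pvt P ω t j else 0)))
        + (∑ t ∈ range s, ((if l + 1 ≤ (P.run ω t).lev j then pvt P ω t j else 0)
            - (if l + 1 ≤ (P.run ω t).lev0 j then pvt P ω t j else 0))) := by
    unfold LPar.V
    rw [← Finset.sum_sub_distrib, ← Finset.sum_sub_distrib, ← Finset.sum_add_distrib]
    refine Finset.sum_congr rfl (fun t _ => ?_)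
    rw [inc_eq, inc_eq, row_U]
    by_cases h1 : l ≤ (P.run ω t).lev j
    · by_cases h2 : l + 1 ≤ (P.run ω t).lev j
      · have h3 : ¬ (P.run ω t).lev j = l := by omega
        simp only [if_pos h1, if_pos h2, if_neg h3]
        ring
      · have h3 : (P.run ω t).lev j = l := by omega
        simp only [if_pos h1, if_neg h2, if_pos h3]
        ring
    · have h2 : ¬ l + 1 ≤ (P.run ω t).lev j := by omega
      have h3 : ¬ (P.run ω t).lev j = l := by omega
      simp only [if_neg h1, if_neg h2, if_neg h3]
      ring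
  have h1 := hcross l
  have h2 := hcross (l + 1)
  have hpe : P.pe (l + 1) ≤ P.pe l := by
    unfold LPar.pe
    refine min_le_min le_rfl ?_
    have := M_pos l
    rw [M_succ]
    exact one_div_le_one_div_of_le this (by linarith)
  unfold LPar.Up
  rw [hdiff]
  unfold LPar.D at hA
  rw [abs_le] at h1 h2
  have h3 := le_abs_self (∑ t ∈ range s, if (P.run ω t).lev j = l then P.toPar.row (P.U ω t) j else 0)
  rcases abs_cases (∑ t ∈ range s, if (P.run ω t).lev j = l then P.toPar.row (P.U ω t) j else 0)
    with ⟨h, _⟩ | ⟨h, _⟩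
  · rw [h] at hA
    refine le_trans ?_ (le_abs_self _)
    linarith [h1.1, h1.2, h2.1, h2.2]
  · rw [h] at hA
    refine le_trans ?_ (neg_le_abs _)
    linarith [h1.1, h1.2, h2.1, h2.2]

end Pool.Agent.LibDB82
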