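import Mathlib

set_option autoImplicit false

/-! Components of a finite set for a symmetric relation. -/

open Finset

namespace Pool.Agent.LibDB82

variable {ι : Type*}

open Classical in
/-- the component of `i0` in `T` -/
noncomputable def cmp (R : ι → ι → Prop) (T : Finset ι) (i0 : ι) : Finset ι :=
  T.filter (fun i => Relation.ReflTransGen (fun i i' => i ∈ T ∧ i' ∈ T ∧ R i i') i0 i)

theorem mem_cmp (R : ι → ι → Prop) (T : Finset ι) (i0 i : ι) :
    i ∈ cmp R T i0 ↔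
      i ∈ T ∧ Relation.ReflTransGen (fun i i' => i ∈ T ∧ i' ∈ T ∧ R i i') i0 i := by
  classical
  unfold cmp
  exact Finset.mem_filter

theorem self_cmp (R : ι → ι → Prop) (T : Finset ι) (i0 : ι) (h : i0 ∈ T) : i0 ∈ cmp R T i0 :=
  (mem_cmp R T i0 i0).2 ⟨h, Relation.ReflTransGen.refl⟩

theorem rtg_symm (R : ι → ι → Prop) (hR : ∀ i i', R i i' → R i' i) (T : Finset ι) (i i' : ι)
    (h : Relation.ReflTransGen (fun i i' => i ∈ T ∧ i' ∈ T ∧ R i i') i i') :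
    Relation.ReflTransGen (fun i i' => i ∈ T ∧ i' ∈ T ∧ R i i') i' i := by
  induction h with
  | refl => exact Relation.ReflTransGen.refl
  | tail _ h ih => exact Relation.ReflTransGen.head ⟨h.2.1, h.1, hR _ _ h.2.2⟩ ih

theorem cmp_eq (R : ι → ι → Prop) (hR : ∀ i i', R i i' → R i' i) (T : Finset ι) (i0 i : ι)
    (h : i ∈ cmp R T i0) : cmp R T i = cmp R T i0 := by
  have h1 := ((mem_cmp R T i0 i).1 h).2
  ext i'
  rw [mem_cmp, mem_cmp]
  constructor
  · rintro ⟨h2, h3⟩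
    exact ⟨h2, h1.trans h3⟩
  · rintro ⟨h2, h3⟩
    exact ⟨h2, (rtg_symm R hR T i0 i h1).trans h3⟩

theorem adj_cmp (R : ι → ι → Prop) (T : Finset ι) (i0 i i' : ι)
    (h : i ∈ cmp R T i0) (hi' : i' ∈ T) (hR : R i i') : i' ∈ cmp R T i0 := by
  have h1 := (mem_cmp R T i0 i).1 h
  exact (mem_cmp R T i0 i').2 ⟨hi', h1.2.tail ⟨h1.1, hi', hR⟩⟩

theorem conn_cmp (R : ι → ι → Prop) (T : Finset ι) (i0 : ι) (h0 : i0 ∈ T) (i : ι)
    (h : i ∈ cmp R T i0) :
    Relation.ReflTransGen (fun i i' => i ∈ cmp R T i0 ∧ i' ∈ cmp R T i0 ∧ R i i') i0 i := by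
  have h1 := ((mem_cmp R T i0 i).1 h).2
  clear h
  have key : ∀ i, Relation.ReflTransGen (fun i i' => i ∈ T ∧ i' ∈ T ∧ R i i') i0 i →
      i ∈ cmp R T i0 ∧
      Relation.ReflTransGen (fun i i' => i ∈ cmp R T i0 ∧ i' ∈ cmp R T i0 ∧ R i i') i0 i := by
    intro i hi
    induction hi with
    | refl => exact ⟨self_cmp R T i0 h0, Relation.ReflTransGen.refl⟩
    | tail _ h ih =>
      have h3 := adj_cmp R T i0 _ _ ih.1 h.2.1 h.2.2
      exact ⟨h3, ih.2.tail ⟨ih.1, h3, h.2.2⟩⟩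
  exact (key i h1).2

open Classical in
/-- the set of components -/
noncomputable def cmps (R : ι → ι → Prop) (T : Finset ι) : Finset (Finset ι) :=
  T.image (cmp R T)

theorem mem_cmps (R : ι → ι → Prop) (T : Finset ι) (Q : Finset ι) :
    Q ∈ cmps R T ↔ ∃ i ∈ T, cmp R T i = Q := by
  classical
  unfold cmps
  exact Finset.mem_image

theorem cmps_disj (R : ι → ι → Prop) (hR : ∀ i i', R i i' → R i' i) (T : Finset ι) :
    ∀ Q ∈ cmps R T, ∀ Q' ∈ cmps R T, Q ≠ Q' → Disjoint Q Q' := by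
  intro Q hQ Q' hQ' hne
  obtain ⟨i, _, rfl⟩ := (mem_cmps R T Q).1 hQ
  obtain ⟨i', _, rfl⟩ := (mem_cmps R T Q').1 hQ'
  rw [Finset.disjoint_left]
  intro z hz hz'
  exact hne ((cmp_eq R hR T i z hz).symm.trans (cmp_eq R hR T i' z hz'))

theorem cmps_sum (R : ι → ι → Prop) (hR : ∀ i i', R i i' → R i' i) (T : Finset ι) (f : ι → ℝ) :
    ∑ i ∈ T, f i = ∑ Q ∈ cmps R T, ∑ i ∈ Q, f i := by
  classical
  have h : T = (cmps R T).biUnion id := by
    ext i
    simp only [Finset.mem_biUnion, id]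
    constructor
    · intro hi
      exact ⟨cmp R T i, (mem_cmps R T _).2 ⟨i, hi, rfl⟩, self_cmp R T i hi⟩
    · rintro ⟨Q, hQ, hi⟩
      obtain ⟨i', _, rfl⟩ := (mem_cmps R T Q).1 hQ
      exact ((mem_cmp R T i' i).1 hi).1
  conv_lhs => rw [h]
  rw [Finset.sum_biUnion]
  · rfl
  · intro Q hQ Q' hQ' hne
    exact cmps_disj R hR T Q hQ Q' hQ' hne

end Pool.Agent.LibDB82
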