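import Pool.Agent.LibDB82.Final

set_option autoImplicit false

/-! Corollary of `vec_bound2` for coordinates of bounded `l2` norm. -/

open Finset

namespace Pool.Agent.LibDB82

/-- the bound for coordinates of `l2` norm at most `R` -/
theorem vec_cor (n d : ℕ) (R : ℝ) (hR : 1 ≤ R)
    (v : Fin n → Fin d → ℝ) (hv : ∀ i, ∑ j, (v i j) ^ 2 ≤ 1)
    (hrow : ∀ j, ∑ i, (v i j) ^ 2 ≤ R ^ 2) :
    ∃ e : Fin n → ℝ, (∀ i, e i = 1 ∨ e i = -1) ∧ ∀ j,
      |∑ i, e i * v i j| ≤ 300000 * min (√(Real.log (4 + R ^ 2 + Real.log n)))
        (R * √(√(Real.log (4 + R ^ 2 + Real.log n)) *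
          Real.log (2 + Real.log (4 + R ^ 2 + Real.log n)))) := by
  have hlogn : 0 ≤ Real.log n := Real.log_natCast_nonneg n
  have hR2 : 1 ≤ R ^ 2 := one_le_pow₀ hR
  set x : ℝ := Real.log (4 + R ^ 2 + Real.log n) with hx
  have hx1 : 1 ≤ x := by
    rw [hx, Real.le_log_iff_exp_le (by linarith)]
    linarith [Real.exp_one_lt_d9]
  have hx' : Real.log (3 + R ^ 2 + Real.log n) ≤ x := by
    rw [hx]
    apply Real.log_le_log (by linarith)
    linarith
  set w : ℝ := √x with hw
  have hw1 : 1 ≤ w := by
    rw [hw]
    exact Real.one_le_sqrt.2 hx1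
  have hww : w * w = x := Real.mul_self_sqrt (by linarith)
  have hw' : √(Real.log (3 + R ^ 2 + Real.log n)) ≤ w := Real.sqrt_le_sqrt hx'
  set l : ℝ := Real.log (2 + x) with hl
  have hl1 : 1 ≤ l := by
    rw [hl, Real.le_log_iff_exp_le (by linarith)]
    linarith [Real.exp_one_lt_d9]
  set Y : ℝ := √(w * l) with hY
  have hY1 : 1 ≤ Y := by
    rw [hY]
    apply Real.one_le_sqrt.2
    nlinarith
  have hYY : Y * Y = w * l := Real.mul_self_sqrt (by positivity)
  by_cases hRY : R ≤ Y
  swap
  · -- the first bound
    have hmin : min w (R * Y) = w := by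
      apply min_eq_left
      push Not at hRY
      have h1 : Y * Y ≤ R * Y := by
        apply mul_le_mul_of_nonneg_right hRY.le (by linarith)
      nlinarith
    rw [hmin]
    obtain ⟨e, he1, he2⟩ := vec_bound2 n d (R ^ 2) 0 1 (by positivity) (by norm_num) le_rfl v hv
      (by
        intro j
        refine ⟨univ, hrow j, ?_, by simp⟩
        intro i _
        have h1 : (v i j) ^ 2 ≤ 1 :=
          (Finset.single_le_sum (fun j _ => sq_nonneg (v i j)) (Finset.mem_univ j)).trans (hv i)
        exact abs_le_one_iff_mul_self_le_one.2 (by nlinarith))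
    refine ⟨e, he1, fun j => (he2 j).trans ?_⟩
    have h2 : Real.log (2 / 1) ≤ 1 := by
      rw [div_one]
      linarith [Real.log_two_lt_d9]
    have h3 : 0 ≤ √(Real.log (3 + R ^ 2 + Real.log n)) := Real.sqrt_nonneg _
    have h4 : 1 * Real.log (2 / 1) * √(Real.log (3 + R ^ 2 + Real.log n)) ≤ w := by
      calc 1 * Real.log (2 / 1) * √(Real.log (3 + R ^ 2 + Real.log n))
          ≤ 1 * 1 * √(Real.log (3 + R ^ 2 + Real.log n)) := by gcongr
        _ ≤ w := by linarith
    linarith
  · have hY0 : 0 < Y := by linarith
    have hR0 : 0 < R := by linarith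
    set ep : ℝ := R / Y with hep
    have hep0 : 0 < ep := by positivity
    have hep1 : ep ≤ 1 := by
      rw [hep, div_le_one hY0]
      exact hRY
    -- the value
    have hlogY : Real.log (2 * Y) ≤ 2 * l := by
      have h1 : Y ≤ 2 + x := by
        have h2 : l ≤ 2 + x := by
          have := Real.log_le_sub_one_of_pos (show (0 : ℝ) < 2 + x by linarith)
          rw [hl]
          linarith
        have h3 : w ≤ 2 + x := by nlinarith
        have h4 : Y * Y ≤ (2 + x) * (2 + x) := by
          rw [hYY]
          exact mul_le_mul h3 h2 (by linarith) (by linarith)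
        nlinarith
      rw [Real.log_mul (by norm_num) (by linarith)]
      have h2 : Real.log Y ≤ l := by
        rw [hl]
        exact Real.log_le_log (by linarith) h1
      linarith [Real.log_two_lt_d9]
    -- sharper bound of `log (2 Y)`
    have hlogY' : Real.log (2 * Y) ≤ 13 / 10 * l + 1 / 10 * l := by
      have h1 : Real.log (2 * Y) = Real.log 2 + Real.log Y :=
        Real.log_mul (by norm_num) (by linarith)
      have h2 : Real.log Y = (Real.log w + Real.log l) / 2 := by
        have h3 : Real.log (Y * Y) = Real.log w + Real.log l := by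
          rw [hYY]
          exact Real.log_mul (by linarith) (by linarith)
        rw [Real.log_mul (by linarith) (by linarith)] at h3
        linarith
      have h4 : Real.log w ≤ l / 2 := by
        have h5 : Real.log x = Real.log w + Real.log w := by
          rw [← hww]
          exact Real.log_mul (by linarith) (by linarith)
        have h6 : Real.log x ≤ l := by
          rw [hl]
          exact Real.log_le_log (by linarith) (by linarith)
        linarith
      have h7 : Real.log l ≤ l - 1 := Real.log_le_sub_one_of_pos (by linarith)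
      have h8 := Real.log_two_lt_d9
      rw [h1, h2]
      linarith
    obtain ⟨e, he1, he2⟩ := vec_bound2 n d (R ^ 2) (R * Y) ep (by positivity) hep0 hep1 v hv
      (by
        intro j
        refine ⟨univ.filter (fun i => |v i j| ≤ ep), ?_, ?_, ?_⟩
        · refine le_trans (Finset.sum_le_sum_of_subset_of_nonneg (Finset.filter_subset _ _) ?_)
            (hrow j)
          intro i _ _
          positivity
        · intro i hi
          exact (Finset.mem_filter.1 hi).2
        · have h1 : ∀ i ∈ (univ.filter (fun i => |v i j| ≤ ep))ᶜ,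
              |v i j| ≤ (v i j) ^ 2 / ep := by
            intro i hi
            have h2 : ep < |v i j| := by
              have h3 := Finset.mem_compl.1 hi
              by_contra h4
              exact h3 (Finset.mem_filter.2 ⟨Finset.mem_univ _, not_lt.1 h4⟩)
            rw [le_div_iff₀ hep0, ← sq_abs (v i j), sq]
            exact mul_le_mul_of_nonneg_left h2.le (abs_nonneg _)
          calc ∑ i ∈ (univ.filter (fun i => |v i j| ≤ ep))ᶜ, |v i j|
              ≤ ∑ i ∈ (univ.filter (fun i => |v i j| ≤ ep))ᶜ, (v i j) ^ 2 / ep :=
                Finset.sum_le_sum h1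
            _ ≤ ∑ i, (v i j) ^ 2 / ep := by
                apply Finset.sum_le_sum_of_subset_of_nonneg (Finset.subset_univ _)
                intro i _ _
                positivity
            _ = (∑ i, (v i j) ^ 2) / ep := by rw [Finset.sum_div]
            _ ≤ R ^ 2 / ep := by
                gcongr
                exact hrow j
            _ = R * Y := by
                rw [hep]
                field_simp)
    have hfin : R * Y + 1500 + 200000 * (ep * Real.log (2 / ep) *
        √(Real.log (3 + R ^ 2 + Real.log n))) ≤ 300000 * (R * Y) := by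
      have h1 : 1 ≤ R * Y := by nlinarith
      have h2 : Real.log (2 / ep) ≤ 14 / 10 * l := by
        have h3 : 2 / ep ≤ 2 * Y := by
          rw [hep, div_div_eq_mul_div]
          apply div_le_self (by linarith) hR
        have h4 : Real.log (2 / ep) ≤ Real.log (2 * Y) :=
          Real.log_le_log (by positivity) h3
        linarith
      have h5 : 0 ≤ Real.log (2 / ep) := by
        apply Real.log_nonneg
        rw [le_div_iff₀ hep0]
        linarith
      have h6 : ep * Real.log (2 / ep) * √(Real.log (3 + R ^ 2 + Real.log n))
          ≤ ep * (14 / 10 * l) * w := by gcongr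
      have h7 : ep * (14 / 10 * l) * w = 14 / 10 * (R * Y) := by
        have h8 : ep * (14 / 10 * l) * w = 14 / 10 * (ep * (w * l)) := by ring
        rw [h8, ← hYY, hep]
        field_simp
      linarith
    rcases le_total w (R * Y) with h | h
    · rw [min_eq_left h]
      -- the first bound again
      obtain ⟨e, he1, he2⟩ := vec_bound2 n d (R ^ 2) 0 1 (by positivity) (by norm_num) le_rfl v hv
        (by
          intro j
          refine ⟨univ, hrow j, ?_, by simp⟩
          intro i _
          have h1 : (v i j) ^ 2 ≤ 1 :=
            (Finset.single_le_sum (fun j _ => sq_nonneg (v i j)) (Finset.mem_univ j)).trans (hv i)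
          exact abs_le_one_iff_mul_self_le_one.2 (by nlinarith))
      refine ⟨e, he1, fun j => (he2 j).trans ?_⟩
      have h2 : Real.log (2 / 1) ≤ 1 := by
        rw [div_one]
        linarith [Real.log_two_lt_d9]
      have h3 : 0 ≤ √(Real.log (3 + R ^ 2 + Real.log n)) := Real.sqrt_nonneg _
      have h4 : 1 * Real.log (2 / 1) * √(Real.log (3 + R ^ 2 + Real.log n)) ≤ w := by
        calc 1 * Real.log (2 / 1) * √(Real.log (3 + R ^ 2 + Real.log n))
            ≤ 1 * 1 * √(Real.log (3 + R ^ 2 + Real.log n)) := by gcongr
          _ ≤ w := by linarith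
      linarith
    · rw [min_eq_right h]
      exact ⟨e, he1, fun j => (he2 j).trans hfin⟩

end Pool.Agent.LibDB82
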