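import Pool.Agent.LibLoc73.Defs
import Pool.Agent.LibLev64.A1

set_option autoImplicit false

/-!
The levelled local walk: the weight of a row grows with its level.
-/

namespace Pool.Agent.LibDB82

open Finset Pool.Agent.LibLoc73
open Pool.Agent.LibLev64 (M X M_pos M_succ X_zero X_succ X_mono X_pos X_eq)

/-- parameters: those of `Par`, top level, bound of the entries, thresholds, initial position,
initial live set -/
structure LPar (ι κ : Type*) extends Par ι κ where
  H : ℕ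
  ep : ℝ
  E : ℕ → ℝ
  x0 : ι → ℝ
  L0 : Finset ι

/-- a state: position, live variables, level of every row, level of every row at the beginning of
the phase, displacement of every row since its last change of level -/
structure LSt (ι κ : Type*) where
  x : ι → ℝ
  L : Finset ι
  lev : κ → ℕ
  lev0 : κ → ℕ
  dsp : κ → ℝ

namespace LPar

variable {ι κ : Type*} [Fintype ι] [Fintype κ] [DecidableEq ι] (P : LPar ι κ)

/-- bound of the entries of live variables in rows of level `l` -/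
noncomputable def pe (l : ℕ) : ℝ := min P.ep (1 / M l)

/-- displacement needed to leave level `l` -/
noncomputable def D (l : ℕ) : ℝ := P.E l + 4 * P.pe l

/-- level up to which the variable `i` sees row `j` at step `s` -/
def act (s : ℕ) (st : LSt ι κ) (i : ι) (j : κ) : ℕ :=
  if P.c i = s / P.T then st.lev0 j else st.lev j

/-- the weighted matrix at step `s` -/
noncomputable def inst (s : ℕ) (st : LSt ι κ) : Par ι (κ × Fin (P.H + 1)) where
  a := fun i jl =>
    if i ∈ st.L ∧ (jl.2 : ℕ) ≤ P.act s st i jl.1 then M jl.2 * P.a i jl.1 else 0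
  c := P.c
  T := P.T
  r := P.r
  Lc := P.Lc
  δ := P.δ
  η := P.η
  lam := 1

/-- the virtual increment -/
noncomputable def upd (s : ℕ) (st : LSt ι κ) (ξ : ι → Bool) : ι → ℝ :=
  (P.inst s st).upd s st.L ξ

open Classical in
/-- slaves with a big step -/
noncomputable def big (s : ℕ) (st : LSt ι κ) (ξ : ι → Bool) : Finset ι :=
  (P.toPar.sla s st.L).filter (fun i => P.η ≤ |P.upd s st ξ i|)

/-- the new position -/
noncomputable def newx (s : ℕ) (st : LSt ι κ) (ξ : ι → Bool) : ι → ℝ :=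
  fun i => st.x i + if i ∈ P.big s st ξ then 0 else P.upd s st ξ i

/-- displacement before the level is updated -/
noncomputable def rdsp (s : ℕ) (st : LSt ι κ) (ξ : ι → Bool) (j : κ) : ℝ :=
  st.dsp j + P.toPar.row (P.upd s st ξ) j

open Classical in
/-- the new level -/
noncomputable def newlev (s : ℕ) (st : LSt ι κ) (ξ : ι → Bool) (j : κ) : ℕ :=
  if P.D (st.lev j) ≤ |P.rdsp s st ξ j| then st.lev j + 1 else st.lev j

open Classical in
/-- the new live set -/
noncomputable def newL (s : ℕ) (st : LSt ι κ) (ξ : ι → Bool) : Finset ι :=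
  st.L.filter (fun i => |P.newx s st ξ i| < 1 - P.η ∧
    (∀ j, P.a i j ≠ 0 → P.newlev s st ξ j ≤ P.H ∧ ∀ i' ∈ P.big s st ξ, P.a i' j = 0) ∧
    ∑ j, P.a i j ^ 2 * X (P.newlev s st ξ j) ≤ 1)

open Classical in
/-- one step of the walk -/
noncomputable def step (s : ℕ) (st : LSt ι κ) (ξ : ι → Bool) : LSt ι κ where
  x := P.newx s st ξ
  L := P.newL s st ξ
  lev := P.newlev s st ξ
  lev0 := fun j => if (s + 1) / P.T = s / P.T then st.lev0 j else P.newlev s st ξ j
  dsp := fun j => if P.D (st.lev j) ≤ |P.rdsp s st ξ j| then 0 else P.rdsp s st ξ j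

/-- the walk after `s` steps -/
noncomputable def run (ω : ℕ → ι → Bool) : ℕ → LSt ι κ
  | 0 => ⟨P.x0, P.L0, fun _ => 0, fun _ => 0, fun _ => 0⟩
  | s + 1 => P.step s (run ω s) (ω s)

/-- the virtual increment at step `s` of the run -/
noncomputable def U (ω : ℕ → ι → Bool) (s : ℕ) : ι → ℝ := P.upd s (P.run ω s) (ω s)

/-- contribution of step `t` to the coordinate `(j, l)` -/
noncomputable def inc (ω : ℕ → ι → Bool) (t : ℕ) (j : κ) (l : ℕ) : ℝ :=
  ∑ i, if i ∈ (P.run ω t).L ∧ l ≤ P.act t (P.run ω t) i j then P.a i j * P.U ω t i else 0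

/-- displacement of row `j` seen by level `l` -/
noncomputable def V (ω : ℕ → ι → Bool) (s : ℕ) (j : κ) (l : ℕ) : ℝ :=
  ∑ t ∈ range s, P.inc ω t j l

/-- `z` makes a big step before time `s` -/
def IsBig (ω : ℕ → ι → Bool) (s : ℕ) (z : ι) : Prop :=
  ∃ t < s, z ∈ P.big t (P.run ω t) (ω t)

/-- the event that row `j` moves by the threshold of level `l` -/
def Up (ω : ℕ → ι → Bool) (s : ℕ) (j : κ) (l : ℕ) : Prop :=
  P.E l ≤ |P.V ω s j l - P.V ω s j (l + 1)|

open Classical in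
/-- weighted number of level changes near `i` -/
noncomputable def bsum (ω : ℕ → ι → Bool) (s : ℕ) (i : ι) : ℝ :=
  ∑ j, ∑ l ∈ range P.H, if P.Up ω s j l then P.a i j ^ 2 * M (l + 1) ^ 2 else 0

/-- the budget of `i` is exceeded -/
def Bud (ω : ℕ → ι → Bool) (s : ℕ) (i : ι) : Prop := 3 / 4 < P.bsum ω s i

/-- a cause: a row that leaves the top level, or a variable with a big step, a confined walk or
an exceeded budget -/
def Cause (ω : ℕ → ι → Bool) (s : ℕ) : κ ⊕ ι → Prop
  | Sum.inl j => P.Up ω s j P.H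
  | Sum.inr z => P.IsBig ω s z ∨ P.toPar.Conf ω z ∨ P.Bud ω s z

/-- no two different variables of the set are neighbours -/
def NC (S : Finset (κ ⊕ ι)) : Prop :=
  ∀ z z' : ι, Sum.inr z ∈ S → Sum.inr z' ∈ S → z ≠ z' → z' ∉ P.toPar.nb z

open Classical in
/-- enlarged foot of a cause -/
noncomputable def foot2 (h : κ ⊕ ι) : Finset ι := (P.toPar.foot h).biUnion P.toPar.nb

/-- adjacency of causes -/
def HAdj2 (h h' : κ ⊕ ι) : Prop := ∃ i ∈ P.foot2 h, ∃ i' ∈ P.foot2 h', i' ∈ P.toPar.nb i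

/-- invariant of the states -/
structure Inv (st : LSt ι κ) : Prop where
  hx : ∀ i ∈ st.L, |st.x i| < 1 - P.η
  hlev : ∀ i ∈ st.L, ∀ j, P.a i j ≠ 0 → st.lev j ≤ P.H
  hbud : ∀ i ∈ st.L, ∑ j, P.a i j ^ 2 * X (st.lev j) ≤ 1
  hlev0 : ∀ j, st.lev0 j ≤ st.lev j

/-- standing assumptions -/
structure Ok (k : ℕ) : Prop where
  hB : P.toPar.Ok k
  hL2 : 2 * (k : ℝ) ^ 2 ≤ P.Lc
  hηk2 : P.η * (k : ℝ) ^ 2 ≤ 1
  hH : P.H + 1 ≤ k ^ 2
  hep0 : 0 ≤ P.ep
  hep : ∀ i j, |P.a i j| ≤ P.ep
  hep1 : P.ep ≤ 1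
  hE : ∀ l, 0 < P.E l
  hx0 : ∀ i, |P.x0 i| ≤ 1
  hL0 : ∀ i ∈ P.L0, |P.x0 i| < 1 - P.η

/-- the potential -/
noncomputable def pot (s : ℕ) (st : LSt ι κ)
    (v : EuclideanSpace ℝ (ι ⊕ κ × Fin (P.H + 1))) : ℝ :=
  Psi (P.inst s st).wv (P.toPar.piv s st.L) ((P.inst s st).spn (P.toPar.sla s st.L)) v st.x
    + 40 * ∑ jl : κ × Fin (P.H + 1), if st.lev jl.1 < (jl.2 : ℕ) then (v (Sum.inr jl)) ^ 2 else 0

/-- probability bound of `Up` at level `l` -/
noncomputable def qq (l : ℕ) : ℝ := 2 * Real.exp (-(M l ^ 2 * P.E l ^ 2 / 810))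

end LPar

end Pool.Agent.LibDB82
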