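import Pool.Agent.LibDB82.Glue
import Pool.Agent.LibLev64.Final

set_option autoImplicit false

/-! Final statements. -/

open Finset

namespace Pool.Agent.LibDB82

/-- main theorem: small entries and coordinates of bounded `l2` mass -/
theorem vec_bound2 (n d : ℕ) (L t ep : ℝ) (hL : 0 ≤ L) (hep : 0 < ep) (hep1 : ep ≤ 1)
    (v : Fin n → Fin d → ℝ) (hv : ∀ i, ∑ j, (v i j) ^ 2 ≤ 1)
    (hrow : ∀ j, ∃ S : Finset (Fin n), ∑ i ∈ S, (v i j) ^ 2 ≤ L ∧ (∀ i ∈ S, |v i j| ≤ ep) ∧
      ∑ i ∈ Sᶜ, |v i j| ≤ t) :
    ∃ e : Fin n → ℝ, (∀ i, e i = 1 ∨ e i = -1) ∧ ∀ j,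
      |∑ i, e i * v i j| ≤ t + 1500 +
        200000 * (ep * Real.log (2 / ep) * √(Real.log (3 + L + Real.log n))) := by
  classical
  have hlogn : 0 ≤ Real.log n := Real.log_natCast_nonneg n
  have hlog0 : 0 ≤ Real.log (2 / ep) := by
    apply Real.log_nonneg
    rw [le_div_iff₀ hep]
    linarith
  have hepL : 0 ≤ ep * Real.log (2 / ep) := mul_nonneg hep.le hlog0
  set x : ℝ := 3 + L + Real.log n with hx
  have hx3 : 3 ≤ x := by rw [hx]; linarith
  have hlogx : 0 < Real.log x := Real.log_pos (by linarith)
  obtain ⟨b, hb1, hb2⟩ : ∃ b : ℕ, 2 + max L 1 + Real.log n ≤ b ∧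
      (b : ℝ) < 2 + max L 1 + Real.log n + 1 := by
    refine ⟨⌈2 + max L 1 + Real.log n⌉₊, Nat.le_ceil _, Nat.ceil_lt_add_one ?_⟩
    have : (1 : ℝ) ≤ max L 1 := le_max_right _ _
    linarith
  have hm1 : (1 : ℝ) ≤ max L 1 := le_max_right _ _
  have hmL : L ≤ max L 1 := le_max_left _ _
  have hmu : max L 1 ≤ L + 1 := max_le (by linarith) (by linarith)
  have hb3 : (3 : ℝ) ≤ b := by linarith
  have hbx : (b : ℝ) ≤ x ^ 2 := by
    have : (b : ℝ) ≤ x + 1 := by rw [hx]; linarith
    nlinarith
  have hlogb : Real.log b ≤ 2 * Real.log x := by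
    have h1 := Real.log_le_log (by linarith) hbx
    rw [Real.log_pow] at h1
    exact_mod_cast h1
  rcases Nat.lt_or_ge n (b ^ 50) with hn | hn
  · -- few vectors
    have hk : 2 ≤ max n 2 := le_max_right _ _
    obtain ⟨e, he1, he2⟩ := Pool.Agent.LibLev64.vec_bound (max n 2) hk t ep hep hep1 n d v hv (by
      intro j
      obtain ⟨S, _, h2, h3⟩ := hrow j
      refine ⟨S, ?_, h2, h3⟩
      refine (card_le_univ S).trans ?_
      rw [Fintype.card_fin]
      exact le_max_left _ _)
    refine ⟨e, he1, fun j => (he2 j).trans ?_⟩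
    have hlogk : Real.log ((max n 2 : ℕ) : ℝ) ≤ 100 * Real.log x := by
      have h1 : max n 2 ≤ b ^ 50 := by
        apply max_le hn.le
        have hb : 3 ≤ b := by exact_mod_cast hb3
        calc 2 ≤ b ^ 1 := by rw [pow_one]; omega
          _ ≤ b ^ 50 := Nat.pow_le_pow_right (by omega) (by norm_num)
      have h2 : ((max n 2 : ℕ) : ℝ) ≤ (b : ℝ) ^ 50 := by exact_mod_cast h1
      have h3 : (0 : ℝ) < ((max n 2 : ℕ) : ℝ) := by
        have : 0 < max n 2 := by omega
        exact_mod_cast this
      have h4 := Real.log_le_log h3 h2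
      rw [Real.log_pow] at h4
      push_cast at h4 ⊢
      linarith
    have hsq : √(Real.log ((max n 2 : ℕ) : ℝ)) ≤ 10 * √(Real.log x) := by
      apply Real.sqrt_le_iff.2
      refine ⟨by positivity, ?_⟩
      rw [mul_pow, Real.sq_sqrt hlogx.le]
      linarith
    have h5 : ep * Real.log (2 / ep) * √(Real.log ((max n 2 : ℕ) : ℝ))
        ≤ ep * Real.log (2 / ep) * (10 * √(Real.log x)) := mul_le_mul_of_nonneg_left hsq hepL
    have h6 : 0 ≤ ep * Real.log (2 / ep) * √(Real.log x) := mul_nonneg hepL (Real.sqrt_nonneg _)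
    linarith
  · -- many vectors
    have hb : 3 ≤ b := by exact_mod_cast hb3
    have hn1 : (3 : ℝ) ^ 50 ≤ n := by
      have h1 : 3 ^ 50 ≤ b ^ 50 := Nat.pow_le_pow_left hb 50
      exact_mod_cast h1.trans hn
    have hn0 : (0 : ℝ) < n := lt_of_lt_of_le (by positivity) hn1
    have hb4r : (4 : ℝ) ≤ b := by
      have h1 : Real.log ((3 : ℝ) ^ 50) ≤ Real.log n := Real.log_le_log (by positivity) hn1
      rw [Real.log_pow] at h1
      have h2 : (1 : ℝ) ≤ Real.log 3 := by
        rw [Real.le_log_iff_exp_le (by norm_num)]
        have := Real.exp_one_lt_d9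
        linarith
      push_cast at h1
      linarith
    have hb4 : 4 ≤ b := by exact_mod_cast hb4r
    choose S hSL hSep hSsum using hrow
    set w : Fin n → Fin d → ℝ := fun i j => if i ∈ S j ∧ 1 / (n : ℝ) ≤ |v i j| then v i j else 0
      with hw
    have hw1 : ∀ i, ∑ j, (w i j) ^ 2 ≤ 1 := by
      intro i
      refine le_trans (sum_le_sum fun j _ => ?_) (hv i)
      rw [hw]; simp only
      split_ifs
      · exact le_rfl
      · simpa using sq_nonneg (v i j)
    have hwL : ∀ j, ∑ i, (w i j) ^ 2 ≤ b := by
      intro j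
      have h1 : ∑ i, (w i j) ^ 2 ≤ ∑ i ∈ S j, (v i j) ^ 2 := by
        rw [← sum_filter_add_sum_filter_not univ (fun i => i ∈ S j)]
        have h2 : univ.filter (fun i => i ∈ S j) = S j := by ext i; simp
        rw [h2, sum_eq_zero (s := univ.filter (fun i => i ∉ S j)), add_zero]
        · apply sum_le_sum
          intro i hi
          rw [hw]; simp only
          split_ifs
          · exact le_rfl
          · simpa using sq_nonneg (v i j)
        · intro i hi
          rw [hw]; simp only
          rw [if_neg (fun h => (mem_filter.1 hi).2 h.1)]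
          norm_num
      have h2 := hSL j
      linarith
    have hwc : ∀ i, (univ.filter (fun j => w i j ≠ 0)).card ≤ n ^ 2 := by
      intro i
      have h1 : ((univ.filter (fun j => w i j ≠ 0)).card : ℝ) * (1 / (n : ℝ)) ^ 2 ≤ 1 := by
        calc ((univ.filter (fun j => w i j ≠ 0)).card : ℝ) * (1 / (n : ℝ)) ^ 2
            = ∑ j ∈ univ.filter (fun j => w i j ≠ 0), (1 / (n : ℝ)) ^ 2 := by simp
          _ ≤ ∑ j ∈ univ.filter (fun j => w i j ≠ 0), (w i j) ^ 2 := by
              apply sum_le_sum
              intro j hj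
              have h2 := (mem_filter.1 hj).2
              have h3 : i ∈ S j ∧ 1 / (n : ℝ) ≤ |v i j| := by
                by_contra hcon
                apply h2
                rw [hw]; simp only
                rw [if_neg hcon]
              have h4 : w i j = v i j := by
                rw [hw]; simp only
                rw [if_pos h3]
              rw [h4, ← sq_abs (v i j)]
              exact pow_le_pow_left₀ (by positivity) h3.2 2
          _ ≤ ∑ j, (w i j) ^ 2 :=
              sum_le_sum_of_subset_of_nonneg (filter_subset _ _) (fun _ _ _ => sq_nonneg _)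
          _ ≤ 1 := hw1 i
      have h2 : ((univ.filter (fun j => w i j ≠ 0)).card : ℝ) ≤ (n : ℝ) ^ 2 := by
        have h3 : ((univ.filter (fun j => w i j ≠ 0)).card : ℝ)
            = ((univ.filter (fun j => w i j ≠ 0)).card : ℝ) * (1 / (n : ℝ)) ^ 2 * (n : ℝ) ^ 2 := by
          field_simp
        have h4 : (0 : ℝ) < (n : ℝ) ^ 2 := by positivity
        rw [h3]
        nlinarith
      exact_mod_cast h2
    have hwep : ∀ i j, |w i j| ≤ ep := by
      intro i j
      rw [hw]; simp only
      split_ifs with h
      · exact hSep j i h.1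
      · simpa using hep.le
    have hnexp : (n : ℝ) ≤ Real.exp b := by
      rw [← Real.log_le_iff_le_exp hn0]
      linarith
    obtain ⟨e, he1, he2⟩ := main_db w b n hb4 hn hnexp (by rw [Fintype.card_fin]) ep hep hep1
      hw1 hwc hwep hwL
    refine ⟨e, he1, fun j => ?_⟩
    have habs : ∀ i, |e i| = 1 := by
      intro i
      rcases he1 i with h | h <;> rw [h] <;> norm_num
    have hsq : √(Real.log b) ≤ 3 / 2 * √(Real.log x) := by
      apply Real.sqrt_le_iff.2
      refine ⟨by positivity, ?_⟩
      rw [mul_pow, Real.sq_sqrt hlogx.le]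
      linarith
    have h1 : |∑ a, e a * w a j| ≤ 1412 +
        180000 * (ep * Real.log (2 / ep) * √(Real.log x)) := by
      have e1 : ∑ a, w a j * e a = ∑ a, e a * w a j :=
        sum_congr rfl (fun a _ => by ring)
      have h2 := he2 j
      rw [e1] at h2
      refine h2.trans ?_
      have h3 : ep * Real.log (2 / ep) * √(Real.log b)
          ≤ ep * Real.log (2 / ep) * (3 / 2 * √(Real.log x)) :=
        mul_le_mul_of_nonneg_left hsq hepL
      unfold KB
      nlinarith
    have h2 : |∑ a, e a * (v a j - w a j)| ≤ t + 1 := by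
      calc |∑ a, e a * (v a j - w a j)| ≤ ∑ a, |e a * (v a j - w a j)| :=
            abs_sum_le_sum_abs _ _
        _ = ∑ a, |v a j - w a j| := by
            apply sum_congr rfl
            intro a _
            rw [abs_mul, habs a, one_mul]
        _ = ∑ a ∈ S j, |v a j - w a j| + ∑ a ∈ (S j)ᶜ, |v a j - w a j| :=
            (sum_add_sum_compl _ _).symm
        _ ≤ ∑ a ∈ S j, 1 / (n : ℝ) + ∑ a ∈ (S j)ᶜ, |v a j| := by
            apply add_le_add
            · apply sum_le_sum
              intro a ha
              by_cases hb : 1 / (n : ℝ) ≤ |v a j|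
              · have : w a j = v a j := by
                  rw [hw]; simp only
                  rw [if_pos ⟨ha, hb⟩]
                rw [this, sub_self, abs_zero]
                positivity
              · have : w a j = 0 := by
                  rw [hw]; simp only
                  rw [if_neg (fun h => hb h.2)]
                rw [this, sub_zero]
                exact (not_le.1 hb).le
            · apply sum_le_sum
              intro a ha
              have : w a j = 0 := by
                rw [hw]; simp only
                rw [if_neg (fun h => (mem_compl.1 ha) h.1)]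
              rw [this, sub_zero]
        _ ≤ 1 + t := by
            apply add_le_add _ (hSsum j)
            rw [sum_const, nsmul_eq_mul]
            have h3 : ((S j).card : ℝ) ≤ n := by
              have := card_le_univ (S j)
              rw [Fintype.card_fin] at this
              exact_mod_cast this
            rw [mul_one_div, div_le_one hn0]
            exact h3
        _ = t + 1 := by ring
    have h3 : ∑ a, e a * v a j = ∑ a, e a * w a j + ∑ a, e a * (v a j - w a j) := by
      rw [← sum_add_distrib]
      apply sum_congr rfl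
      intro a _
      ring
    rw [h3]
    have h5 := abs_add_le (∑ a, e a * w a j) (∑ a, e a * (v a j - w a j))
    have h6 : 0 ≤ ep * Real.log (2 / ep) * √(Real.log x) := mul_nonneg hepL (Real.sqrt_nonneg _)
    linarith

end Pool.Agent.LibDB82
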