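import Pool.Agent.LibDB82.M2

set_option autoImplicit false

/-! Lemma M: for every linear functional there is a good signing that is at least as good as `x`. -/

open Finset Pool.Agent.LibLoc73

namespace Pool.Agent.LibDB82

variable {ι κ : Type*} [Fintype ι] [Fintype κ] [DecidableEq ι]

open Classical in
/-- Let `ρ = 1/(4 b^83)`, `J = {i ∈ Q : |x i| < 1 - 2ρ}`. On `J` take the signs of `walk_good`, on `Q \ J` those of
`near_round`. -/
theorem lemM (a : ι → κ → ℝ) (b n : ℕ) (hb : 4 ≤ b) (hn : b ^ 50 ≤ n)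
    (hcard : Fintype.card ι ≤ n) (ep : ℝ) (hep0 : 0 < ep) (hep1 : ep ≤ 1)
    (hcol : ∀ i, ∑ j, (a i j) ^ 2 ≤ 1)
    (hrows : ∀ i, (univ.filter (fun j => a i j ≠ 0)).card ≤ n ^ 2)
    (hep : ∀ i j, |a i j| ≤ ep)
    (x : ι → ℝ) (hx : ∀ i, |x i| ≤ 1) (Q : Finset ι) (hQ : Q.card ≤ b ^ 83) (c : ι → ℝ) :
    ∃ e : ι → ℝ, (∀ i ∈ Q, |e i| = 1) ∧ 0 ≤ ∑ i ∈ Q, c i * (e i - x i) ∧
      ∀ j, |∑ i ∈ Q, if 1 / (b : ℝ) ^ 120 ≤ |a i j| then a i j * (e i - x i) else 0|
        ≤ KB b ep + 10 := by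
  have hb' : (4 : ℝ) ≤ b := by exact_mod_cast hb
  have hb0 : (0 : ℝ) < b := by linarith
  set g : ℝ := 1 / (b : ℝ) ^ 120 with hg
  set ρ : ℝ := 1 / (4 * (b : ℝ) ^ 83) with hρ
  have hρ0 : 0 < ρ := by positivity
  set J : Finset ι := Q.filter (fun i => |x i| < 1 - 2 * ρ) with hJ
  set K : Finset ι := Q.filter (fun i => ¬ |x i| < 1 - 2 * ρ) with hK
  have hJc : J.card ≤ b ^ 83 := (Finset.card_le_card (Finset.filter_subset _ _)).trans hQ
  obtain ⟨e1, h1, h2, h3⟩ := walk_good a b n hb hn hcard ep hep0 hep1 hcol hrows hep x hx J hJc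
    (fun i hi => (Finset.mem_filter.1 hi).2) c
  obtain ⟨e2, h4, h5, h6⟩ := near_round K x c ρ hρ0.le (fun i _ => hx i)
    (fun i hi => not_lt.1 (Finset.mem_filter.1 hi).2) (by
      have hKc : (K.card : ℝ) ≤ (b : ℝ) ^ 83 := by
        exact_mod_cast (Finset.card_le_card (Finset.filter_subset _ _)).trans hQ
      calc 2 * ρ * (K.card : ℝ) ≤ 2 * ρ * (b : ℝ) ^ 83 := by gcongr
        _ = 1 / 2 := by rw [hρ]; field_simp; norm_num
        _ ≤ 1 := by norm_num)
  have hsplit : ∀ f : ι → ℝ, ∑ i ∈ Q, f i = ∑ i ∈ J, f i + ∑ i ∈ K, f i := fun f =>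
    (Finset.sum_filter_add_sum_filter_not Q (fun i => |x i| < 1 - 2 * ρ) f).symm
  have hJe : ∀ i ∈ J, (if i ∈ J then e1 i else e2 i) = e1 i := fun i hi => if_pos hi
  have hKe : ∀ i ∈ K, (if i ∈ J then e1 i else e2 i) = e2 i := by
    intro i hi
    have hni : ¬ (i ∈ J) := fun h => (Finset.mem_filter.1 hi).2 (Finset.mem_filter.1 h).2
    exact if_neg hni
  refine ⟨fun i => if i ∈ J then e1 i else e2 i, ?_, ?_, ?_⟩
  · intro i hi
    show |if i ∈ J then e1 i else e2 i| = 1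
    by_cases h : i ∈ J
    · rw [if_pos h]; exact h1 i h
    · rw [if_neg h]
      exact h4 i (Finset.mem_filter.2 ⟨hi, fun hc => h (Finset.mem_filter.2 ⟨hi, hc⟩)⟩)
  · rw [hsplit]
    have q1 : ∑ i ∈ J, c i * ((if i ∈ J then e1 i else e2 i) - x i)
        = ∑ i ∈ J, c i * (e1 i - x i) :=
      Finset.sum_congr rfl fun i hi => by rw [hJe i hi]
    have q2 : ∑ i ∈ K, c i * ((if i ∈ J then e1 i else e2 i) - x i)
        = ∑ i ∈ K, c i * (e2 i - x i) :=
      Finset.sum_congr rfl fun i hi => by rw [hKe i hi]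
    rw [q1, q2]
    exact add_nonneg h2 h5
  · intro j
    rw [hsplit]
    have q1 : ∑ i ∈ J, (if g ≤ |a i j| then a i j * ((if i ∈ J then e1 i else e2 i) - x i) else 0)
        = ∑ i ∈ J, (if g ≤ |a i j| then a i j * (e1 i - x i) else 0) :=
      Finset.sum_congr rfl fun i hi => by rw [hJe i hi]
    have q2 : ∑ i ∈ K, (if g ≤ |a i j| then a i j * ((if i ∈ J then e1 i else e2 i) - x i) else 0)
        = ∑ i ∈ K, (if g ≤ |a i j| then a i j * (e2 i - x i) else 0) :=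
      Finset.sum_congr rfl fun i hi => by rw [hKe i hi]
    rw [q1, q2]
    have q3 : |∑ i ∈ K, (if g ≤ |a i j| then a i j * (e2 i - x i) else 0)| ≤ 3 := by
      calc |∑ i ∈ K, (if g ≤ |a i j| then a i j * (e2 i - x i) else 0)|
          ≤ ∑ i ∈ K, |if g ≤ |a i j| then a i j * (e2 i - x i) else 0| :=
            Finset.abs_sum_le_sum_abs _ _
        _ ≤ ∑ i ∈ K, |e2 i - x i| := by
            refine Finset.sum_le_sum fun i _ => ?_
            split_ifs
            · rw [abs_mul]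
              calc |a i j| * |e2 i - x i| ≤ 1 * |e2 i - x i| :=
                    mul_le_mul_of_nonneg_right ((hep i j).trans hep1) (abs_nonneg _)
                _ = _ := one_mul _
            · rw [abs_zero]; exact abs_nonneg _
        _ ≤ 3 := h6
    refine (abs_add_le _ _).trans ?_
    linarith [h3 j]

end Pool.Agent.LibDB82
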