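import Mathlib

set_option autoImplicit false

/-! Task N1: independent choice of good signs in the blocks, derandomised. -/

open Finset

namespace Pool.Agent.LibDB82

/-- convexity of the exponential function on `[-r, r]` -/
private theorem n1_exp (lam z r : ℝ) (hz : |z| ≤ r) :
    Real.exp (lam * z) ≤ Real.cosh (lam * r) + z * (Real.sinh (lam * r) / r) := by
  rcases eq_or_lt_of_le ((abs_nonneg z).trans hz) with h0 | h0
  · have hz0 : z = 0 := by
      rw [← h0] at hz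
      exact abs_nonpos_iff.1 hz
    rw [hz0, ← h0]
    simp
  · have h1 := abs_le.1 hz
    set t : ℝ := (1 + z / r) / 2 with ht
    have hzr : -1 ≤ z / r ∧ z / r ≤ 1 := by
      constructor
      · rw [le_div_iff₀ h0]
        linarith [h1.1]
      · rw [div_le_one h0]
        exact h1.2
    have ht0 : 0 ≤ t := by
      rw [ht]
      linarith [hzr.1]
    have ht1 : 0 ≤ 1 - t := by
      rw [ht]
      linarith [hzr.2]
    have hc := convexOn_exp.2 (Set.mem_univ (lam * r)) (Set.mem_univ (-(lam * r))) ht0 ht1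
      (by ring)
    simp only [smul_eq_mul] at hc
    have e1 : t * (lam * r) + (1 - t) * -(lam * r) = lam * z := by
      rw [ht]
      field_simp
      ring
    rw [e1] at hc
    refine hc.trans (le_of_eq ?_)
    rw [Real.cosh_eq, Real.sinh_eq, ht]
    field_simp
    ring

/-- the induction -/
private theorem n1_ind {ι κ : Type*} [DecidableEq ι] (x : ι → ℝ) (b : ι → κ → ℝ)
    (Good : Finset ι → (ι → ℝ) → Prop) (R : Finset κ) (lam : ℝ) (𝒬 : Finset (Finset ι)) :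
    (∀ Q ∈ 𝒬, ∀ Q' ∈ 𝒬, Q ≠ Q' → Disjoint Q Q') →
    (∀ Q ∈ 𝒬, ∀ c : ι → ℝ, ∃ e : ι → ℝ, Good Q e ∧ (∀ i ∈ Q, |e i - x i| ≤ 2) ∧
      0 ≤ ∑ i ∈ Q, c i * (e i - x i)) →
    (∀ Q ∈ 𝒬, ∀ e e' : ι → ℝ, (∀ i ∈ Q, e i = e' i) → Good Q e → Good Q e') →
    ∀ wp wm : κ → ℝ, (∀ j, 0 ≤ wp j) → (∀ j, 0 ≤ wm j) →
    ∃ e : ι → ℝ, (∀ Q ∈ 𝒬, Good Q e) ∧
      ∑ j ∈ R, (wp j * Real.exp (lam * ∑ Q ∈ 𝒬, ∑ i ∈ Q, b i j * (e i - x i)) +
        wm j * Real.exp (-(lam * ∑ Q ∈ 𝒬, ∑ i ∈ Q, b i j * (e i - x i)))) ≤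
      ∑ j ∈ R, (wp j + wm j) *
        Real.exp (lam ^ 2 * (∑ Q ∈ 𝒬, (2 * ∑ i ∈ Q, |b i j|) ^ 2) / 2) := by
  induction 𝒬 using Finset.induction_on with
  | empty =>
    intro _ _ _ wp wm _ _
    refine ⟨x, fun Q hQ => absurd hQ (Finset.notMem_empty Q), le_of_eq ?_⟩
    refine Finset.sum_congr rfl fun j _ => ?_
    simp
  | insert Q₀ 𝒬 hQ₀ ih =>
    intro hdisj hGood hcongr wp wm hwp hwm
    set ρ : κ → ℝ := fun j => ∑ Q ∈ 𝒬, (2 * ∑ i ∈ Q, |b i j|) ^ 2 with hρ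
    set r : κ → ℝ := fun j => 2 * ∑ i ∈ Q₀, |b i j| with hr
    set g : κ → ℝ := fun j => Real.exp (lam ^ 2 * ρ j / 2) with hg
    have hg0 : ∀ j, 0 < g j := fun j => Real.exp_pos _
    obtain ⟨e₀, he₀, hb₀, hl₀⟩ := hGood Q₀ (Finset.mem_insert_self _ _)
      (fun i => -∑ j ∈ R, ((wp j - wm j) * g j * (Real.sinh (lam * r j) / r j)) * b i j)
    set F₀ : κ → ℝ := fun j => ∑ i ∈ Q₀, b i j * (e₀ i - x i) with hF₀
    have hF₀r : ∀ j, |F₀ j| ≤ r j := by
      intro j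
      refine (Finset.abs_sum_le_sum_abs _ _).trans ?_
      rw [hr]
      beta_reduce
      rw [Finset.mul_sum]
      refine Finset.sum_le_sum fun i hi => ?_
      rw [abs_mul]
      have := mul_le_mul_of_nonneg_left (hb₀ i hi) (abs_nonneg (b i j))
      linarith
    have hlin : ∑ j ∈ R, (wp j - wm j) * g j * (Real.sinh (lam * r j) / r j) * F₀ j ≤ 0 := by
      have h1 : ∑ i ∈ Q₀, (-∑ j ∈ R, ((wp j - wm j) * g j * (Real.sinh (lam * r j) / r j)) *
          b i j) * (e₀ i - x i) =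
          -∑ j ∈ R, (wp j - wm j) * g j * (Real.sinh (lam * r j) / r j) * F₀ j := by
        rw [hF₀]
        simp only [neg_mul, Finset.sum_neg_distrib, Finset.sum_mul, Finset.mul_sum]
        rw [Finset.sum_comm]
        refine congrArg _ (Finset.sum_congr rfl fun j _ => Finset.sum_congr rfl fun i _ => ?_)
        ring
      rw [h1] at hl₀
      linarith
    obtain ⟨e₁, he₁, hle₁⟩ := ih
      (fun Q hQ Q' hQ' => hdisj Q (Finset.mem_insert_of_mem hQ) Q' (Finset.mem_insert_of_mem hQ'))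
      (fun Q hQ => hGood Q (Finset.mem_insert_of_mem hQ))
      (fun Q hQ => hcongr Q (Finset.mem_insert_of_mem hQ))
      (fun j => wp j * Real.exp (lam * F₀ j)) (fun j => wm j * Real.exp (-(lam * F₀ j)))
      (fun j => mul_nonneg (hwp j) (Real.exp_pos _).le)
      (fun j => mul_nonneg (hwm j) (Real.exp_pos _).le)
    refine ⟨fun i => if i ∈ Q₀ then e₀ i else e₁ i, ?_, ?_⟩
    · intro Q hQ
      rw [Finset.mem_insert] at hQ
      rcases hQ with hQ | hQ
      · rw [hQ]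
        refine hcongr Q₀ (Finset.mem_insert_self _ _) e₀ _ ?_ he₀
        intro i hi
        rw [if_pos hi]
      · refine hcongr Q (Finset.mem_insert_of_mem hQ) e₁ _ ?_ (he₁ Q hQ)
        intro i hi
        have hne : Q₀ ≠ Q := fun h => hQ₀ (h ▸ hQ)
        have hd := hdisj Q₀ (Finset.mem_insert_self _ _) Q (Finset.mem_insert_of_mem hQ) hne
        rw [if_neg (fun h => (Finset.disjoint_left.1 hd) h hi)]
    · have hsplit : ∀ j, ∑ Q ∈ insert Q₀ 𝒬, ∑ i ∈ Q,
          b i j * ((if i ∈ Q₀ then e₀ i else e₁ i) - x i) =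
          F₀ j + ∑ Q ∈ 𝒬, ∑ i ∈ Q, b i j * (e₁ i - x i) := by
        intro j
        rw [Finset.sum_insert hQ₀]
        congr 1
        · refine Finset.sum_congr rfl fun i hi => ?_
          rw [if_pos hi]
        · refine Finset.sum_congr rfl fun Q hQ => Finset.sum_congr rfl fun i hi => ?_
          have hne : Q₀ ≠ Q := fun h => hQ₀ (h ▸ hQ)
          have hd := hdisj Q₀ (Finset.mem_insert_self _ _) Q (Finset.mem_insert_of_mem hQ) hne
          rw [if_neg (fun h => (Finset.disjoint_left.1 hd) h hi)]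
      have hL : ∑ j ∈ R, (wp j * Real.exp (lam * ∑ Q ∈ insert Q₀ 𝒬, ∑ i ∈ Q,
            b i j * ((fun i => if i ∈ Q₀ then e₀ i else e₁ i) i - x i)) +
          wm j * Real.exp (-(lam * ∑ Q ∈ insert Q₀ 𝒬, ∑ i ∈ Q,
            b i j * ((fun i => if i ∈ Q₀ then e₀ i else e₁ i) i - x i)))) =
          ∑ j ∈ R, ((wp j * Real.exp (lam * F₀ j)) *
            Real.exp (lam * ∑ Q ∈ 𝒬, ∑ i ∈ Q, b i j * (e₁ i - x i)) +
          (wm j * Real.exp (-(lam * F₀ j))) *
            Real.exp (-(lam * ∑ Q ∈ 𝒬, ∑ i ∈ Q, b i j * (e₁ i - x i)))) := by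
        refine Finset.sum_congr rfl fun j _ => ?_
        beta_reduce
        rw [hsplit j, mul_add, Real.exp_add, neg_add, Real.exp_add]
        ring
      rw [hL]
      refine hle₁.trans ?_
      have hstep : ∀ j, (wp j * Real.exp (lam * F₀ j) + wm j * Real.exp (-(lam * F₀ j))) * g j ≤
          (wp j + wm j) * (Real.cosh (lam * r j) * g j) +
            (wp j - wm j) * g j * (Real.sinh (lam * r j) / r j) * F₀ j := by
        intro j
        have h1 := n1_exp lam (F₀ j) (r j) (hF₀r j)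
        have h2 := n1_exp lam (-(F₀ j)) (r j) (by rw [abs_neg]; exact hF₀r j)
        have e2 : lam * -(F₀ j) = -(lam * F₀ j) := by ring
        rw [e2] at h2
        have h3 := mul_le_mul_of_nonneg_left h1 (mul_nonneg (hwp j) (hg0 j).le)
        have h4 := mul_le_mul_of_nonneg_left h2 (mul_nonneg (hwm j) (hg0 j).le)
        nlinarith
      have hcosh : ∀ j, (wp j + wm j) * (Real.cosh (lam * r j) * g j) ≤
          (wp j + wm j) * Real.exp (lam ^ 2 *
            (∑ Q ∈ insert Q₀ 𝒬, (2 * ∑ i ∈ Q, |b i j|) ^ 2) / 2) := by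
        intro j
        refine mul_le_mul_of_nonneg_left ?_ (add_nonneg (hwp j) (hwm j))
        have h1 := mul_le_mul_of_nonneg_right (Real.cosh_le_exp_half_sq (lam * r j)) (hg0 j).le
        refine h1.trans (le_of_eq ?_)
        rw [hg]
        beta_reduce
        rw [← Real.exp_add, Finset.sum_insert hQ₀]
        congr 1
        rw [hr, hρ]
        ring
      calc ∑ j ∈ R, (wp j * Real.exp (lam * F₀ j) + wm j * Real.exp (-(lam * F₀ j))) *
            Real.exp (lam ^ 2 * (∑ Q ∈ 𝒬, (2 * ∑ i ∈ Q, |b i j|) ^ 2) / 2)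
          ≤ ∑ j ∈ R, ((wp j + wm j) * (Real.cosh (lam * r j) * g j) +
            (wp j - wm j) * g j * (Real.sinh (lam * r j) / r j) * F₀ j) :=
            Finset.sum_le_sum fun j _ => hstep j
        _ = ∑ j ∈ R, (wp j + wm j) * (Real.cosh (lam * r j) * g j) +
            ∑ j ∈ R, (wp j - wm j) * g j * (Real.sinh (lam * r j) / r j) * F₀ j :=
            Finset.sum_add_distrib
        _ ≤ ∑ j ∈ R, (wp j + wm j) * (Real.cosh (lam * r j) * g j) := by linarith
        _ ≤ _ := Finset.sum_le_sum fun j _ => hcosh j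

/-- Blocks `Q ∈ 𝒬` (pairwise disjoint); for every block and every linear functional there is a good vector
that is at least as good as `x` for this functional. Then there is a choice of good vectors in all blocks
with all rows in `R` changed by at most `1`.
Proof: show by induction on `𝒬` that for all nonnegative weights `wp j, wm j` there is `e`, good in all blocks,
with `∑_{j∈R} (wp j exp (lam F_j) + wm j exp (-lam F_j)) ≤ ∑_{j∈R} (wp j + wm j) exp (lam² ρ_j / 2)`,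
`F_j = ∑_Q ∑_{i∈Q} b_ij (e_i - x_i)`, `ρ_j = ∑_Q r_Qj²`, `r_Qj = 2 ∑_{i∈Q} |b_ij|`. For a block `Q`, `|z| ≤ r`
gives `exp (lam z) ≤ cosh (lam r) + (z/r) sinh (lam r)` (convexity), `cosh (lam r) ≤ exp (lam² r²/2)`
(`Real.cosh_le_exp_half_sq`), and the linear terms are made nonpositive by `hGood`. -/
theorem potential {ι κ : Type*} [DecidableEq ι] (𝒬 : Finset (Finset ι))
    (hdisj : ∀ Q ∈ 𝒬, ∀ Q' ∈ 𝒬, Q ≠ Q' → Disjoint Q Q')
    (x : ι → ℝ) (b : ι → κ → ℝ) (Good : Finset ι → (ι → ℝ) → Prop)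
    (hGood : ∀ Q ∈ 𝒬, ∀ c : ι → ℝ, ∃ e : ι → ℝ, Good Q e ∧ (∀ i ∈ Q, |e i - x i| ≤ 2) ∧
      0 ≤ ∑ i ∈ Q, c i * (e i - x i))
    (hcongr : ∀ Q ∈ 𝒬, ∀ e e' : ι → ℝ, (∀ i ∈ Q, e i = e' i) → Good Q e → Good Q e')
    (R : Finset κ) (lam v : ℝ) (hlam : 0 < lam)
    (hv : ∀ j ∈ R, ∑ Q ∈ 𝒬, (2 * ∑ i ∈ Q, |b i j|) ^ 2 ≤ v)
    (hnum : 2 * (R.card : ℝ) * Real.exp (lam ^ 2 * v / 2 - lam) < 1) :
    ∃ e : ι → ℝ, (∀ Q ∈ 𝒬, Good Q e) ∧
      ∀ j ∈ R, |∑ Q ∈ 𝒬, ∑ i ∈ Q, b i j * (e i - x i)| ≤ 1 := by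
  obtain ⟨e, he, hle⟩ := n1_ind x b Good R lam 𝒬 hdisj hGood hcongr (fun _ => 1) (fun _ => 1)
    (fun _ => zero_le_one) (fun _ => zero_le_one)
  refine ⟨e, he, ?_⟩
  intro j hj
  set F : κ → ℝ := fun j => ∑ Q ∈ 𝒬, ∑ i ∈ Q, b i j * (e i - x i) with hF
  simp only [one_mul] at hle
  have h1 : ∑ j ∈ R, ((1 : ℝ) + 1) * Real.exp (lam ^ 2 *
      (∑ Q ∈ 𝒬, (2 * ∑ i ∈ Q, |b i j|) ^ 2) / 2) ≤
      2 * (R.card : ℝ) * Real.exp (lam ^ 2 * v / 2) := by
    have h2 : ∑ j ∈ R, ((1 : ℝ) + 1) * Real.exp (lam ^ 2 *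
        (∑ Q ∈ 𝒬, (2 * ∑ i ∈ Q, |b i j|) ^ 2) / 2) ≤
        ∑ _j ∈ R, ((1 : ℝ) + 1) * Real.exp (lam ^ 2 * v / 2) := by
      refine Finset.sum_le_sum fun j hj => ?_
      refine mul_le_mul_of_nonneg_left (Real.exp_le_exp.2 ?_) (by norm_num)
      have := mul_le_mul_of_nonneg_left (hv j hj) (sq_nonneg lam)
      linarith
    rw [Finset.sum_const, nsmul_eq_mul] at h2
    refine h2.trans (le_of_eq ?_)
    ring
  have h2 : Real.exp (lam * F j) + Real.exp (-(lam * F j)) ≤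
      ∑ j ∈ R, (Real.exp (lam * F j) + Real.exp (-(lam * F j))) :=
    Finset.single_le_sum (f := fun j => Real.exp (lam * F j) + Real.exp (-(lam * F j)))
      (fun j _ => add_nonneg (Real.exp_pos _).le (Real.exp_pos _).le) hj
  have h3 : Real.exp (lam * F j) + Real.exp (-(lam * F j)) < Real.exp lam := by
    refine (h2.trans (hle.trans h1)).trans_lt ?_
    have h4 : Real.exp (lam ^ 2 * v / 2 - lam) = Real.exp (lam ^ 2 * v / 2) / Real.exp lam :=
      Real.exp_sub _ _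
    rw [h4, ← mul_div_assoc, div_lt_one (Real.exp_pos _)] at hnum
    exact hnum
  have h5 : Real.exp (lam * F j) < Real.exp lam := by
    have := Real.exp_pos (-(lam * F j))
    linarith
  have h6 : Real.exp (-(lam * F j)) < Real.exp lam := by
    have := Real.exp_pos (lam * F j)
    linarith
  rw [Real.exp_lt_exp] at h5 h6
  rw [abs_le]
  constructor
  · nlinarith
  · nlinarith

end Pool.Agent.LibDB82
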