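import Pool.Agent.LibDB82.Stage1
import Pool.Agent.LibDB82.LemM
import Pool.Agent.LibDB82.N1
import Pool.Agent.LibDB82.Comp

set_option autoImplicit false

/-! Gluing: main theorem for matrices without small entries. -/

open Finset Pool.Agent.LibLoc73

namespace Pool.Agent.LibDB82

variable {ι κ : Type*} [Fintype ι] [Fintype κ] [DecidableEq ι]

theorem KB_nonneg (b : ℕ) (ep : ℝ) (hep0 : 0 < ep) (hep1 : ep ≤ 1) : 0 ≤ KB b ep := by
  have h1 : 0 ≤ Real.log (2 / ep) := by
    apply Real.log_nonneg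
    rw [le_div_iff₀ hep0]
    linarith
  unfold KB
  positivity

open Classical in
/-- the coarse entries of a row in `T` lie in one component -/
theorem coarse_row (a : ι → κ → ℝ) (g K : ℝ) (hK : 0 ≤ K) (T : Finset ι) (y : ι → ℝ)
    (hgood : ∀ Q ∈ cmps (RelG a g) T, ∀ j,
      |∑ i ∈ Q, if g ≤ |a i j| then a i j * y i else 0| ≤ K) (j : κ) :
    |∑ i ∈ T, if g ≤ |a i j| then a i j * y i else 0| ≤ K := by
  by_cases h : ∃ i0 ∈ T, g ≤ |a i0 j|
  · obtain ⟨i0, hi0, hg0⟩ := h
    have h1 := hgood (cmp (RelG a g) T i0) ((mem_cmps _ T _).2 ⟨i0, hi0, rfl⟩) j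
    have h2 : ∑ i ∈ cmp (RelG a g) T i0, (if g ≤ |a i j| then a i j * y i else 0)
        = ∑ i ∈ T, if g ≤ |a i j| then a i j * y i else 0 := by
      refine Finset.sum_subset (fun i hi => ((mem_cmp _ T i0 i).1 hi).1) ?_
      intro i hi hni
      by_cases hgi : g ≤ |a i j|
      · exact absurd (adj_cmp (RelG a g) T i0 i0 i (self_cmp _ T i0 hi0) hi ⟨j, hg0, hgi⟩) hni
      · rw [if_neg hgi]
    rw [← h2]
    exact h1
  · have h2 : ∑ i ∈ T, (if g ≤ |a i j| then a i j * y i else 0) = 0 := by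
      refine Finset.sum_eq_zero ?_
      intro i hi
      rw [if_neg (fun hgi => h ⟨i, hi, hgi⟩)]
    rw [h2, abs_zero]
    exact hK

open Classical in
/-- `x, T` from `stage1`; `𝒬` = components of `T` for the relation `RelG a g`, `g = 1/b^120`; `potential` with
`Good Q e` = (`|e i| = 1` on `Q`, `|∑_{i∈Q, |a_ij| ≥ g} a_ij (e_i - x_i)| ≤ KB + 10` for all `j`) (from `lemM`),
the fine entries `if |a i j| < g then a i j else 0`, `R` = rows with a nonzero entry (at most `n^3 ≤ e^{3b}`),
`lam = 10 b`, `v = 4 b^83 / b^90`. Final signs: `e` on `T`, the sign of `x i` outside `T` (error `≤ 1/n²` each). In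
every row all the coarse entries (`≥ g`) of `T` lie in one component. Total: `KB + (KB + 10) + 1 + 1`. -/
theorem main_db (a : ι → κ → ℝ) (b n : ℕ) (hb : 4 ≤ b) (hn : b ^ 50 ≤ n)
    (hnb : (n : ℝ) ≤ Real.exp b)
    (hcard : Fintype.card ι ≤ n) (ep : ℝ) (hep0 : 0 < ep) (hep1 : ep ≤ 1)
    (hcol : ∀ i, ∑ j, (a i j) ^ 2 ≤ 1)
    (hrows : ∀ i, (univ.filter (fun j => a i j ≠ 0)).card ≤ n ^ 2)
    (hep : ∀ i j, |a i j| ≤ ep) (hL : ∀ j, ∑ i, (a i j) ^ 2 ≤ b) :
    ∃ e : ι → ℝ, (∀ i, e i = 1 ∨ e i = -1) ∧ ∀ j, |∑ i, a i j * e i| ≤ 2 * KB b ep + 12 := by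
  have hb1 : 1 ≤ b := by omega
  have hb' : (4 : ℝ) ≤ b := by exact_mod_cast hb
  have hb0 : (0 : ℝ) < b := by linarith
  have hn1 : 1 ≤ n := le_trans (Nat.one_le_pow _ _ (by omega)) hn
  have hn0 : (0 : ℝ) < n := by exact_mod_cast hn1
  have hKB := KB_nonneg b ep hep0 hep1
  obtain ⟨x, T, hx, hT, hrow, hmass, hclus⟩ :=
    stage1 a b n hb hn hnb hcard ep hep0 hep1 hcol hrows hep hL
  set g : ℝ := 1 / (b : ℝ) ^ 120 with hg
  have hQT : ∀ Q ∈ cmps (RelG a g) T, Q ⊆ T := by
    intro Q hQ
    obtain ⟨i0, hi0, rfl⟩ := (mem_cmps _ T Q).1 hQ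
    intro i hi
    exact ((mem_cmp _ T i0 i).1 hi).1
  have hQcard : ∀ Q ∈ cmps (RelG a g) T, Q.card ≤ b ^ 83 := by
    intro Q hQ
    have h1 := hQT Q hQ
    obtain ⟨i0, hi0, rfl⟩ := (mem_cmps _ T Q).1 hQ
    exact hclus _ h1 ⟨i0, self_cmp _ T i0 hi0, fun i hi => conn_cmp _ T i0 hi0 i hi⟩
  obtain ⟨e, he1, he2⟩ := potential (cmps (RelG a g) T)
    (cmps_disj (RelG a g) (RelG_symm a g) T) x
    (fun i j => if |a i j| < g then a i j else 0)
    (fun Q e => (∀ i ∈ Q, |e i| = 1) ∧
      ∀ j, |∑ i ∈ Q, if g ≤ |a i j| then a i j * (e i - x i) else 0| ≤ KB b ep + 10)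
    (by
      intro Q hQ c
      obtain ⟨e, h1, h2, h3⟩ := lemM a b n hb hn hcard ep hep0 hep1 hcol hrows hep x hx Q
        (hQcard Q hQ) c
      refine ⟨e, ⟨h1, h3⟩, ?_, h2⟩
      intro i hi
      calc |e i - x i| ≤ |e i| + |x i| := abs_sub _ _
        _ ≤ 1 + 1 := add_le_add (h1 i hi).le (hx i)
        _ = 2 := by norm_num)
    (by
      rintro Q _ e e' hee ⟨h1, h2⟩
      refine ⟨fun i hi => by rw [← hee i hi]; exact h1 i hi, fun j => ?_⟩
      have h3 : ∑ i ∈ Q, (if g ≤ |a i j| then a i j * (e' i - x i) else 0)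
          = ∑ i ∈ Q, if g ≤ |a i j| then a i j * (e i - x i) else 0 := by
        refine Finset.sum_congr rfl fun i hi => ?_
        rw [hee i hi]
      rw [h3]
      exact h2 j)
    (univ.filter (fun j => ∃ i, a i j ≠ 0)) (10 * b) (4 / (b : ℝ) ^ 7) (by positivity)
    (by
      intro j _
      have h1 : ∀ Q ∈ cmps (RelG a g) T,
          (2 * ∑ i ∈ Q, |if |a i j| < g then a i j else 0|) ^ 2
            ≤ 4 * (b : ℝ) ^ 83 * ∑ i ∈ Q, (if |a i j| < g then (a i j) ^ 2 else 0) := by
        intro Q hQ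
        have h2 : (∑ i ∈ Q, |if |a i j| < g then a i j else 0|) ^ 2
            ≤ (Q.card : ℝ) * ∑ i ∈ Q, |if |a i j| < g then a i j else 0| ^ 2 :=
          sq_sum_le_card_mul_sum_sq
        have h3 : (Q.card : ℝ) ≤ (b : ℝ) ^ 83 := by exact_mod_cast hQcard Q hQ
        have h4 : ∑ i ∈ Q, |if |a i j| < g then a i j else 0| ^ 2
            = ∑ i ∈ Q, (if |a i j| < g then (a i j) ^ 2 else 0) := by
          refine Finset.sum_congr rfl fun i _ => ?_
          split_ifs
          · exact sq_abs _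
          · simp
        have h5 : 0 ≤ ∑ i ∈ Q, (if |a i j| < g then (a i j) ^ 2 else 0) :=
          Finset.sum_nonneg fun i _ => by positivity
        calc (2 * ∑ i ∈ Q, |if |a i j| < g then a i j else 0|) ^ 2
            = 4 * (∑ i ∈ Q, |if |a i j| < g then a i j else 0|) ^ 2 := by ring
          _ ≤ 4 * ((Q.card : ℝ) * ∑ i ∈ Q, (if |a i j| < g then (a i j) ^ 2 else 0)) := by
              rw [h4] at h2
              linarith
          _ ≤ 4 * ((b : ℝ) ^ 83 * ∑ i ∈ Q, (if |a i j| < g then (a i j) ^ 2 else 0)) := by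
              gcongr
          _ = _ := by ring
      calc ∑ Q ∈ cmps (RelG a g) T, (2 * ∑ i ∈ Q, |if |a i j| < g then a i j else 0|) ^ 2
          ≤ ∑ Q ∈ cmps (RelG a g) T,
              4 * (b : ℝ) ^ 83 * ∑ i ∈ Q, (if |a i j| < g then (a i j) ^ 2 else 0) :=
            Finset.sum_le_sum h1
        _ = 4 * (b : ℝ) ^ 83 * ∑ i ∈ T, (if |a i j| < g then (a i j) ^ 2 else 0) := by
            rw [← Finset.mul_sum, ← cmps_sum (RelG a g) (RelG_symm a g) T]
        _ ≤ 4 * (b : ℝ) ^ 83 * (1 / (b : ℝ) ^ 90) := by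
            gcongr
            exact hmass j
        _ = 4 / (b : ℝ) ^ 7 := by
            field_simp)
    (by
      have hcardR : ((univ.filter (fun j => ∃ i, a i j ≠ 0)).card : ℝ) ≤ Real.exp (3 * b) := by
        have h1 : (univ.filter (fun j => ∃ i, a i j ≠ 0))
            ⊆ (univ : Finset ι).biUnion (fun i => univ.filter (fun j => a i j ≠ 0)) := by
          intro j hj
          obtain ⟨i, hi⟩ := (Finset.mem_filter.1 hj).2
          exact Finset.mem_biUnion.2 ⟨i, Finset.mem_univ _,
            Finset.mem_filter.2 ⟨Finset.mem_univ _, hi⟩⟩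
        have h2 : (univ.filter (fun j => ∃ i, a i j ≠ 0)).card ≤ n ^ 3 := by
          refine (Finset.card_le_card h1).trans ?_
          refine (Finset.card_biUnion_le_card_mul _ _ (n ^ 2) (fun i _ => hrows i)).trans ?_
          calc (univ : Finset ι).card * n ^ 2 ≤ n * n ^ 2 := Nat.mul_le_mul_right _ hcard
            _ = n ^ 3 := by ring
        calc ((univ.filter (fun j => ∃ i, a i j ≠ 0)).card : ℝ) ≤ (n : ℝ) ^ 3 := by
              exact_mod_cast h2
          _ ≤ (Real.exp b) ^ 3 := pow_le_pow_left₀ hn0.le hnb 3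
          _ = Real.exp (3 * b) := by
              rw [← Real.exp_nat_mul]
              norm_num
      have h1 : (10 * (b : ℝ)) ^ 2 * (4 / (b : ℝ) ^ 7) / 2 - 10 * b ≤ 1 - 10 * b := by
        have h2 : (10 * (b : ℝ)) ^ 2 * (4 / (b : ℝ) ^ 7) / 2 = 200 / (b : ℝ) ^ 5 := by
          field_simp
          norm_num
        have h3 : (4 : ℝ) ^ 5 ≤ (b : ℝ) ^ 5 := pow_le_pow_left₀ (by norm_num) hb' 5
        have h4 : 200 / (b : ℝ) ^ 5 ≤ 1 := by
          rw [div_le_one (by positivity)]
          linarith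
        linarith
      calc 2 * ((univ.filter (fun j => ∃ i, a i j ≠ 0)).card : ℝ) *
            Real.exp ((10 * (b : ℝ)) ^ 2 * (4 / (b : ℝ) ^ 7) / 2 - 10 * b)
          ≤ 2 * Real.exp (3 * b) * Real.exp (1 - 10 * b) := by
            gcongr
        _ ≤ Real.exp 1 * Real.exp (3 * b) * Real.exp (1 - 10 * b) := by
            gcongr
            linarith [Real.add_one_le_exp (1 : ℝ)]
        _ = Real.exp (2 - 7 * b) := by
            rw [← Real.exp_add, ← Real.exp_add]
            congr 1
            ring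
        _ < 1 := by
            rw [Real.exp_lt_one_iff]
            linarith)
  refine ⟨fun i => if i ∈ T then e i else (if 0 ≤ x i then 1 else -1), ?_, ?_⟩
  · intro i
    by_cases hi : i ∈ T
    · simp only [if_pos hi]
      have h1 := (he1 (cmp (RelG a g) T i) ((mem_cmps _ T _).2 ⟨i, hi, rfl⟩)).1 i
        (self_cmp _ T i hi)
      exact eq_or_eq_neg_of_abs_eq h1
    · simp only [if_neg hi]
      split_ifs
      · exact Or.inl rfl
      · exact Or.inr rfl
  · intro j
    by_cases hj : ∃ i, a i j ≠ 0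
    swap
    · push Not at hj
      have h1 : ∑ i, a i j * (if i ∈ T then e i else (if 0 ≤ x i then 1 else -1)) = 0 :=
        Finset.sum_eq_zero fun i _ => by rw [hj i, zero_mul]
      rw [h1, abs_zero]
      positivity
    · have hfine := he2 j (Finset.mem_filter.2 ⟨Finset.mem_univ _, hj⟩)
      have hcoarse := coarse_row a g (KB b ep + 10) (by positivity) T (fun i => e i - x i)
        (fun Q hQ j => (he1 Q hQ).2 j) j
      rw [← cmps_sum (RelG a g) (RelG_symm a g) T
        (fun i => (if |a i j| < g then a i j else 0) * (e i - x i))] at hfine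
      have hT1 : ∑ i ∈ T, a i j * (e i - x i)
          = ∑ i ∈ T, (if g ≤ |a i j| then a i j * (e i - x i) else 0)
            + ∑ i ∈ T, (if |a i j| < g then a i j else 0) * (e i - x i) := by
        rw [← Finset.sum_add_distrib]
        refine Finset.sum_congr rfl fun i _ => ?_
        by_cases h : g ≤ |a i j|
        · rw [if_pos h, if_neg (not_lt.2 h)]; ring
        · rw [if_neg h, if_pos (not_le.1 h)]; ring
      have hout : |∑ i ∈ univ \ T, a i j * ((if 0 ≤ x i then 1 else -1) - x i)| ≤ 1 := by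
        have h1 : ∀ i ∈ univ \ T, |a i j * ((if 0 ≤ x i then (1 : ℝ) else -1) - x i)|
            ≤ 1 / (n : ℝ) ^ 2 := by
          intro i hi
          have hi' : i ∉ T := (Finset.mem_sdiff.1 hi).2
          have h2 := hT i hi'
          have h3 := hx i
          have h4 : |(if 0 ≤ x i then (1 : ℝ) else -1) - x i| ≤ 1 / (n : ℝ) ^ 2 := by
            split_ifs with h
            · rw [abs_of_nonneg h] at h2 h3
              rw [abs_of_nonneg (by linarith)]
              linarith
            · rw [abs_of_neg (not_le.1 h)] at h2 h3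
              rw [abs_of_nonpos (by linarith)]
              linarith
          rw [abs_mul]
          calc |a i j| * |(if 0 ≤ x i then (1 : ℝ) else -1) - x i|
              ≤ 1 * (1 / (n : ℝ) ^ 2) :=
                mul_le_mul ((hep i j).trans hep1) h4 (abs_nonneg _) (by norm_num)
            _ = _ := one_mul _
        calc |∑ i ∈ univ \ T, a i j * ((if 0 ≤ x i then 1 else -1) - x i)|
            ≤ ∑ i ∈ univ \ T, |a i j * ((if 0 ≤ x i then (1 : ℝ) else -1) - x i)| :=
              Finset.abs_sum_le_sum_abs _ _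
          _ ≤ ∑ _i ∈ univ \ T, 1 / (n : ℝ) ^ 2 := Finset.sum_le_sum h1
          _ = ((univ \ T).card : ℝ) * (1 / (n : ℝ) ^ 2) := by
              rw [Finset.sum_const, nsmul_eq_mul]
          _ ≤ (n : ℝ) * (1 / (n : ℝ) ^ 2) := by
              gcongr
              exact (Finset.card_le_univ _).trans hcard
          _ = 1 / n := by field_simp
          _ ≤ 1 := by
              rw [div_le_one hn0]
              exact_mod_cast hn1
      have hsplit : ∑ i, a i j * (if i ∈ T then e i else (if 0 ≤ x i then 1 else -1))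
          = ∑ i, a i j * x i + ∑ i ∈ univ \ T, a i j * ((if 0 ≤ x i then 1 else -1) - x i)
            + ∑ i ∈ T, a i j * (e i - x i) := by
        have h1 : ∑ i, a i j * (if i ∈ T then e i else (if 0 ≤ x i then 1 else -1))
            - ∑ i, a i j * x i
            = ∑ i, a i j * ((if i ∈ T then e i else (if 0 ≤ x i then 1 else -1)) - x i) := by
          rw [← Finset.sum_sub_distrib]
          refine Finset.sum_congr rfl fun i _ => ?_
          ring
        have h2 := Finset.sum_sdiff (Finset.subset_univ T)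
          (f := fun i => a i j * ((if i ∈ T then e i else (if 0 ≤ x i then 1 else -1)) - x i))
        have h3 : ∑ i ∈ univ \ T,
              a i j * ((if i ∈ T then e i else (if 0 ≤ x i then 1 else -1)) - x i)
            = ∑ i ∈ univ \ T, a i j * ((if 0 ≤ x i then 1 else -1) - x i) := by
          refine Finset.sum_congr rfl fun i hi => ?_
          rw [if_neg (Finset.mem_sdiff.1 hi).2]
        have h4 : ∑ i ∈ T, a i j * ((if i ∈ T then e i else (if 0 ≤ x i then 1 else -1)) - x i)
            = ∑ i ∈ T, a i j * (e i - x i) := by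
          refine Finset.sum_congr rfl fun i hi => ?_
          rw [if_pos hi]
        rw [h3, h4] at h2
        linarith
      rw [hsplit, hT1]
      have h5 := hrow j
      rw [abs_le] at h5 hout hcoarse hfine ⊢
      constructor <;> linarith [h5.1, h5.2, hout.1, hout.2, hcoarse.1, hcoarse.2, hfine.1,
        hfine.2]

end Pool.Agent.LibDB82
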