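import Mathlib

set_option autoImplicit false

/-! M1: rounding near the boundary with a gain for a linear functional; averaging. -/

open Finset

namespace Pool.Agent.LibDB82

variable {ι : Type*}

/-- variables close to the boundary are rounded, one of them possibly to the other side -/
theorem near_round [DecidableEq ι] (Q : Finset ι) (x c : ι → ℝ) (ρ : ℝ) (hρ : 0 ≤ ρ)
    (hx : ∀ i ∈ Q, |x i| ≤ 1) (hnear : ∀ i ∈ Q, 1 - 2 * ρ ≤ |x i|)
    (hρQ : 2 * ρ * Q.card ≤ 1) :
    ∃ e : ι → ℝ, (∀ i ∈ Q, |e i| = 1) ∧ 0 ≤ ∑ i ∈ Q, c i * (e i - x i) ∧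
      ∑ i ∈ Q, |e i - x i| ≤ 3 := by
  set s : ι → ℝ := fun i => if 0 ≤ x i then 1 else -1 with hs
  have hs1 : ∀ i, |s i| = 1 := by
    intro i
    simp only [hs]
    split_ifs <;> simp
  have hsx : ∀ i, s i - x i = s i * (1 - |x i|) := by
    intro i
    simp only [hs]
    split_ifs with h
    · rw [abs_of_nonneg h]; ring
    · rw [abs_of_neg (not_le.1 h)]; ring
  have hsx2 : ∀ i ∈ Q, |s i - x i| ≤ 2 * ρ := by
    intro i hi
    rw [hsx, abs_mul, hs1, one_mul, abs_of_nonneg (by linarith [hx i hi])]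
    linarith [hnear i hi]
  have hsumQ : ∑ i ∈ Q, |s i - x i| ≤ 1 := by
    calc ∑ i ∈ Q, |s i - x i| ≤ ∑ _i ∈ Q, 2 * ρ := Finset.sum_le_sum hsx2
      _ = 2 * ρ * Q.card := by rw [Finset.sum_const, nsmul_eq_mul]; ring
      _ ≤ 1 := hρQ
  by_cases hall : ∀ i ∈ Q, 0 ≤ c i * s i
  · refine ⟨s, fun i _ => hs1 i, ?_, by linarith⟩
    refine Finset.sum_nonneg fun i hi => ?_
    rw [hsx, ← mul_assoc]
    exact mul_nonneg (hall i hi) (by linarith [hx i hi])
  · push Not at hall
    obtain ⟨z, hz, hcz⟩ := hall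
    set B : Finset ι := Q.filter (fun i => c i * s i < 0) with hB
    have hBne : B.Nonempty := ⟨z, Finset.mem_filter.2 ⟨hz, hcz⟩⟩
    obtain ⟨i0, hi0, hmax⟩ := Finset.exists_max_image B (fun i => |c i|) hBne
    have hi0Q : i0 ∈ Q := (Finset.mem_filter.1 hi0).1
    have hi0c : c i0 * s i0 < 0 := (Finset.mem_filter.1 hi0).2
    refine ⟨fun i => if i = i0 then - s i else s i, ?_, ?_, ?_⟩
    · intro i _
      show |if i = i0 then - s i else s i| = 1
      split_ifs
      · rw [abs_neg]; exact hs1 i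
      · exact hs1 i
    · have h1 : ∀ i ∈ Q.erase i0, - (2 * ρ * |c i0|) ≤
          c i * ((if i = i0 then - s i else s i) - x i) := by
        intro i hi
        rw [if_neg (Finset.ne_of_mem_erase hi)]
        have hiQ := Finset.mem_of_mem_erase hi
        by_cases hneg : c i * s i < 0
        · have h2 : |c i| ≤ |c i0| := hmax i (Finset.mem_filter.2 ⟨hiQ, hneg⟩)
          have h3 : |c i * (s i - x i)| ≤ |c i0| * (2 * ρ) := by
            rw [abs_mul]
            exact mul_le_mul h2 (hsx2 i hiQ) (abs_nonneg _) (abs_nonneg _)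
          have h4 := neg_abs_le (c i * (s i - x i))
          linarith
        · rw [hsx, ← mul_assoc]
          have h5 : 0 ≤ c i * s i * (1 - |x i|) :=
            mul_nonneg (not_lt.1 hneg) (by linarith [hx i hiQ])
          have h6 : 0 ≤ 2 * ρ * |c i0| := by positivity
          linarith
      have h2 : |c i0| ≤ c i0 * ((if i0 = i0 then - s i0 else s i0) - x i0) := by
        rw [if_pos rfl]
        have h3 : c i0 * s i0 = - |c i0| := by
          have h4 : |c i0 * s i0| = |c i0| := by rw [abs_mul, hs1, mul_one]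
          rw [abs_of_neg hi0c] at h4
          linarith
        have h5 : x i0 = s i0 * |x i0| := by
          have := hsx i0
          linarith
        have h6 : c i0 * (- s i0 - x i0) = |c i0| * (1 + |x i0|) := by
          calc c i0 * (- s i0 - x i0) = c i0 * (- s i0 - s i0 * |x i0|) := by rw [← h5]
            _ = - (c i0 * s i0) * (1 + |x i0|) := by ring
            _ = |c i0| * (1 + |x i0|) := by rw [h3, neg_neg]
        rw [h6]
        nlinarith [abs_nonneg (c i0), abs_nonneg (x i0)]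
      rw [← Finset.add_sum_erase Q _ hi0Q]
      have h3 := Finset.sum_le_sum h1
      rw [Finset.sum_const, nsmul_eq_mul] at h3
      have h4 : (((Q.erase i0).card : ℕ) : ℝ) ≤ Q.card := by
        exact_mod_cast Finset.card_le_card (Finset.erase_subset _ _)
      have h5 : ((Q.erase i0).card : ℝ) * (2 * ρ * |c i0|) ≤ |c i0| := by
        calc ((Q.erase i0).card : ℝ) * (2 * ρ * |c i0|) ≤ (Q.card : ℝ) * (2 * ρ * |c i0|) := by
              gcongr
          _ = (2 * ρ * Q.card) * |c i0| := by ring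
          _ ≤ 1 * |c i0| := by gcongr
          _ = |c i0| := one_mul _
      linarith
    · have h1 : ∀ i ∈ Q, |(if i = i0 then - s i else s i) - x i|
          ≤ |s i - x i| + (if i = i0 then 2 else 0) := by
        intro i _
        split_ifs
        · calc |- s i - x i| = |(s i - x i) - 2 * s i| := by congr 1; ring
            _ ≤ |s i - x i| + |2 * s i| := abs_sub _ _
            _ = |s i - x i| + 2 := by rw [abs_mul, hs1]; norm_num
        · linarith
      calc ∑ i ∈ Q, |(if i = i0 then - s i else s i) - x i|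
          ≤ ∑ i ∈ Q, (|s i - x i| + (if i = i0 then 2 else 0)) := Finset.sum_le_sum h1
        _ = ∑ i ∈ Q, |s i - x i| + 2 := by
            rw [Finset.sum_add_distrib, Finset.sum_ite_eq' Q i0, if_pos hi0Q]
        _ ≤ 3 := by linarith

/-- averaging with a drift -/
theorem avg {Ω : Type*} [Fintype Ω] [DecidableEq Ω] [Nonempty Ω] (Bad : Finset Ω)
    (X : Ω → ι → ℝ) (J : Finset ι)
    (c x : ι → ℝ) (ρ η : ℝ) (hρ : 0 < ρ) (hρ1 : ρ ≤ 1) (hη : 0 ≤ η) (hηρ : η < ρ / 2)
    (hmean : ∀ i ∈ J, ∑ ω, X ω i = (Fintype.card Ω : ℝ) * (x i + ρ * (if 0 ≤ c i then 1 else -1)))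
    (hX : ∀ ω, ∀ i ∈ J, |X ω i| ≤ 1) (hx : ∀ i ∈ J, |x i| ≤ 1)
    (hbad : (Bad.card : ℝ) ≤ (Fintype.card Ω : ℝ) * (ρ / 4)) :
    ∃ ω, ω ∉ Bad ∧ ∀ e : ι → ℝ, (∀ i ∈ J, |e i - X ω i| ≤ η) →
      0 ≤ ∑ i ∈ J, c i * (e i - x i) := by
  have hN : (0 : ℝ) < Fintype.card Ω := by exact_mod_cast Fintype.card_pos
  set C : ℝ := ∑ i ∈ J, |c i| with hC
  have hC0 : 0 ≤ C := Finset.sum_nonneg fun i _ => abs_nonneg _
  suffices h : ∃ ω, ω ∉ Bad ∧ η * C ≤ ∑ i ∈ J, c i * (X ω i - x i) by
    obtain ⟨ω, h1, h2⟩ := h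
    refine ⟨ω, h1, fun e he => ?_⟩
    have h3 : ∑ i ∈ J, c i * (e i - x i)
        = ∑ i ∈ J, c i * (X ω i - x i) + ∑ i ∈ J, c i * (e i - X ω i) := by
      rw [← Finset.sum_add_distrib]
      refine Finset.sum_congr rfl fun i _ => ?_
      ring
    have h4 : |∑ i ∈ J, c i * (e i - X ω i)| ≤ η * C := by
      calc |∑ i ∈ J, c i * (e i - X ω i)| ≤ ∑ i ∈ J, |c i * (e i - X ω i)| :=
            Finset.abs_sum_le_sum_abs _ _
        _ ≤ ∑ i ∈ J, |c i| * η := by
            refine Finset.sum_le_sum fun i hi => ?_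
            rw [abs_mul]
            exact mul_le_mul_of_nonneg_left (he i hi) (abs_nonneg _)
        _ = η * C := by rw [← Finset.sum_mul, mul_comm]
    have h5 := neg_abs_le (∑ i ∈ J, c i * (e i - X ω i))
    linarith
  have hex : ∃ ω, ω ∉ Bad := by
    by_contra hcon
    push Not at hcon
    have h1 : Bad = univ := Finset.eq_univ_iff_forall.2 hcon
    rw [h1, Finset.card_univ] at hbad
    nlinarith
  rcases hC0.eq_or_lt with h0 | hCpos
  · obtain ⟨ω, hω⟩ := hex
    refine ⟨ω, hω, ?_⟩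
    have h1 : ∀ i ∈ J, |c i| = 0 :=
      (Finset.sum_eq_zero_iff_of_nonneg fun i _ => abs_nonneg _).1 h0.symm
    have h2 : ∑ i ∈ J, c i * (X ω i - x i) = 0 := by
      refine Finset.sum_eq_zero fun i hi => ?_
      rw [abs_eq_zero.1 (h1 i hi), zero_mul]
    rw [h2, ← h0, mul_zero]
  · by_contra hcon
    push Not at hcon
    have hS : ∑ ω, ∑ i ∈ J, c i * (X ω i - x i) = (Fintype.card Ω : ℝ) * (ρ * C) := by
      rw [Finset.sum_comm]
      have h1 : ∀ i ∈ J, ∑ ω, c i * (X ω i - x i) = (Fintype.card Ω : ℝ) * (ρ * |c i|) := by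
        intro i hi
        rw [← Finset.mul_sum, Finset.sum_sub_distrib, hmean i hi, Finset.sum_const,
          Finset.card_univ, nsmul_eq_mul]
        split_ifs with h
        · rw [abs_of_nonneg h]; ring
        · rw [abs_of_neg (not_le.1 h)]; ring
      rw [Finset.sum_congr rfl h1, ← Finset.mul_sum, ← Finset.mul_sum]
    have hle : ∀ ω, ∑ i ∈ J, c i * (X ω i - x i) ≤ η * C + (if ω ∈ Bad then 2 * C else 0) := by
      intro ω
      by_cases hω : ω ∈ Bad
      · rw [if_pos hω]
        have h1 : ∑ i ∈ J, c i * (X ω i - x i) ≤ ∑ i ∈ J, |c i| * 2 := by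
          refine Finset.sum_le_sum fun i hi => ?_
          calc c i * (X ω i - x i) ≤ |c i * (X ω i - x i)| := le_abs_self _
            _ = |c i| * |X ω i - x i| := abs_mul _ _
            _ ≤ |c i| * 2 := by
              refine mul_le_mul_of_nonneg_left ?_ (abs_nonneg _)
              calc |X ω i - x i| ≤ |X ω i| + |x i| := abs_sub _ _
                _ ≤ 1 + 1 := add_le_add (hX ω i hi) (hx i hi)
                _ = 2 := by norm_num
        rw [← Finset.sum_mul] at h1
        have h2 : 0 ≤ η * C := by positivity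
        linarith
      · rw [if_neg hω, add_zero]
        exact (hcon ω hω).le
    have hsum := Finset.sum_le_sum (s := (univ : Finset Ω)) (fun ω _ => hle ω)
    rw [hS, Finset.sum_add_distrib, Finset.sum_const, Finset.card_univ, nsmul_eq_mul,
      ← Finset.sum_filter, Finset.sum_const, nsmul_eq_mul] at hsum
    have hb : ((univ.filter (fun ω => ω ∈ Bad)).card : ℝ) ≤ (Fintype.card Ω : ℝ) * (ρ / 4) := by
      have h1 : univ.filter (fun ω => ω ∈ Bad) = Bad := by
        ext ω
        simp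
      rw [h1]
      exact hbad
    have h1 : ((univ.filter (fun ω => ω ∈ Bad)).card : ℝ) * (2 * C)
        ≤ (Fintype.card Ω : ℝ) * (ρ / 4) * (2 * C) :=
      mul_le_mul_of_nonneg_right hb (by positivity)
    have h2 : (Fintype.card Ω : ℝ) * (ρ * C) ≤ (Fintype.card Ω : ℝ) * (C * (η + ρ / 2)) := by
      linarith
    have h3 : ρ * C ≤ C * (η + ρ / 2) := le_of_mul_le_mul_left h2 hN
    have h4 : ρ ≤ η + ρ / 2 := by
      by_contra h
      push Not at h
      nlinarith
    linarith

end Pool.Agent.LibDB82
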