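import Pool.Agent.LibDB82.C1

set_option autoImplicit false

/-! Task N4: the walk is a martingale. -/

open Finset Pool.Agent.LibLoc73

namespace Pool.Agent.LibDB82

variable {ι κ : Type*} [Fintype ι] [Fintype κ] [DecidableEq ι]

private theorem N4_sgn_not (b : Bool) : sgn (!b) = -sgn b := by
  cases b <;> simp [sgn]

omit [Fintype ι] [Fintype κ] in
private theorem N4_ini_neg (Q : Par ι κ) (s : ℕ) (L : Finset ι) (ξ : ι → Bool) :
    Q.ini s L (fun i => !(ξ i)) = -Q.ini s L ξ := by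
  funext p
  simp only [Par.ini, Pi.neg_apply]
  split_ifs
  · rw [N4_sgn_not, mul_neg]
  · rw [neg_zero]

omit [Fintype κ] [DecidableEq ι] in
private theorem N4_row_neg (Q : Par ι κ) (u : ι → ℝ) (j : κ) : Q.row (-u) j = -Q.row u j := by
  simp only [Par.row, Pi.neg_apply, mul_neg, Finset.sum_neg_distrib]

private theorem N4_it_neg (Q : Par ι κ) (N : Finset ι) (u : ι → ℝ) :
    Q.it N (-u) = -Q.it N u := by
  funext i
  simp only [Par.it, Pi.neg_apply]
  split_ifs
  · have h : ∑ j, Q.a i j * Q.row (-u) j = -∑ j, Q.a i j * Q.row u j := by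
      rw [← Finset.sum_neg_distrib]
      refine Finset.sum_congr rfl (fun j _ => ?_)
      rw [N4_row_neg, mul_neg]
    rw [h]
    ring
  · rfl

private theorem N4_iter_neg (Q : Par ι κ) (N : Finset ι) (r : ℕ) (u : ι → ℝ) :
    (Q.it N)^[r] (-u) = -(Q.it N)^[r] u := by
  induction r generalizing u with
  | zero => rfl
  | succ r ih => rw [Function.iterate_succ_apply, Function.iterate_succ_apply, N4_it_neg, ih]

/-- flipping all bits changes the sign of the virtual increment (`ini` is odd and `it` is linear) -/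
theorem upd_neg (P : LPar ι κ) (s : ℕ) (st : LSt ι κ) (ξ : ι → Bool) (i : ι) :
    P.upd s st (fun i => !(ξ i)) i = -P.upd s st ξ i := by
  have h : P.upd s st (fun i => !(ξ i)) = -P.upd s st ξ := by
    simp only [LPar.upd, Par.upd]
    rw [N4_ini_neg, N4_iter_neg]
  rw [h, Pi.neg_apply]

private theorem N4_big_neg (P : LPar ι κ) (s : ℕ) (st : LSt ι κ) (ξ : ι → Bool) :
    P.big s st (fun i => !(ξ i)) = P.big s st ξ := by
  classical
  simp only [LPar.big]
  refine Finset.filter_congr (fun i _ => ?_)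
  rw [upd_neg, abs_neg]

private theorem N4_newx_add (P : LPar ι κ) (s : ℕ) (st : LSt ι κ) (ξ : ι → Bool) (i : ι) :
    P.newx s st ξ i + P.newx s st (fun i => !(ξ i)) i = 2 * st.x i := by
  classical
  simp only [LPar.newx]
  rw [N4_big_neg, upd_neg]
  split_ifs
  · ring
  · ring

/-- one step: the involution `ξ ↦ !ξ` (`Equiv.sum_comp` or `Fintype.sum_equiv`), `big` is invariant -/
theorem newx_mean (P : LPar ι κ) (s : ℕ) (st : LSt ι κ) (i : ι) :
    ∑ ξ : ι → Bool, P.newx s st ξ i = 2 ^ Fintype.card ι * st.x i := by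
  have h1 : ∑ ξ : ι → Bool, P.newx s st (fun i => !(ξ i)) i =
      ∑ ξ : ι → Bool, P.newx s st ξ i := by
    refine Fintype.sum_equiv (Equiv.piCongrRight (fun _ => Equiv.boolNot)) _ _ (fun ξ => ?_)
    rfl
  have h2 : ∑ ξ : ι → Bool, (P.newx s st ξ i + P.newx s st (fun i => !(ξ i)) i) =
      2 ^ Fintype.card ι * (2 * st.x i) := by
    rw [Finset.sum_congr rfl (fun ξ _ => N4_newx_add P s st ξ i), Finset.sum_const, card_univ,
      nsmul_eq_mul]
    congr 1
    rw [Fintype.card_fun, Fintype.card_bool]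
    push_cast
    rfl
  rw [Finset.sum_add_distrib, h1] at h2
  linarith

private theorem N4_run_congr (P : LPar ι κ) (ω ω' : ℕ → ι → Bool) (n : ℕ)
    (h : ∀ s < n, ω s = ω' s) : P.run ω n = P.run ω' n := by
  induction n with
  | zero => rfl
  | succ n ih =>
    simp only [LPar.run]
    rw [ih fun s hs => h s (by omega), h n (by omega)]

omit [Fintype ι] [DecidableEq ι] in
private theorem N4_ext_snoc_lt (τ : ℕ) (ω : Fin τ → ι → Bool) (ξ : ι → Bool) {s : ℕ}
    (hs : s < τ) : ext (τ + 1) (Fin.snoc ω ξ : Fin (τ + 1) → ι → Bool) s = ext τ ω s := by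
  unfold LibLoc73.ext
  rw [dif_pos (by omega : s < τ + 1), dif_pos hs]
  exact Fin.snoc_castSucc (α := fun _ => ι → Bool) ξ ω ⟨s, hs⟩

omit [Fintype ι] [DecidableEq ι] in
private theorem N4_ext_snoc_last (τ : ℕ) (ω : Fin τ → ι → Bool) (ξ : ι → Bool) :
    ext (τ + 1) (Fin.snoc ω ξ : Fin (τ + 1) → ι → Bool) τ = ξ := by
  unfold LibLoc73.ext
  rw [dif_pos (by omega : τ < τ + 1)]
  exact Fin.snoc_last (α := fun _ => ι → Bool) ξ ω

/-- the walk is a martingale; induction on `τ` with `Fin.snocEquiv` as in the proof of `LibLoc73.tower`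
(file LibLoc73/D1.lean; `ext τ ω` is `extG (fun _ => false) τ ω`) -/
theorem run_mean (P : LPar ι κ) (τ : ℕ) (i : ι) :
    ∑ ω : Fin τ → ι → Bool, (P.run (ext τ ω) τ).x i = (2 ^ Fintype.card ι) ^ τ * P.x0 i := by
  induction τ with
  | zero => simp [LPar.run]
  | succ τ ih =>
    have e1 : ∑ ω : Fin (τ + 1) → ι → Bool, (P.run (ext (τ + 1) ω) (τ + 1)).x i =
        ∑ p : (ι → Bool) × (Fin τ → ι → Bool), P.newx τ (P.run (ext τ p.2) τ) p.1 i := by
      symm
      refine Fintype.sum_equiv (Fin.snocEquiv (fun _ => ι → Bool)) _ _ fun p => ?_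
      obtain ⟨ξ, ω⟩ := p
      have e2 : (Fin.snocEquiv (fun _ => ι → Bool)) (ξ, ω) =
          (Fin.snoc ω ξ : Fin (τ + 1) → ι → Bool) := rfl
      rw [e2]
      have hrun : P.run (ext (τ + 1) (Fin.snoc ω ξ : Fin (τ + 1) → ι → Bool)) τ =
          P.run (ext τ ω) τ :=
        N4_run_congr P _ _ _ fun t ht => N4_ext_snoc_lt τ ω ξ ht
      have e3 : (P.run (ext (τ + 1) (Fin.snoc ω ξ : Fin (τ + 1) → ι → Bool)) (τ + 1)).x i =
          P.newx τ (P.run (ext (τ + 1) (Fin.snoc ω ξ : Fin (τ + 1) → ι → Bool)) τ)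
            (ext (τ + 1) (Fin.snoc ω ξ : Fin (τ + 1) → ι → Bool) τ) i := rfl
      rw [e3, hrun, N4_ext_snoc_last]
    rw [e1, Fintype.sum_prod_type_right]
    simp only [newx_mean]
    rw [← Finset.mul_sum, ih, pow_succ]
    ring

end Pool.Agent.LibDB82
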