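import Pool.Agent.LibDB82.S0
import Pool.Agent.LibDB82.C7

set_option autoImplicit false

/-! W1c: numbers. Model: `LibLev64/K3.lean` (`num_fin2`). -/

open Finset Pool.Agent.LibLoc73
open Pool.Agent.LibLev64 (M X M_pos M_succ X_zero X_succ X_mono X_pos X_eq)

namespace Pool.Agent.LibDB82

variable {ι κ : Type*} [Fintype ι] [Fintype κ] [DecidableEq ι]

private theorem W1c_geom (N : ℕ) : ∑ l ∈ range N, (1 / 2 : ℝ) ^ l ≤ 2 := by
  rw [geom_sum_eq (by norm_num)]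
  have : (0 : ℝ) ≤ (1 / 2) ^ N := by positivity
  rw [div_le_iff_of_neg (by norm_num)]
  linarith

private theorem W1c_geom34 (N : ℕ) : ∑ l ∈ range N, (3 / 4 : ℝ) ^ l ≤ 4 := by
  rw [geom_sum_eq (by norm_num)]
  have : (0 : ℝ) ≤ (3 / 4) ^ N := by positivity
  rw [div_le_iff_of_neg (by norm_num)]
  linarith

private theorem W1c_min (ep : ℝ) (hep0 : 0 < ep) (hep1 : ep ≤ 1) (N : ℕ) :
    ∑ l ∈ range N, min ep ((1 / 2 : ℝ) ^ l) ≤ 9 / 2 * (ep * Real.log (2 / ep)) := by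
  classical
  have hl2 := Real.log_two_gt_d9
  have hinv : 1 ≤ 1 / ep := by
    rw [le_div_iff₀ hep0]
    linarith
  have hx : 0 ≤ Real.log (1 / ep) := Real.log_nonneg hinv
  have hlog : Real.log (2 / ep) = Real.log 2 + Real.log (1 / ep) := by
    rw [← Real.log_mul (by norm_num) (by positivity)]
    congr 1
    ring
  have hex : ∃ H : ℕ, 1 / ep ≤ 2 ^ H := by
    obtain ⟨n, hn⟩ := pow_unbounded_of_one_lt (1 / ep) (by norm_num : (1 : ℝ) < 2)
    exact ⟨n, hn.le⟩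
  obtain ⟨H, h1, h2⟩ : ∃ H : ℕ, 1 / ep ≤ 2 ^ H ∧ (H : ℝ) * Real.log 2 ≤ Real.log (2 / ep) := by
    refine ⟨Nat.find hex, Nat.find_spec hex, ?_⟩
    rcases Nat.eq_zero_or_pos (Nat.find hex) with h0 | h0
    · rw [h0, hlog, Nat.cast_zero]
      linarith
    · have h1 := Nat.find_min hex (Nat.sub_one_lt h0.ne')
      push Not at h1
      have h2 : ((Nat.find hex - 1 : ℕ) : ℝ) * Real.log 2 < Real.log (1 / ep) := by
        rw [← Real.log_pow]
        exact Real.log_lt_log (by positivity) h1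
      have h3 : ((Nat.find hex - 1 : ℕ) : ℝ) = (Nat.find hex : ℝ) - 1 := by
        rw [Nat.cast_sub h0]
        norm_num
      rw [h3] at h2
      rw [hlog]
      nlinarith
  have h3 : (1 / 2 : ℝ) ^ H ≤ ep := by
    rw [one_div, inv_pow, ← one_div, div_le_iff₀ (by positivity)]
    rw [div_le_iff₀ hep0] at h1
    linarith
  have hnn : ∀ l, 0 ≤ min ep ((1 / 2 : ℝ) ^ l) := fun l => le_min hep0.le (by positivity)
  have h4 : ∑ l ∈ range N, min ep ((1 / 2 : ℝ) ^ l) ≤ ((H : ℝ) + 2) * ep := by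
    calc ∑ l ∈ range N, min ep ((1 / 2 : ℝ) ^ l)
        ≤ ∑ l ∈ range (H + N), min ep ((1 / 2 : ℝ) ^ l) :=
          sum_le_sum_of_subset_of_nonneg (range_subset_range.2 (by omega)) (fun l _ _ => hnn l)
      _ = ∑ l ∈ range H, min ep ((1 / 2 : ℝ) ^ l) +
          ∑ l ∈ range N, min ep ((1 / 2 : ℝ) ^ (H + l)) := sum_range_add _ _ _
      _ ≤ ∑ l ∈ range H, ep + ∑ l ∈ range N, ep * (1 / 2 : ℝ) ^ l := by
          apply add_le_add
          · exact sum_le_sum fun l _ => min_le_left _ _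
          · refine sum_le_sum fun l _ => (min_le_right _ _).trans ?_
            rw [pow_add]
            exact mul_le_mul_of_nonneg_right h3 (by positivity)
      _ = H * ep + ep * ∑ l ∈ range N, (1 / 2 : ℝ) ^ l := by
          rw [sum_const, card_range, nsmul_eq_mul, mul_sum]
      _ ≤ H * ep + ep * 2 := by
          have := mul_le_mul_of_nonneg_left (W1c_geom N) hep0.le
          linarith
      _ = ((H : ℝ) + 2) * ep := by ring
  have hL : Real.log 2 ≤ Real.log (2 / ep) := by rw [hlog]; linarith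
  have h5 : (H : ℝ) + 2 ≤ 9 / 2 * Real.log (2 / ep) := by
    have hH0 : (0 : ℝ) ≤ H := Nat.cast_nonneg H
    have h6 : (H : ℝ) * 0.69 ≤ Real.log (2 / ep) := by
      refine le_trans ?_ h2
      apply mul_le_mul_of_nonneg_left _ hH0
      linarith
    linarith
  calc ∑ l ∈ range N, min ep ((1 / 2 : ℝ) ^ l) ≤ ((H : ℝ) + 2) * ep := h4
    _ ≤ 9 / 2 * Real.log (2 / ep) * ep := mul_le_mul_of_nonneg_right h5 hep0.le
    _ = 9 / 2 * (ep * Real.log (2 / ep)) := by ring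

/-- numbers: `∑_{l ≤ b+60} (thr2 + 4 min ep (1/M l) + 2/n) + 2/n ≤ KB` -/
theorem Bd_le (a : ι → κ → ℝ) (c : ι → ℕ) (n b : ℕ) (hb : 4 ≤ b) (hn : b ^ 50 ≤ n) (ep : ℝ)
    (hep0 : 0 < ep) (hep1 : ep ≤ 1) (x0 : ι → ℝ) (L0 : Finset ι) :
    Bd (mkQ a c n b ep x0 L0) n ≤ KB b ep := by
  have hbr : (4 : ℝ) ≤ b := by exact_mod_cast hb
  have hl2 := Real.log_two_gt_d9
  have hlogb : 1 ≤ Real.log b := by
    have h1 : Real.log 4 ≤ Real.log b := Real.log_le_log (by norm_num) hbr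
    have h2 : Real.log 4 = 2 * Real.log 2 := by
      rw [show (4 : ℝ) = 2 ^ 2 by norm_num, Real.log_pow]
      norm_num
    linarith
  set S : ℝ := √(Real.log b) with hS
  have hS1 : 1 ≤ S := Real.one_le_sqrt.2 hlogb
  set L : ℝ := Real.log (2 / ep) with hL
  have hL0 : 0 ≤ L := by
    apply Real.log_nonneg
    rw [le_div_iff₀ hep0]
    linarith
  have hn1 : (b : ℝ) + 62 ≤ n := by
    have h1 : b + 62 ≤ b ^ 50 := by
      have h2 : b ^ 4 ≤ b ^ 50 := Nat.pow_le_pow_right (by omega) (by norm_num)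
      have h3 : 4 ^ 3 ≤ b ^ 3 := Nat.pow_le_pow_left hb 3
      have h4 : b ^ 4 = b * b ^ 3 := by ring
      have h5 : b * 4 ^ 3 ≤ b * b ^ 3 := Nat.mul_le_mul_left _ h3
      omega
    exact_mod_cast h1.trans hn
  have hn0 : (0 : ℝ) < n := by linarith
  have e0 : 2 * (n : ℝ) * (1 / (n : ℝ) ^ 2) = 2 / n := by
    field_simp
  have eM : ∀ l, 1 / M (l + 1) = (1 / 2 : ℝ) ^ l := by
    intro l
    unfold M
    rw [pow_succ, one_div, one_div, inv_pow]
    congr 1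
    ring
  have eM2 : ∀ l, min ep (1 / M l) ≤ 2 * min ep ((1 / 2 : ℝ) ^ l) := by
    intro l
    have h1 : 1 / M l = 2 * (1 / 2 : ℝ) ^ l := by
      rw [← eM l, M_succ]
      have := M_pos l
      field_simp
    rw [h1]
    rcases le_total ep ((1 / 2 : ℝ) ^ l) with h | h
    · rw [min_eq_left h]
      exact (min_le_left _ _).trans (by linarith)
    · rw [min_eq_right h]
      exact min_le_right _ _
  have hbd : Bd (mkQ a c n b ep x0 L0) n
      = ∑ l ∈ range (b + 60 + 1), (thr2 b ep l + 4 * min ep (1 / M l) + 2 * n * (1 / (n : ℝ) ^ 2))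
        + 2 * n * (1 / (n : ℝ) ^ 2) := rfl
  rw [hbd, e0]
  have h1 : ∑ l ∈ range (b + 60 + 1), (thr2 b ep l + 4 * min ep (1 / M l) + 2 / (n : ℝ))
      ≤ ∑ l ∈ range (b + 60 + 1), (162 * (3 / 4 : ℝ) ^ l +
        (8900 * S + 8) * min ep ((1 / 2 : ℝ) ^ l) + (1 / ((b : ℝ) + 61) + 2 / n)) := by
    apply sum_le_sum
    intro l _
    unfold thr2
    rw [eM l, ← hS]
    have := eM2 l
    nlinarith
  have h2 : ∑ l ∈ range (b + 60 + 1), (162 * (3 / 4 : ℝ) ^ l +
        (8900 * S + 8) * min ep ((1 / 2 : ℝ) ^ l) + (1 / ((b : ℝ) + 61) + 2 / n))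
      = 162 * ∑ l ∈ range (b + 60 + 1), (3 / 4 : ℝ) ^ l +
        (8900 * S + 8) * ∑ l ∈ range (b + 60 + 1), min ep ((1 / 2 : ℝ) ^ l) +
        ((b : ℝ) + 61) * (1 / ((b : ℝ) + 61) + 2 / n) := by
    rw [sum_add_distrib, sum_add_distrib, mul_sum, mul_sum, sum_const, card_range, nsmul_eq_mul]
    push_cast
    ring
  have h3 := W1c_geom34 (b + 60 + 1)
  have h4 := W1c_min ep hep0 hep1 (b + 60 + 1)
  rw [← hL] at h4
  have h5 : ((b : ℝ) + 61) * (1 / ((b : ℝ) + 61) + 2 / n) + 2 / n ≤ 3 := by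
    have h6 : ((b : ℝ) + 61) * (1 / ((b : ℝ) + 61)) = 1 := by
      field_simp
    have h7 : ((b : ℝ) + 62) * (2 / n) ≤ 2 := by
      rw [mul_div_assoc', div_le_iff₀ hn0]
      linarith
    nlinarith
  have h6 : (8900 * S + 8) * ∑ l ∈ range (b + 60 + 1), min ep ((1 / 2 : ℝ) ^ l)
      ≤ (8900 * S + 8) * (9 / 2 * (ep * L)) :=
    mul_le_mul_of_nonneg_left h4 (by positivity)
  have hepL : 0 ≤ ep * L := by positivity
  have h7 : ep * L ≤ S * (ep * L) := by nlinarith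
  have h8 : 0 ≤ S * (ep * L) := by positivity
  have hKB : KB b ep = 700 + 60000 * S * (ep * L) := rfl
  rw [hKB]
  rw [h2] at h1
  nlinarith

end Pool.Agent.LibDB82
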