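import Pool.Agent.LibDB82.S0
import Pool.Agent.LibDB82.C7

set_option autoImplicit false

/-! W1e: probabilities of confinement, big steps, top rows. Cite B2 (`joint_tail`), `LibLoc73.conf_prod` (E2),
LibLev64/K1 (`num_r2`, `num_a2`, `num_b2`). Model: `LibLev64.cause_mkP` (LibLev64/Main.lean). -/

open Finset Pool.Agent.LibLoc73
open Pool.Agent.LibLev64 (M X M_pos M_succ X_zero X_succ X_mono X_pos X_eq)

namespace Pool.Agent.LibDB82

variable {ι κ : Type*} [Fintype ι] [Fintype κ] [DecidableEq ι]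

private theorem W1e_n2 {n b : ℕ} (hb : 4 ≤ b) (hn : b ^ 50 ≤ n) : 2 ≤ n := by
  have h1 : b ≤ b ^ 50 := Nat.le_self_pow (by norm_num) b
  omega

/-- the accumulated error of the gradient descent -/
theorem mkQ_hr (a : ι → κ → ℝ) (c : ι → ℕ) (n b : ℕ) (hb : 4 ≤ b) (hn : b ^ 50 ≤ n)
    (ep : ℝ) (x0 : ι → ℝ) (L0 : Finset ι) :
    20 * (mkQ a c n b ep x0 L0).δ ^ 2 * (tau n) *
      (1 - 1 / (mkQ a c n b ep x0 L0).Lc) ^ (mkQ a c n b ep x0 L0).r ≤ 1 := by
  have hτr : ((tau n : ℕ) : ℝ) = 180000000 * (n : ℝ) ^ 10 := by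
    unfold tau
    push_cast
    ring
  rw [hτr]
  exact Pool.Agent.LibLev64.num_r2 n (W1e_n2 hb hn)

private theorem W1e_sq (n : ℕ) (hn : 2 ≤ n) (B : ℝ) (hB : 0 ≤ B)
    (h : (n : ℝ) ^ 101 * √B ≤ 1) : B ≤ 1 / (n : ℝ) ^ 100 := by
  have hn1 : (1 : ℝ) ≤ n := by exact_mod_cast (by omega : 1 ≤ n)
  have hn0 : (0 : ℝ) < n := by linarith
  have h1 : ((n : ℝ) ^ 101 * √B) ^ 2 ≤ 1 := pow_le_one₀ (by positivity) h
  rw [mul_pow, Real.sq_sqrt hB] at h1
  rw [le_div_iff₀ (by positivity)]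
  calc B * (n : ℝ) ^ 100 ≤ B * ((n : ℝ) ^ 101) ^ 2 := by
        apply mul_le_mul_of_nonneg_left _ hB
        rw [← pow_mul]
        exact pow_le_pow_right₀ hn1 (by norm_num)
    _ = ((n : ℝ) ^ 101) ^ 2 * B := by ring
    _ ≤ 1 := h1

private theorem W1e_nat (b : ℕ) : 810 * (b + 61) ^ 2 * (2000 * (b + 1)) ≤ 4 ^ (b + 59) := by
  induction b with
  | zero => norm_num
  | succ b ih =>
    have e : 4 ^ (b + 1 + 59) = 4 * 4 ^ (b + 59) := by
      rw [show b + 1 + 59 = b + 59 + 1 by ring, pow_succ]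
      ring
    rw [e]
    have h1 : (b + 1 + 61) ^ 2 ≤ 2 * (b + 61) ^ 2 := by nlinarith
    have h2 : 2000 * (b + 1 + 1) ≤ 2 * (2000 * (b + 1)) := by omega
    calc 810 * (b + 1 + 61) ^ 2 * (2000 * (b + 1 + 1))
        ≤ 810 * (2 * (b + 61) ^ 2) * (2 * (2000 * (b + 1))) := by gcongr
      _ = 4 * (810 * (b + 61) ^ 2 * (2000 * (b + 1))) := by ring
      _ ≤ 4 * 4 ^ (b + 59) := by gcongr

private theorem W1e_top (b : ℕ) (ep : ℝ) (hep0 : 0 < ep) :
    2 * Real.exp (-(M (b + 60) ^ 2 * thr2 b ep (b + 60) ^ 2 / 810)) ≤ Real.exp (-(2000 * b)) := by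
  have h1 : 1 / ((b : ℝ) + 61) ≤ thr2 b ep (b + 60) := by
    unfold thr2
    have h2 : (0 : ℝ) ≤ 162 * (3 / 4) ^ (b + 60) := by positivity
    have h3 : 0 ≤ min ep (1 / M (b + 60 + 1)) := by
      have := M_pos (b + 60 + 1)
      positivity
    have h4 : 0 ≤ 8900 * √(Real.log b) * min ep (1 / M (b + 60 + 1)) := by positivity
    linarith
  have h2 : (1 / ((b : ℝ) + 61)) ^ 2 ≤ thr2 b ep (b + 60) ^ 2 :=
    pow_le_pow_left₀ (by positivity) h1 2
  have h3 : M (b + 60) ^ 2 = (4 : ℝ) ^ (b + 59) := by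
    have e : M (b + 60) = (2 : ℝ) ^ (b + 59) := by
      unfold M
      rw [show b + 60 = (b + 59) + 1 by ring, pow_succ, mul_div_assoc, div_self (by norm_num),
        mul_one]
    rw [e, ← pow_mul, mul_comm (b + 59) 2, pow_mul]
    norm_num
  have h4 : (2000 : ℝ) * b + 1 ≤ M (b + 60) ^ 2 * thr2 b ep (b + 60) ^ 2 / 810 := by
    rw [h3, le_div_iff₀ (by norm_num)]
    have h5 : ((810 * (b + 61) ^ 2 * (2000 * (b + 1)) : ℕ) : ℝ) ≤ ((4 ^ (b + 59) : ℕ) : ℝ) :=
      Nat.cast_le.2 (W1e_nat b)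
    push_cast at h5
    calc (2000 * (b : ℝ) + 1) * 810
        ≤ (810 * ((b : ℝ) + 61) ^ 2 * (2000 * ((b : ℝ) + 1))) * (1 / ((b : ℝ) + 61)) ^ 2 := by
          have h6 : ((b : ℝ) + 61) ^ 2 * (1 / ((b : ℝ) + 61)) ^ 2 = 1 := by
            rw [← mul_pow, mul_one_div_cancel (by positivity), one_pow]
          calc (2000 * (b : ℝ) + 1) * 810 ≤ 810 * (2000 * ((b : ℝ) + 1)) := by linarith
            _ = 810 * (2000 * ((b : ℝ) + 1)) * (((b : ℝ) + 61) ^ 2 * (1 / ((b : ℝ) + 61)) ^ 2) := by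
                rw [h6, mul_one]
            _ = _ := by ring
      _ ≤ (4 : ℝ) ^ (b + 59) * thr2 b ep (b + 60) ^ 2 := by gcongr
  have h5 : Real.exp (-(M (b + 60) ^ 2 * thr2 b ep (b + 60) ^ 2 / 810)) ≤
      Real.exp (-(2000 * b)) * Real.exp (-1) := by
    rw [← Real.exp_add]
    apply Real.exp_le_exp.2
    linarith
  have h6 : 2 * Real.exp (-1) ≤ 1 := by
    rw [Real.exp_neg, ← div_eq_mul_inv, div_le_one (Real.exp_pos _)]
    have := Real.exp_one_gt_d9
    linarith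
  calc 2 * Real.exp (-(M (b + 60) ^ 2 * thr2 b ep (b + 60) ^ 2 / 810))
      ≤ 2 * (Real.exp (-(2000 * b)) * Real.exp (-1)) := by gcongr
    _ = Real.exp (-(2000 * b)) * (2 * Real.exp (-1)) := by ring
    _ ≤ Real.exp (-(2000 * b)) * 1 := by gcongr
    _ = Real.exp (-(2000 * b)) := mul_one _

open Classical in
/-- probabilities of the single bad events, part 1; `N = (2^|ι|)^τ` -/
theorem single_probs1 (a : ι → κ → ℝ) (c : ι → ℕ) (n b : ℕ) (hb : 4 ≤ b) (hn : b ^ 50 ≤ n)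
    (ep : ℝ) (hep0 : 0 < ep) (x0 : ι → ℝ) (L0 : Finset ι)
    (hok : (mkQ a c n b ep x0 L0).Ok n) (hcn : ∀ i, c i < n) :
    (∀ z, (((univ : Finset (Fin (tau n) → ι → Bool)).filter (fun ω =>
        (mkQ a c n b ep x0 L0).toPar.Conf (ext (tau n) ω) z)).card : ℝ)
      ≤ (2 ^ Fintype.card ι) ^ (tau n) * (1 / (n : ℝ) ^ 100)) ∧
    (∀ z, (((univ : Finset (Fin (tau n) → ι → Bool)).filter (fun ω =>
        (mkQ a c n b ep x0 L0).IsBig (ext (tau n) ω) (tau n) z)).card : ℝ)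
      ≤ (2 ^ Fintype.card ι) ^ (tau n) * (1 / (n : ℝ) ^ 100)) ∧
    (∀ j, (((univ : Finset (Fin (tau n) → ι → Bool)).filter (fun ω =>
        (mkQ a c n b ep x0 L0).Up (ext (tau n) ω) (tau n) j (b + 60))).card : ℝ)
      ≤ (2 ^ Fintype.card ι) ^ (tau n) * Real.exp (-(2000 * b))) := by
  have hn2 := W1e_n2 hb hn
  have hr := mkQ_hr a c n b hb hn ep x0 L0
  have hτr : ((tau n : ℕ) : ℝ) = 180000000 * (n : ℝ) ^ 10 := by
    unfold tau
    push_cast
    ring
  set P := mkQ a c n b ep x0 L0 with hP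
  have hδ1 : P.δ ≤ 1 := hok.hB.hδη.trans hok.hB.hη.le
  refine ⟨?_, ?_, ?_⟩
  · intro z
    have h1 := conf_prod P.toPar hok.hB.hδ hδ1 (tau n) {z} (by
      intro z' _
      show c z' * (180000000 * n ^ 7) + 180000000 * n ^ 7 ≤ 180000000 * n ^ 10
      calc c z' * (180000000 * n ^ 7) + 180000000 * n ^ 7
          = (c z' + 1) * (180000000 * n ^ 7) := by ring
        _ ≤ n ^ 3 * (180000000 * n ^ 7) := by
            apply Nat.mul_le_mul_right
            have h2 := hcn z'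
            have h3 : n ≤ n ^ 3 := Nat.le_self_pow (by norm_num) n
            omega
        _ = 180000000 * n ^ 10 := by ring)
    rw [card_singleton, pow_one] at h1
    have h2 : 2 * Real.exp (-(P.δ ^ 2 * P.T / 9)) ≤ 1 / (n : ℝ) ^ 100 := by
      apply W1e_sq n hn2 _ (by positivity)
      have h3 := Pool.Agent.LibLev64.num_a2 n hn2
      have e : P.δ ^ 2 * P.T / 9 = (1 / (200 * (n : ℝ) ^ 3)) ^ 2 * (180000000 * (n : ℝ) ^ 7) / 9 := by
        show (1 / (200 * (n : ℝ) ^ 3)) ^ 2 * ((180000000 * n ^ 7 : ℕ) : ℝ) / 9 = _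
        push_cast
        ring
      rw [e]
      exact h3
    refine le_trans (le_of_eq ?_) (h1.trans ?_)
    · congr 2
      ext ω
      simp only [Finset.mem_filter, Finset.mem_univ, true_and, Finset.mem_singleton, forall_eq]
    · exact mul_le_mul_of_nonneg_left h2 (by positivity)
  · intro z
    have h1 := joint_tail P n hok (tau n) hr ∅ {z}
    rw [card_singleton, pow_one, prod_empty, one_mul] at h1
    have h2 : 2 * (tau n : ℝ) * Real.exp (-(P.η ^ 2 / (80 * P.δ ^ 2))) ≤ 1 / (n : ℝ) ^ 100 := by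
      apply W1e_sq n hn2 _ (by positivity)
      have h3 := Pool.Agent.LibLev64.num_b2 n hn2
      rw [hτr]
      exact h3
    refine le_trans (le_of_eq ?_) (h1.trans ?_)
    · congr 2
      ext ω
      simp only [Finset.mem_filter, Finset.mem_univ, true_and, Finset.mem_singleton, forall_eq,
        Finset.notMem_empty, false_imp_iff, implies_true]
    · exact mul_le_mul_of_nonneg_left h2 (by positivity)
  · intro j
    have h1 := joint_tail P n hok (tau n) hr {(j, Fin.last P.H)} ∅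
    rw [card_empty, pow_zero, mul_one, prod_singleton] at h1
    have h2 : P.qq ((j, Fin.last P.H) : κ × Fin (P.H + 1)).2 ≤ Real.exp (-(2000 * b)) :=
      W1e_top b ep hep0
    refine le_trans (le_of_eq ?_) (h1.trans ?_)
    · congr 2
      ext ω
      simp only [Finset.mem_filter, Finset.mem_univ, true_and, Finset.mem_singleton, forall_eq,
        Finset.notMem_empty, false_imp_iff, implies_true, and_true]
      rfl
    · exact mul_le_mul_of_nonneg_left h2 (by positivity)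

end Pool.Agent.LibDB82
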