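import Pool.Agent.LibDB82.W1e
import Pool.Agent.LibDB82.C7
import Pool.Agent.LibLev64.K3

set_option autoImplicit false

/-! W1f: probabilities of the budget events. Cite N7 (`cbud_joint` with `lam = 12000 log b`, `fbud_prob` with `lam = 24 b`,
`bud_split` with `es = 0` for `Bud`), LibLev64/K1 (`num_r2`). Model for the sum over levels: LibLev64/K3 (`num_sum2`). -/

open Finset Pool.Agent.LibLoc73
open Pool.Agent.LibLev64 (M X M_pos M_succ X_zero X_succ X_mono X_pos X_eq)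

namespace Pool.Agent.LibDB82

variable {ι κ : Type*} [Fintype ι] [Fintype κ] [DecidableEq ι]

private theorem W1f_min {ep : ℝ} (hep0 : 0 < ep) (l : ℕ) : 0 ≤ min ep (1 / M (l + 1)) := by
  have := M_pos (l + 1)
  positivity

private theorem W1f_thr_b (b : ℕ) (ep : ℝ) (hep0 : 0 < ep) (l : ℕ) :
    1 / ((b : ℝ) + 61) ≤ thr2 b ep l := by
  unfold thr2
  have h2 : (0 : ℝ) ≤ 162 * (3 / 4) ^ l := by positivity
  have h3 := W1f_min hep0 l
  have h4 : 0 ≤ 8900 * √(Real.log b) * min ep (1 / M (l + 1)) := by positivity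
  linarith

private theorem W1f_thr_pe (b : ℕ) (ep : ℝ) (hep0 : 0 < ep) (l : ℕ) :
    8900 * √(Real.log b) * min ep (1 / M (l + 1)) ≤ thr2 b ep l := by
  unfold thr2
  have h2 : (0 : ℝ) ≤ 162 * (3 / 4) ^ l := by positivity
  have h3 : (0 : ℝ) ≤ 1 / ((b : ℝ) + 61) := by positivity
  linarith

private theorem W1f_thr_geo (b : ℕ) (ep : ℝ) (hep0 : 0 < ep) (l : ℕ) :
    162 * (3 / 4 : ℝ) ^ l ≤ thr2 b ep l := by
  unfold thr2
  have h3 : (0 : ℝ) ≤ 1 / ((b : ℝ) + 61) := by positivity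
  have h5 := W1f_min hep0 l
  have h4 : 0 ≤ 8900 * √(Real.log b) * min ep (1 / M (l + 1)) := by positivity
  linarith

private theorem W1f_sum (b : ℕ) (ep : ℝ) (hep0 : 0 < ep) (H : ℕ) :
    ∑ l ∈ range H, 8 * M l ^ 2 * Real.exp (-(M l ^ 2 * thr2 b ep l ^ 2 / 1620)) ≤ 1 / 4 := by
  refine le_trans (Finset.sum_le_sum fun l _ => ?_) (Pool.Agent.LibLev64.num_sum2 1 0 le_rfl H)
  apply mul_le_mul_of_nonneg_left _ (by positivity)
  apply Real.exp_le_exp.2
  have h1 : Pool.Agent.LibLev64.thr 1 0 l = 162 * (3 / 4 : ℝ) ^ l := by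
    unfold Pool.Agent.LibLev64.thr
    simp
  rw [h1]
  have h2 : (162 * (3 / 4 : ℝ) ^ l) ^ 2 ≤ thr2 b ep l ^ 2 :=
    pow_le_pow_left₀ (by positivity) (W1f_thr_geo b ep hep0 l) 2
  have h3 : M l ^ 2 * (162 * (3 / 4 : ℝ) ^ l) ^ 2 / 1620 ≤ M l ^ 2 * thr2 b ep l ^ 2 / 1620 := by
    gcongr
  linarith

private theorem W1f_num (b : ℕ) (hb : 4 ≤ b) :
    6480 * (24 * (b : ℝ)) * (1 / (b : ℝ) ^ 20) ^ 2 ≤ (1 / ((b : ℝ) + 61)) ^ 2 := by
  have hb4 : (4 : ℝ) ≤ b := by exact_mod_cast hb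
  have hb0 : (0 : ℝ) < b := by linarith
  have h1 : ((b : ℝ) + 61) ^ 2 ≤ (17 * (b : ℝ)) ^ 2 := by
    apply pow_le_pow_left₀ (by positivity)
    linarith
  have h2 : (44945280 : ℝ) ≤ (b : ℝ) ^ 37 := by
    calc (44945280 : ℝ) ≤ 4 ^ 37 := by norm_num
      _ ≤ (b : ℝ) ^ 37 := pow_le_pow_left₀ (by norm_num) hb4 37
  rw [div_pow, div_pow, one_pow, mul_one_div, div_le_div_iff₀ (by positivity) (by positivity)]
  calc 6480 * (24 * (b : ℝ)) * ((b : ℝ) + 61) ^ 2 ≤ 6480 * (24 * (b : ℝ)) * (17 * (b : ℝ)) ^ 2 := by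
        gcongr
    _ = 44945280 * (b : ℝ) ^ 3 := by ring
    _ ≤ (b : ℝ) ^ 37 * (b : ℝ) ^ 3 := by gcongr
    _ = 1 * ((b : ℝ) ^ 20) ^ 2 := by ring

private theorem W1f_exp (b : ℕ) (hb : 4 ≤ b) :
    Real.exp (-(12000 * Real.log b / 8)) = 1 / (b : ℝ) ^ 1500 := by
  have hb4 : (4 : ℝ) ≤ b := by exact_mod_cast hb
  have hb0 : (0 : ℝ) < b := by linarith
  have h1 : 12000 * Real.log b / 8 = ((1500 : ℕ) : ℝ) * Real.log b := by
    push_cast
    ring
  rw [h1, Real.exp_neg, Real.exp_nat_mul, Real.exp_log hb0, inv_eq_one_div]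

private theorem W1f_pe (b : ℕ) (hb : 4 ≤ b) (ep : ℝ) (hep0 : 0 < ep) (l : ℕ) :
    6480 * (12000 * Real.log b) * (min ep (1 / M (l + 1))) ^ 2 ≤ thr2 b ep l ^ 2 := by
  have hb4 : (4 : ℝ) ≤ b := by exact_mod_cast hb
  have hlog : 0 ≤ Real.log b := Real.log_nonneg (by linarith)
  have h3 := W1f_min hep0 l
  have h1 := pow_le_pow_left₀ (by positivity) (W1f_thr_pe b ep hep0 l) 2
  refine le_trans ?_ h1
  rw [mul_pow, mul_pow, Real.sq_sqrt hlog]
  have h4 : 0 ≤ Real.log b * (min ep (1 / M (l + 1))) ^ 2 := by positivity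
  nlinarith

open Classical in
/-- probabilities of the budget events; `N = (2^|ι|)^τ` -/
theorem single_probs2 (a : ι → κ → ℝ) (c : ι → ℕ) (n b : ℕ) (hb : 4 ≤ b) (hn : b ^ 50 ≤ n)
    (ep : ℝ) (hep0 : 0 < ep) (x0 : ι → ℝ) (L0 : Finset ι)
    (hok : (mkQ a c n b ep x0 L0).Ok n) :
    (∀ z, (((univ : Finset (Fin (tau n) → ι → Bool)).filter (fun ω =>
        FBud (mkQ a c n b ep x0 L0) (1 / (b : ℝ) ^ 20) (ext (tau n) ω) (tau n) z)).card : ℝ)
      ≤ (2 ^ Fintype.card ι) ^ (tau n) * Real.exp (-(3 * b))) ∧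
    (∀ z, (((univ : Finset (Fin (tau n) → ι → Bool)).filter (fun ω =>
        (mkQ a c n b ep x0 L0).Bud (ext (tau n) ω) (tau n) z)).card : ℝ)
      ≤ (2 ^ Fintype.card ι) ^ (tau n) * (1 / (b : ℝ) ^ 1500)) ∧
    (∀ I : Finset ι, (∀ i ∈ I, ∀ i' ∈ I, i ≠ i' → ∀ j,
        ¬ (1 / (b : ℝ) ^ 20 ≤ |a i j| ∧ 1 / (b : ℝ) ^ 20 ≤ |a i' j|)) →
      (((univ : Finset (Fin (tau n) → ι → Bool)).filter (fun ω => ∀ i ∈ I,
        CBud (mkQ a c n b ep x0 L0) (1 / (b : ℝ) ^ 20) (ext (tau n) ω) (tau n) i)).card : ℝ)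
      ≤ (2 ^ Fintype.card ι) ^ (tau n) * (1 / (b : ℝ) ^ 1500) ^ I.card) := by
  have hr := mkQ_hr a c n b hb hn ep x0 L0
  have hb4 : (4 : ℝ) ≤ b := by exact_mod_cast hb
  have hlog : 0 ≤ Real.log b := Real.log_nonneg (by linarith)
  have hE1 : ∀ l, 6480 * (24 * (b : ℝ)) * (1 / (b : ℝ) ^ 20) ^ 2 ≤
      (mkQ a c n b ep x0 L0).E l ^ 2 := by
    intro l
    refine (W1f_num b hb).trans ?_
    exact pow_le_pow_left₀ (by positivity) (W1f_thr_b b ep hep0 l) 2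
  have hE2 : ∀ l, 6480 * (12000 * Real.log b) * (mkQ a c n b ep x0 L0).pe (l + 1) ^ 2 ≤
      (mkQ a c n b ep x0 L0).E l ^ 2 := fun l => W1f_pe b hb ep hep0 l
  have hsum : ∑ l ∈ range (mkQ a c n b ep x0 L0).H, 8 * M l ^ 2 *
      Real.exp (-(M l ^ 2 * (mkQ a c n b ep x0 L0).E l ^ 2 / 1620)) ≤ 1 / 4 :=
    W1f_sum b ep hep0 (b + 60)
  have hexp := W1f_exp b hb
  refine ⟨?_, ?_, ?_⟩
  · intro z
    have h1 := fbud_prob (mkQ a c n b ep x0 L0) n hok (tau n) hr (1 / (b : ℝ) ^ 20) (24 * b)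
      (by positivity) (by positivity) hE1 hsum z
    have e : 24 * (b : ℝ) / 8 = 3 * b := by ring
    rw [e] at h1
    exact h1
  · intro z
    have h1 := cbud_joint (mkQ a c n b ep x0 L0) n hok (tau n) hr 0 (12000 * Real.log b)
      (by positivity) hE2 hsum {z} (by
        intro i hi i' hi' hne
        rw [mem_singleton] at hi hi'
        exact absurd (hi.trans hi'.symm) hne)
    rw [hexp, card_singleton, pow_one] at h1
    refine le_trans ?_ h1
    apply Nat.cast_le.mpr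
    apply card_le_card
    intro ω hω
    refine Finset.mem_filter.mpr ⟨mem_univ _, ?_⟩
    intro i hi
    rw [mem_singleton] at hi
    subst hi
    rcases bud_split (mkQ a c n b ep x0 L0) 0 (ext (tau n) ω) (tau n) i
      (Finset.mem_filter.mp hω).2 with h | h
    · exact h
    · exfalso
      have hfr : fr (mkQ a c n b ep x0 L0) 0 i = ∅ := by
        unfold fr
        apply Finset.filter_false_of_mem
        intro j _ h
        exact h (abs_nonneg _)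
      unfold FBud at h
      rw [hfr, sum_empty] at h
      norm_num at h
  · intro I hI
    have h1 := cbud_joint (mkQ a c n b ep x0 L0) n hok (tau n) hr (1 / (b : ℝ) ^ 20)
      (12000 * Real.log b) (by positivity) hE2 hsum I (by
        intro i hi i' hi' hne
        rw [Finset.disjoint_left]
        intro j hj hj'
        exact hI i hi i' hi' hne j ⟨(Finset.mem_filter.mp hj).2, (Finset.mem_filter.mp hj').2⟩)
    rw [hexp] at h1
    exact h1

end Pool.Agent.LibDB82
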