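import Pool.Agent.LibDB82.W1a
import Pool.Agent.LibDB82.W1b
import Pool.Agent.LibDB82.W1c
import Pool.Agent.LibDB82.W1e
import Pool.Agent.LibDB82.W1f

/-! W1: facts on one run with the parameters `mkQ`. -/
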