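import Pool.Agent.LibDB82.S1a
import Pool.Agent.LibDB82.M1
import Pool.Agent.LibDB82.N4
import Pool.Agent.LibDB82.W1

set_option autoImplicit false

/-! M2: the walk on a small cluster, started with a drift in the direction of a linear functional. -/

open Finset Pool.Agent.LibLoc73

namespace Pool.Agent.LibDB82

variable {ι κ : Type*} [Fintype ι] [Fintype κ] [DecidableEq ι]

theorem num_m (b n : ℕ) (hb : 4 ≤ b) (hn : b ^ 50 ≤ n) :
    (b : ℝ) ^ 83 * (1 / (n : ℝ) ^ 100) ≤ 1 / (64 * (b : ℝ) ^ 83) ∧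
    (b : ℝ) ^ 323 * Real.exp (-(2000 * b)) ≤ 1 / (64 * (b : ℝ) ^ 83) ∧
    (b : ℝ) ^ 83 * (1 / (b : ℝ) ^ 1500) ≤ 1 / (64 * (b : ℝ) ^ 83) ∧
    1 / (n : ℝ) ^ 2 < 1 / (8 * (b : ℝ) ^ 83) ∧ (b : ℝ) ^ 83 * (1 / (n : ℝ) ^ 2) ≤ 1 := by
  have hb' : (4 : ℝ) ≤ b := by exact_mod_cast hb
  have hb0 : (0 : ℝ) < b := by linarith
  have hb1 : (1 : ℝ) ≤ b := by linarith
  have hn' : (b : ℝ) ^ 50 ≤ n := by exact_mod_cast hn
  have hn0 : (0 : ℝ) < n := lt_of_lt_of_le (by positivity) hn'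
  have h64 : (64 : ℝ) ≤ (b : ℝ) ^ 3 := by
    calc (64 : ℝ) = 4 ^ 3 := by norm_num
      _ ≤ (b : ℝ) ^ 3 := pow_le_pow_left₀ (by norm_num) hb' 3
  have h1 : 64 * (b : ℝ) ^ 83 ≤ (b : ℝ) ^ 86 := by
    calc 64 * (b : ℝ) ^ 83 ≤ (b : ℝ) ^ 3 * (b : ℝ) ^ 83 := by gcongr
      _ = (b : ℝ) ^ 86 := by rw [← pow_add]
  have h2 : 1 / (b : ℝ) ^ 86 ≤ 1 / (64 * (b : ℝ) ^ 83) :=
    one_div_le_one_div_of_le (by positivity) h1
  refine ⟨?_, ?_, ?_, ?_, ?_⟩
  · refine le_trans ?_ h2
    have h3 : (b : ℝ) ^ 5000 ≤ (n : ℝ) ^ 100 := by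
      calc (b : ℝ) ^ 5000 = ((b : ℝ) ^ 50) ^ 100 := by rw [← pow_mul]
        _ ≤ (n : ℝ) ^ 100 := pow_le_pow_left₀ (by positivity) hn' 100
    calc (b : ℝ) ^ 83 * (1 / (n : ℝ) ^ 100) ≤ (b : ℝ) ^ 83 * (1 / (b : ℝ) ^ 5000) := by gcongr
      _ = 1 / (b : ℝ) ^ 4917 := by
          rw [mul_one_div, div_eq_div_iff (by positivity) (by positivity), one_mul, ← pow_add]
      _ ≤ 1 / (b : ℝ) ^ 86 := by
          apply one_div_le_one_div_of_le (by positivity)
          exact pow_le_pow_right₀ hb1 (by norm_num)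
  · refine le_trans ?_ h2
    rw [Real.exp_neg, ← div_eq_mul_inv, div_le_div_iff₀ (Real.exp_pos _) (by positivity),
      one_mul, ← pow_add]
    refine (pow_le_exp_mul b (323 + 86) (by omega)).trans ?_
    apply Real.exp_le_exp.2
    push_cast
    nlinarith
  · refine le_trans ?_ h2
    calc (b : ℝ) ^ 83 * (1 / (b : ℝ) ^ 1500) = 1 / (b : ℝ) ^ 1417 := by
          rw [mul_one_div, div_eq_div_iff (by positivity) (by positivity), one_mul, ← pow_add]
      _ ≤ 1 / (b : ℝ) ^ 86 := by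
          apply one_div_le_one_div_of_le (by positivity)
          exact pow_le_pow_right₀ hb1 (by norm_num)
  · apply one_div_lt_one_div_of_lt (by positivity)
    calc 8 * (b : ℝ) ^ 83 < 64 * (b : ℝ) ^ 83 := by
          have : (0 : ℝ) < (b : ℝ) ^ 83 := by positivity
          linarith
      _ ≤ (b : ℝ) ^ 86 := h1
      _ ≤ (b : ℝ) ^ 100 := pow_le_pow_right₀ hb1 (by norm_num)
      _ = ((b : ℝ) ^ 50) ^ 2 := by rw [← pow_mul]
      _ ≤ (n : ℝ) ^ 2 := pow_le_pow_left₀ (by positivity) hn' 2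
  · rw [mul_one_div, div_le_one (by positivity)]
    calc (b : ℝ) ^ 83 ≤ (b : ℝ) ^ 100 := pow_le_pow_right₀ hb1 (by norm_num)
      _ = ((b : ℝ) ^ 50) ^ 2 := by rw [← pow_mul]
      _ ≤ (n : ℝ) ^ 2 := pow_le_pow_left₀ (by positivity) hn' 2

open Classical in
/-- the walk on `J`, all of whose variables are away from the boundary -/
theorem walk_good (a : ι → κ → ℝ) (b n : ℕ) (hb : 4 ≤ b) (hn : b ^ 50 ≤ n)
    (hcard : Fintype.card ι ≤ n) (ep : ℝ) (hep0 : 0 < ep) (hep1 : ep ≤ 1)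
    (hcol : ∀ i, ∑ j, (a i j) ^ 2 ≤ 1)
    (hrows : ∀ i, (univ.filter (fun j => a i j ≠ 0)).card ≤ n ^ 2)
    (hep : ∀ i j, |a i j| ≤ ep)
    (x : ι → ℝ) (hx : ∀ i, |x i| ≤ 1) (J : Finset ι) (hJ : J.card ≤ b ^ 83)
    (hxJ : ∀ i ∈ J, |x i| < 1 - 2 * (1 / (4 * (b : ℝ) ^ 83))) (c : ι → ℝ) :
    ∃ e : ι → ℝ, (∀ i ∈ J, |e i| = 1) ∧ 0 ≤ ∑ i ∈ J, c i * (e i - x i) ∧
      ∀ j, |∑ i ∈ J, if 1 / (b : ℝ) ^ 120 ≤ |a i j| then a i j * (e i - x i) else 0|
        ≤ KB b ep + 2 := by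
  have hb1 : 1 ≤ b := by omega
  have hb' : (4 : ℝ) ≤ b := by exact_mod_cast hb
  have hb0 : (0 : ℝ) < b := by linarith
  have hn1 : 1 ≤ n := le_trans (Nat.one_le_pow _ _ (by omega)) hn
  have hn0 : (0 : ℝ) < n := by exact_mod_cast hn1
  obtain ⟨m1, m2, m3, m4, m5⟩ := num_m b n hb hn
  set g : ℝ := 1 / (b : ℝ) ^ 120 with hg
  set B : ℝ := (b : ℝ) ^ 83 with hB
  have hB0 : 0 < B := by positivity
  have hB1 : 1 ≤ B := one_le_pow₀ (by linarith)
  set ρ : ℝ := 1 / (4 * B) with hρ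
  have hρ0 : 0 < ρ := by positivity
  have hρB : ρ * B = 1 / 4 := by rw [hρ]; field_simp
  have hρ1 : ρ ≤ 1 := by nlinarith
  have hη2 : 1 / (n : ℝ) ^ 2 < ρ / 2 := by
    have h1 : ρ / 2 = 1 / (8 * B) := by rw [hρ]; field_simp; norm_num
    rw [h1]
    exact m4
  have hJr : (J.card : ℝ) ≤ B := by
    rw [hB]
    exact_mod_cast hJ
  -- the matrix, the colours, the starting point
  set a' : ι → κ → ℝ := fun i j => if i ∈ J ∧ g ≤ |a i j| then a i j else 0 with ha'
  have ha'le : ∀ i j, |a' i j| ≤ |a i j| := by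
    intro i j
    simp only [ha']
    split_ifs
    · exact le_rfl
    · rw [abs_zero]; exact abs_nonneg _
  have ha'ne : ∀ i j, a' i j ≠ 0 → i ∈ J ∧ g ≤ |a i j| := by
    intro i j h
    by_contra hc
    apply h
    simp only [ha']
    rw [if_neg hc]
  set col : ι → ℕ := fun i => (Fintype.equivFin ι i : ℕ) with hcolr
  have hcinj : Function.Injective col := by
    intro i i' h
    exact (Fintype.equivFin ι).injective (Fin.ext h)
  have hcn : ∀ i, col i < n := fun i => lt_of_lt_of_le (Fintype.equivFin ι i).2 hcard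
  set x0 : ι → ℝ := fun i => if i ∈ J then x i + ρ * (if 0 ≤ c i then 1 else -1) else x i with hx0
  have hdrift : ∀ i, |ρ * (if 0 ≤ c i then (1 : ℝ) else -1)| = ρ := by
    intro i
    split_ifs
    · rw [mul_one, abs_of_pos hρ0]
    · rw [mul_neg_one, abs_neg, abs_of_pos hρ0]
  have hx0J : ∀ i ∈ J, |x0 i| < 1 - ρ := by
    intro i hi
    have h1 : x0 i = x i + ρ * (if 0 ≤ c i then 1 else -1) := by
      simp only [hx0]
      rw [if_pos hi]
    rw [h1]
    calc |x i + ρ * (if 0 ≤ c i then 1 else -1)|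
        ≤ |x i| + |ρ * (if 0 ≤ c i then (1 : ℝ) else -1)| := abs_add_le _ _
      _ < (1 - 2 * ρ) + ρ := by
          rw [hdrift]
          linarith [hxJ i hi]
      _ = 1 - ρ := by ring
  have hx01 : ∀ i, |x0 i| ≤ 1 := by
    intro i
    by_cases hi : i ∈ J
    · linarith [hx0J i hi]
    · have h1 : x0 i = x i := by
        simp only [hx0]
        rw [if_neg hi]
      rw [h1]
      exact hx i
  set P : LPar ι κ := mkQ a' col n b ep x0 J with hP
  have hok : P.Ok n := by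
    refine mkQ_ok a' col n b hb hn hcard hcinj ep hep0 hep1 x0 J ?_ ?_ ?_ hx01 ?_
    · intro i
      refine le_trans (Finset.sum_le_sum fun j _ => ?_) (hcol i)
      rw [← sq_abs (a' i j), ← sq_abs (a i j)]
      exact pow_le_pow_left₀ (abs_nonneg _) (ha'le i j) 2
    · intro i
      refine le_trans (Finset.card_le_card fun j hj => ?_) (hrows i)
      refine Finset.mem_filter.2 ⟨Finset.mem_univ _, fun h0 => ?_⟩
      have h1 := ha'le i j
      rw [h0, abs_zero] at h1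
      exact (Finset.mem_filter.1 hj).2 (abs_nonpos_iff.1 h1)
    · intro i j
      exact (ha'le i j).trans (hep i j)
    · intro i hi
      have h1 := hx0J i hi
      linarith
  obtain ⟨p1, p2, p3⟩ := single_probs1 a' col n b hb hn ep hep0 x0 J hok hcn
  obtain ⟨-, p5, -⟩ := single_probs2 a' col n b hb hn ep hep0 x0 J hok
  set N : ℝ := (2 ^ Fintype.card ι) ^ (tau n) with hN
  have hN0 : 0 < N := by positivity
  have hcardΩ : (Fintype.card (Fin (tau n) → ι → Bool) : ℝ) = N := by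
    simp [hN]
  -- rows
  set Rw : Finset κ := J.biUnion (fun i => (univ : Finset κ).filter (fun j => g ≤ |a i j|)) with hRw
  have hRwcard : (Rw.card : ℝ) ≤ (b : ℝ) ^ 323 := by
    have h1 : Rw.card ≤ b ^ 83 * b ^ 240 := by
      refine (Finset.card_biUnion_le_card_mul _ _ (b ^ 240) ?_).trans ?_
      · intro i _
        have h2 := cnt_nat (fun j => a i j) b 120 0 hb1 (by rw [pow_zero]; exact hcol i)
        exact h2
      · exact Nat.mul_le_mul_right _ hJ
    have h2 : Rw.card ≤ b ^ 323 := by rwa [← pow_add] at h1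
    exact_mod_cast h2
  -- bad outcomes
  have e1 := union_bd J
    (fun z (ω : Fin (tau n) → ι → Bool) => P.toPar.Conf (ext (tau n) ω) z) _ (fun z _ => p1 z)
  have e2 := union_bd J
    (fun z (ω : Fin (tau n) → ι → Bool) => P.IsBig (ext (tau n) ω) (tau n) z) _ (fun z _ => p2 z)
  have e3 := union_bd Rw
    (fun j (ω : Fin (tau n) → ι → Bool) => P.Up (ext (tau n) ω) (tau n) j (b + 60)) _
    (fun j _ => p3 j)
  have e4 := union_bd J
    (fun z (ω : Fin (tau n) → ι → Bool) => P.Bud (ext (tau n) ω) (tau n) z) _ (fun z _ => p5 z)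
  set Bad : Finset (Fin (tau n) → ι → Bool) :=
    ((univ.filter (fun ω => ∃ z ∈ J, P.toPar.Conf (ext (tau n) ω) z)) ∪
        (univ.filter (fun ω => ∃ z ∈ J, P.IsBig (ext (tau n) ω) (tau n) z))) ∪
        ((univ.filter (fun ω => ∃ j ∈ Rw, P.Up (ext (tau n) ω) (tau n) j (b + 60))) ∪
        (univ.filter (fun ω => ∃ z ∈ J, P.Bud (ext (tau n) ω) (tau n) z))) with hBad
  have hBadcard : (Bad.card : ℝ) ≤ N * (ρ / 4) := by
    have hun : ∀ A B : Finset (Fin (tau n) → ι → Bool),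
        ((A ∪ B).card : ℝ) ≤ (A.card : ℝ) + (B.card : ℝ) := by
      intro A B
      exact_mod_cast Finset.card_union_le A B
    have q1 : (J.card : ℝ) * (N * (1 / (n : ℝ) ^ 100)) ≤ N * (1 / (64 * B)) := by
      calc _ ≤ B * (N * (1 / (n : ℝ) ^ 100)) := by gcongr
        _ = N * (B * (1 / (n : ℝ) ^ 100)) := by ring
        _ ≤ N * (1 / (64 * B)) := by gcongr
    have q3 : (Rw.card : ℝ) * (N * Real.exp (-(2000 * b))) ≤ N * (1 / (64 * B)) := by
      calc _ ≤ (b : ℝ) ^ 323 * (N * Real.exp (-(2000 * b))) := by gcongr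
        _ = N * ((b : ℝ) ^ 323 * Real.exp (-(2000 * b))) := by ring
        _ ≤ N * (1 / (64 * B)) := by gcongr
    have q4 : (J.card : ℝ) * (N * (1 / (b : ℝ) ^ 1500)) ≤ N * (1 / (64 * B)) := by
      calc _ ≤ B * (N * (1 / (b : ℝ) ^ 1500)) := by gcongr
        _ = N * (B * (1 / (b : ℝ) ^ 1500)) := by ring
        _ ≤ N * (1 / (64 * B)) := by gcongr
    have f1 := e1.trans q1
    have f2 := e2.trans q1
    have f3 := e3.trans q3
    have f4 := e4.trans q4
    have t1 := hun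
      ((univ.filter (fun ω => ∃ z ∈ J, P.toPar.Conf (ext (tau n) ω) z)) ∪
        (univ.filter (fun ω => ∃ z ∈ J, P.IsBig (ext (tau n) ω) (tau n) z)))
      ((univ.filter (fun ω => ∃ j ∈ Rw, P.Up (ext (tau n) ω) (tau n) j (b + 60))) ∪
        (univ.filter (fun ω => ∃ z ∈ J, P.Bud (ext (tau n) ω) (tau n) z)))
    have t2 := hun (univ.filter (fun ω => ∃ z ∈ J, P.toPar.Conf (ext (tau n) ω) z))
        (univ.filter (fun ω => ∃ z ∈ J, P.IsBig (ext (tau n) ω) (tau n) z))
    have t3 := hun (univ.filter (fun ω => ∃ j ∈ Rw, P.Up (ext (tau n) ω) (tau n) j (b + 60)))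
        (univ.filter (fun ω => ∃ z ∈ J, P.Bud (ext (tau n) ω) (tau n) z))
    have h5 : N * (ρ / 4) = 4 * (N * (1 / (64 * B))) := by
      rw [hρ]
      field_simp
      norm_num
    rw [h5]
    linarith
  -- a good outcome
  haveI : Nonempty (Fin (tau n) → ι → Bool) := ⟨fun _ _ => true⟩
  obtain ⟨ω, hω, hgain⟩ := avg Bad (fun ω i => (P.run (ext (tau n) ω) (tau n)).x i) J c x ρ
    (1 / (n : ℝ) ^ 2) hρ0 hρ1 (by positivity) hη2
    (by
      intro i hi
      rw [hcardΩ, run_mean P (tau n) i]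
      congr 1
      show x0 i = _
      simp only [hx0]
      rw [if_pos hi])
    (fun ω i _ => run_x_le P n hok _ _ i) (fun i _ => hx i) (by rw [hcardΩ]; exact hBadcard)
  have w1 : ∀ z ∈ J, ¬ P.toPar.Conf (ext (tau n) ω) z := fun z hz h => hω
    (Finset.mem_union_left _ (Finset.mem_union_left _
      (Finset.mem_filter.2 ⟨Finset.mem_univ _, z, hz, h⟩)))
  have w2 : ∀ z ∈ J, ¬ P.IsBig (ext (tau n) ω) (tau n) z := fun z hz h => hω
    (Finset.mem_union_left _ (Finset.mem_union_right _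
      (Finset.mem_filter.2 ⟨Finset.mem_univ _, z, hz, h⟩)))
  have w3 : ∀ j ∈ Rw, ¬ P.Up (ext (tau n) ω) (tau n) j (b + 60) := fun j hj h => hω
    (Finset.mem_union_right _ (Finset.mem_union_left _
      (Finset.mem_filter.2 ⟨Finset.mem_univ _, j, hj, h⟩)))
  have w4 : ∀ z ∈ J, ¬ P.Bud (ext (tau n) ω) (tau n) z := fun z hz h => hω
    (Finset.mem_union_right _ (Finset.mem_union_right _
      (Finset.mem_filter.2 ⟨Finset.mem_univ _, z, hz, h⟩)))
  have hwin : ∀ i, P.c i * P.T + P.T ≤ tau n := by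
    intro i
    show col i * (180000000 * n ^ 7) + 180000000 * n ^ 7 ≤ 180000000 * n ^ 10
    calc col i * (180000000 * n ^ 7) + 180000000 * n ^ 7
        = (col i + 1) * (180000000 * n ^ 7) := by ring
      _ ≤ n ^ 3 * (180000000 * n ^ 7) := Nat.mul_le_mul_right _ (by
          calc col i + 1 ≤ n := hcn i
            _ = n ^ 1 := (pow_one n).symm
            _ ≤ n ^ 3 := Nat.pow_le_pow_right (by omega) (by norm_num))
      _ = 180000000 * n ^ 10 := by ring
  set y : ι → ℝ := (P.run (ext (tau n) ω) (tau n)).x with hy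
  have hy1 : ∀ i, |y i| ≤ 1 := fun i => run_x_le P n hok _ _ i
  have hyJ : ∀ i ∈ J, 1 - 1 / (n : ℝ) ^ 2 ≤ |y i| := by
    intro i hi
    by_contra h
    have hi' : |y i| < 1 - P.η := not_le.1 h
    rcases undecided P n hok (ext (tau n) ω) (tau n) hwin i hi hi' with
      h | ⟨z, hz, h⟩ | ⟨j, hj, h⟩ | h
    · exact w1 i hi h
    · exact w2 z hz h
    · have h1 := ha'ne i j hj
      exact w3 j (Finset.mem_biUnion.2 ⟨i, h1.1,
        Finset.mem_filter.2 ⟨Finset.mem_univ _, h1.2⟩⟩) h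
    · exact w4 i hi h
  set e : ι → ℝ := fun i => if 0 ≤ y i then 1 else -1 with he
  have he1 : ∀ i, |e i| = 1 := by
    intro i
    simp only [he]
    split_ifs <;> simp
  have hey : ∀ i ∈ J, |e i - y i| ≤ 1 / (n : ℝ) ^ 2 := by
    intro i hi
    have h1 := hyJ i hi
    have h2 := hy1 i
    simp only [he]
    split_ifs with h
    · rw [abs_of_nonneg h] at h1 h2
      rw [abs_of_nonneg (by linarith)]
      linarith
    · rw [abs_of_neg (not_le.1 h)] at h1 h2
      rw [abs_of_nonpos (by linarith)]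
      linarith
  refine ⟨e, fun i _ => he1 i, hgain e hey, ?_⟩
  intro j
  have hsum : ∀ z : ι → ℝ, ∑ i, a' i j * z i
      = ∑ i ∈ J, if g ≤ |a i j| then a i j * z i else 0 := by
    intro z
    rw [← Finset.sum_subset (Finset.subset_univ J) (f := fun i => a' i j * z i)]
    · refine Finset.sum_congr rfl fun i hi => ?_
      simp only [ha']
      by_cases h : g ≤ |a i j|
      · rw [if_pos ⟨hi, h⟩, if_pos h]
      · rw [if_neg (fun hc => h hc.2), if_neg h, zero_mul]
    · intro i _ hi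
      simp only [ha']
      rw [if_neg (fun hc => hi hc.1), zero_mul]
  have h1 := (run_row_le P n hok (ext (tau n) ω) (tau n) j).trans
    (Bd_le a' col n b hb hn ep hep0 hep1 x0 J)
  have h2 : P.toPar.row (P.run (ext (tau n) ω) (tau n)).x j - P.toPar.row P.x0 j
      = ∑ i ∈ J, if g ≤ |a i j| then a i j * (y i - x0 i) else 0 := by
    rw [← hsum (fun i => y i - x0 i)]
    show ∑ i, a' i j * y i - ∑ i, a' i j * x0 i = _
    rw [← Finset.sum_sub_distrib]
    refine Finset.sum_congr rfl fun i _ => ?_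
    ring
  rw [h2] at h1
  have hbd : ∀ (z : ι → ℝ) (r : ℝ), 0 ≤ r → (∀ i ∈ J, |z i| ≤ r) →
      |∑ i ∈ J, if g ≤ |a i j| then a i j * z i else 0| ≤ B * r := by
    intro z r hr hz
    calc |∑ i ∈ J, if g ≤ |a i j| then a i j * z i else 0|
        ≤ ∑ i ∈ J, |if g ≤ |a i j| then a i j * z i else 0| := Finset.abs_sum_le_sum_abs _ _
      _ ≤ ∑ _i ∈ J, r := by
          refine Finset.sum_le_sum fun i hi => ?_
          split_ifs
          · rw [abs_mul]
            calc |a i j| * |z i| ≤ 1 * r :=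
                  mul_le_mul ((hep i j).trans hep1) (hz i hi) (abs_nonneg _) (by norm_num)
              _ = r := one_mul r
          · rw [abs_zero]; exact hr
      _ = J.card * r := by rw [Finset.sum_const, nsmul_eq_mul]
      _ ≤ B * r := by gcongr
  have h3 := hbd (fun i => e i - y i) (1 / (n : ℝ) ^ 2) (by positivity) hey
  have h4 := hbd (fun i => x0 i - x i) ρ hρ0.le (by
    intro i hi
    have h5 : x0 i - x i = ρ * (if 0 ≤ c i then 1 else -1) := by
      simp only [hx0]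
      rw [if_pos hi]
      ring
    rw [h5, hdrift])
  have h6 : ∑ i ∈ J, (if g ≤ |a i j| then a i j * (e i - x i) else 0)
      = ∑ i ∈ J, (if g ≤ |a i j| then a i j * (e i - y i) else 0)
        + ∑ i ∈ J, (if g ≤ |a i j| then a i j * (y i - x0 i) else 0)
        + ∑ i ∈ J, (if g ≤ |a i j| then a i j * (x0 i - x i) else 0) := by
    rw [← Finset.sum_add_distrib, ← Finset.sum_add_distrib]
    refine Finset.sum_congr rfl fun i _ => ?_
    split_ifs
    · ring
    · ring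
  rw [h6]
  have h7 : B * ρ = 1 / 4 := by rw [mul_comm]; exact hρB
  have h8 := m5
  refine (abs_add_le _ _).trans ?_
  have h9 := abs_add_le (∑ i ∈ J, (if g ≤ |a i j| then a i j * (e i - y i) else 0))
    (∑ i ∈ J, (if g ≤ |a i j| then a i j * (y i - x0 i) else 0))
  linarith

end Pool.Agent.LibDB82
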