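import Pool.Agent.LibKomlos64.Cluster

set_option autoImplicit false

/-! Task N2: large connected sets are rare. Cite `LibKomlos64.chn`, `card_chn`, `mem_chn`, `exists_list`.
Model: `LibLev64/F2.lean` (`badEv2_prob`) and `LibLev64/F4.lean` (`clu_card2`). -/

open Finset

namespace Pool.Agent.LibDB82

/-- a maximal conflict free subset dominates -/
private theorem n2_maximal {ι : Type*} [DecidableEq ι] (cf : ι → Finset ι)
    (hself : ∀ i, i ∈ cf i) (hsymm : ∀ i i', i' ∈ cf i → i ∈ cf i') (Q : Finset ι) :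
    ∃ I ⊆ Q, (∀ i ∈ I, ∀ i' ∈ I, i ≠ i' → i' ∉ cf i) ∧ ∀ i ∈ Q, ∃ i' ∈ I, i' ∈ cf i := by
  induction Q using Finset.induction_on with
  | empty => exact ⟨∅, Finset.Subset.refl _, by simp, by simp⟩
  | insert a Q ha ih =>
    obtain ⟨I, hI, hnc, hdom⟩ := ih
    by_cases h : ∃ i' ∈ I, i' ∈ cf a
    · refine ⟨I, hI.trans (subset_insert _ _), hnc, ?_⟩
      intro i hi
      rcases mem_insert.1 hi with h1 | h1
      · rw [h1]
        exact h
      · exact hdom i h1
    · push Not at h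
      refine ⟨insert a I, insert_subset_insert _ hI, ?_, ?_⟩
      · intro i hi i' hi' hne
        rcases mem_insert.1 hi with h1 | h1 <;> rcases mem_insert.1 hi' with h2 | h2
        · exact absurd (h1.trans h2.symm) hne
        · rw [h1]
          exact h i' h2
        · rw [h2]
          intro h3
          exact h i h1 (hsymm _ _ h3)
        · exact hnc i h1 i' h2 hne
      · intro i hi
        rcases mem_insert.1 hi with h1 | h1
        · exact ⟨a, mem_insert_self _ _, by rw [h1]; exact hself a⟩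
        · obtain ⟨i', hi', h2⟩ := hdom i h1
          exact ⟨i', mem_insert_of_mem hi', h2⟩

/-- a large connected set contains a bad list -/
private theorem n2_list {ι : Type*} [DecidableEq ι]
    (cf nb : ι → Finset ι) (Rg : ι → ι → Prop) (Dc m : ℕ)
    (hself : ∀ i, i ∈ cf i) (hsymm : ∀ i i', i' ∈ cf i → i ∈ cf i')
    (hDc : ∀ i, (cf i).card ≤ Dc)
    (hRsymm : ∀ a b, Rg a b → Rg b a)
    (hnb : ∀ a b c d, b ∈ cf a → Rg b c → d ∈ cf c → d ∈ nb a)
    (Q : Finset ι) (hcard : m * Dc < Q.card) (i0 : ι) (hi0 : i0 ∈ Q)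
    (hconn : ∀ i ∈ Q, Relation.ReflTransGen (fun a b => a ∈ Q ∧ b ∈ Q ∧ Rg a b) i0 i) :
    ∃ h : ι, ∃ l ∈ Pool.Agent.LibKomlos64.chn nb (2 * m) h, l.toFinset.card = m + 1 ∧
      (∀ i ∈ l.toFinset, ∀ i' ∈ l.toFinset, i ≠ i' → i' ∉ cf i) ∧ l.toFinset ⊆ Q := by
  obtain ⟨I, hIQ, hnc, hdom⟩ := n2_maximal cf hself hsymm Q
  have hex : ∀ i, ∃ i', i ∈ Q → i' ∈ I ∧ i' ∈ cf i := fun i => by
    by_cases hi : i ∈ Q
    · obtain ⟨i', h1, h2⟩ := hdom i hi
      exact ⟨i', fun _ => ⟨h1, h2⟩⟩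
    · exact ⟨i, fun h => absurd h hi⟩
  choose dr hdr using hex
  have hsubI : Q.image dr ⊆ I := by
    intro j hj
    obtain ⟨i, hi, rfl⟩ := mem_image.1 hj
    exact (hdr i hi).1
  have hcov : Q ⊆ (Q.image dr).biUnion cf := by
    intro i hi
    rw [mem_biUnion]
    exact ⟨dr i, mem_image_of_mem dr hi, hsymm _ _ (hdr i hi).2⟩
  have hle : Q.card ≤ (Q.image dr).card * Dc :=
    (card_le_card hcov).trans (card_biUnion_le_card_mul _ _ _ fun i _ => hDc i)
  have hm : m + 1 ≤ (Q.image dr).card := by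
    by_contra hcon
    have h1 : (Q.image dr).card ≤ m := by omega
    have h2 : (Q.image dr).card * Dc ≤ m * Dc := Nat.mul_le_mul_right _ h1
    omega
  obtain ⟨l, hchain, hlen, hlcard, hlsub, _⟩ := Pool.Agent.LibKomlos64.exists_list Q dr
    (fun a b => ∃ b' c, b' ∈ cf a ∧ Rg b' c ∧ b ∈ cf c)
    (fun a b ⟨b', c, h1, h2, h3⟩ => ⟨c, b', hsymm _ _ h3, hRsymm _ _ h2, hsymm _ _ h1⟩)
    (fun a b => a ∈ Q ∧ b ∈ Q ∧ Rg a b)
    (fun a b ⟨h1, h2, h3⟩ => ⟨h1, h2, a, b, hsymm _ _ (hdr a h1).2, h3, (hdr b h2).2⟩)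
    i0 hi0 hconn m hm
  cases l with
  | nil => simp at hlen
  | cons h l =>
    refine ⟨h, h :: l, ?_, hlcard, ?_, ?_⟩
    · refine Pool.Agent.LibKomlos64.mem_chn nb (2 * m) h l ?_ ?_
      · exact hchain.imp fun a b ⟨b', c, h1, h2, h3⟩ => hnb a b' c b h1 h2 h3
      · simpa using hlen
    · intro i hi i' hi' hne
      exact hnc i (hsubI (hlsub hi)) i' (hsubI (hlsub hi')) hne
    · exact (hlsub.trans hsubI).trans hIQ

open Classical in
/-- `cf i` = variables in conflict with `i` (symmetric, `i ∈ cf i`, at most `Dc` of them), `Rg` = adjacency,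
`nb` contains `cf ∘ Rg ∘ cf`. If `T ω` contains a connected set `Q` with more than `m * Dc` elements, take a
maximal conflict free `I ⊆ Q` and `dr i ∈ I ∩ cf i` for `i ∈ Q`; the image of `dr` has at least `m+1` elements
and `exists_list` gives a list `l` in `chn nb (2m) h` with exactly `m+1` different members, all in `I ⊆ T ω`. Union
bound over `h` and `chn nb (2m) h`. -/
theorem cluster_count {Ω ι : Type*} [Fintype Ω] [Fintype ι] [DecidableEq ι]
    (T : Ω → Finset ι) (N q : ℝ) (hN : 0 ≤ N) (hq : 0 ≤ q)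
    (cf nb : ι → Finset ι) (Rg : ι → ι → Prop) (Dc Δ m : ℕ)
    (hself : ∀ i, i ∈ cf i) (hsymm : ∀ i i', i' ∈ cf i → i ∈ cf i')
    (hDc : ∀ i, (cf i).card ≤ Dc) (hΔ : ∀ i, (nb i).card ≤ Δ)
    (hRsymm : ∀ a b, Rg a b → Rg b a)
    (hnb : ∀ a b c d, b ∈ cf a → Rg b c → d ∈ cf c → d ∈ nb a)
    (hT : ∀ I : Finset ι, (∀ i ∈ I, ∀ i' ∈ I, i ≠ i' → i' ∉ cf i) →
      (((univ : Finset Ω).filter (fun ω => I ⊆ T ω)).card : ℝ) ≤ N * q ^ I.card) :
    (((univ : Finset Ω).filter (fun ω => ∃ Q : Finset ι, Q ⊆ T ω ∧ m * Dc < Q.card ∧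
        ∃ i0 ∈ Q, ∀ i ∈ Q, Relation.ReflTransGen (fun a b => a ∈ Q ∧ b ∈ Q ∧ Rg a b) i0 i)).card : ℝ)
      ≤ N * (Fintype.card ι * ((Δ : ℝ) ^ (2 * m) * q ^ (m + 1))) := by
  have hsub : ((univ : Finset Ω).filter (fun ω => ∃ Q : Finset ι, Q ⊆ T ω ∧ m * Dc < Q.card ∧
        ∃ i0 ∈ Q, ∀ i ∈ Q, Relation.ReflTransGen (fun a b => a ∈ Q ∧ b ∈ Q ∧ Rg a b) i0 i)) ⊆
      (univ : Finset ι).biUnion (fun h =>
        ((Pool.Agent.LibKomlos64.chn nb (2 * m) h).filter (fun l => l.toFinset.card = m + 1 ∧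
          ∀ i ∈ l.toFinset, ∀ i' ∈ l.toFinset, i ≠ i' → i' ∉ cf i)).biUnion
            (fun l => (univ : Finset Ω).filter (fun ω => l.toFinset ⊆ T ω))) := by
    intro ω hω
    rw [mem_filter] at hω
    obtain ⟨_, Q, hQT, hcard, i0, hi0, hconn⟩ := hω
    obtain ⟨h, l, hl, h1, h2, h3⟩ := n2_list cf nb Rg Dc m hself hsymm hDc hRsymm hnb Q hcard i0 hi0
      hconn
    rw [mem_biUnion]
    refine ⟨h, mem_univ _, ?_⟩
    rw [mem_biUnion]
    refine ⟨l, ?_, ?_⟩
    · rw [mem_filter]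
      exact ⟨hl, h1, h2⟩
    · rw [mem_filter]
      exact ⟨mem_univ _, h3.trans hQT⟩
  have hNq : 0 ≤ N * q ^ (m + 1) := mul_nonneg hN (pow_nonneg hq _)
  calc (((univ : Finset Ω).filter (fun ω => ∃ Q : Finset ι, Q ⊆ T ω ∧ m * Dc < Q.card ∧
        ∃ i0 ∈ Q, ∀ i ∈ Q, Relation.ReflTransGen (fun a b => a ∈ Q ∧ b ∈ Q ∧ Rg a b) i0 i)).card : ℝ)
      ≤ (((univ : Finset ι).biUnion (fun h =>
        ((Pool.Agent.LibKomlos64.chn nb (2 * m) h).filter (fun l => l.toFinset.card = m + 1 ∧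
          ∀ i ∈ l.toFinset, ∀ i' ∈ l.toFinset, i ≠ i' → i' ∉ cf i)).biUnion
            (fun l => (univ : Finset Ω).filter (fun ω => l.toFinset ⊆ T ω)))).card : ℝ) := by
        exact_mod_cast card_le_card hsub
    _ ≤ ∑ h : ι, (((((Pool.Agent.LibKomlos64.chn nb (2 * m) h).filter (fun l =>
          l.toFinset.card = m + 1 ∧
          ∀ i ∈ l.toFinset, ∀ i' ∈ l.toFinset, i ≠ i' → i' ∉ cf i)).biUnion
            (fun l => (univ : Finset Ω).filter (fun ω => l.toFinset ⊆ T ω)))).card : ℝ) := by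
        exact_mod_cast card_biUnion_le
    _ ≤ ∑ h : ι, (Δ : ℝ) ^ (2 * m) * (N * q ^ (m + 1)) := by
        refine sum_le_sum fun h _ => ?_
        calc (((((Pool.Agent.LibKomlos64.chn nb (2 * m) h).filter (fun l =>
          l.toFinset.card = m + 1 ∧
          ∀ i ∈ l.toFinset, ∀ i' ∈ l.toFinset, i ≠ i' → i' ∉ cf i)).biUnion
            (fun l => (univ : Finset Ω).filter (fun ω => l.toFinset ⊆ T ω)))).card : ℝ)
            ≤ ∑ l ∈ (Pool.Agent.LibKomlos64.chn nb (2 * m) h).filter (fun l =>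
              l.toFinset.card = m + 1 ∧
              ∀ i ∈ l.toFinset, ∀ i' ∈ l.toFinset, i ≠ i' → i' ∉ cf i),
              (((univ : Finset Ω).filter (fun ω => l.toFinset ⊆ T ω)).card : ℝ) := by
              exact_mod_cast card_biUnion_le
          _ ≤ ∑ l ∈ (Pool.Agent.LibKomlos64.chn nb (2 * m) h).filter (fun l =>
              l.toFinset.card = m + 1 ∧
              ∀ i ∈ l.toFinset, ∀ i' ∈ l.toFinset, i ≠ i' → i' ∉ cf i), N * q ^ (m + 1) := by
              refine sum_le_sum fun l hl => ?_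
              rw [mem_filter] at hl
              have h1 := hT l.toFinset hl.2.2
              rw [hl.2.1] at h1
              exact h1
          _ = (((Pool.Agent.LibKomlos64.chn nb (2 * m) h).filter (fun l =>
              l.toFinset.card = m + 1 ∧
              ∀ i ∈ l.toFinset, ∀ i' ∈ l.toFinset, i ≠ i' → i' ∉ cf i)).card : ℝ) *
              (N * q ^ (m + 1)) := by
              rw [sum_const, nsmul_eq_mul]
          _ ≤ (Δ : ℝ) ^ (2 * m) * (N * q ^ (m + 1)) := by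
              refine mul_le_mul_of_nonneg_right ?_ hNq
              have h1 := Pool.Agent.LibKomlos64.card_chn nb Δ hΔ (2 * m) h
              exact_mod_cast (card_filter_le _ _).trans h1
    _ = N * (Fintype.card ι * ((Δ : ℝ) ^ (2 * m) * q ^ (m + 1))) := by
        rw [sum_const, nsmul_eq_mul, card_univ]
        ring

end Pool.Agent.LibDB82
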