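import Pool.Agent.LibLev64.B3
import Pool.Agent.LibLoc73.K1

set_option autoImplicit false

/-! Task N3: weighted number of bad variables in a row. Cite `LibLoc73.greedy`, `LibLev64.chernoff_abs`. -/

open Finset

namespace Pool.Agent.LibDB82

open Classical in
private theorem one_colour {Ω ι : Type*} [Fintype Ω] [Fintype ι] [DecidableEq ι]
    (T : Ω → Finset ι) (N q : ℝ) (hN : 0 ≤ N) (hq : 0 ≤ q) (J : Finset ι)
    (hT : ∀ I : Finset ι, I ⊆ J →
      (((univ : Finset Ω).filter (fun ω => I ⊆ T ω)).card : ℝ) ≤ N * q ^ I.card)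
    (w : ι → ℝ) (hw : ∀ i, 0 ≤ w i) (lam S β0 : ℝ) (hlam : 0 ≤ lam) (hlw : ∀ i, lam * w i ≤ 1)
    (hS : ∑ i, w i ≤ S) :
    (((univ : Finset Ω).filter
      (fun ω => β0 ≤ ∑ i ∈ J, if i ∈ T ω then w i else 0)).card : ℝ)
      ≤ N * Real.exp (-(lam * β0) + 2 * lam * q * S) := by
  have h1 := Pool.Agent.LibLev64.chernoff_abs (Ω := Ω) (β := ι) (γ := Unit)
    (fun _ => True) (fun i ω => i ∈ T ω) (fun _ => q) (fun _ => hq) N J
    (by
      intro I hI
      have h2 := hT I hI
      rw [Finset.prod_const]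
      refine le_trans (le_of_eq ?_) h2
      congr 1
      refine congrArg Finset.card ?_
      ext ω
      simp only [Finset.mem_filter, Finset.mem_univ, true_and]
      exact ⟨fun h i hi => h i hi, fun h i hi => h hi⟩)
    {()} (fun _ => J) (fun _ _ => Finset.Subset.refl _)
    (fun g _ g' _ hne => absurd (Subsingleton.elim g g') hne)
    (fun _ i => w i) (fun _ i => hw i) lam β0 hlam
  rw [Finset.prod_singleton] at h1
  have h3 : (((univ : Finset Ω).filter
      (fun ω => β0 ≤ ∑ i ∈ J, if i ∈ T ω then w i else 0)).card : ℝ) ≤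
      N * (Real.exp (-(lam * β0)) * ∏ b ∈ J, (1 + (Real.exp (lam * w b) - 1) * q)) := by
    refine le_trans (le_of_eq ?_) h1
    congr 1
    refine congrArg Finset.card ?_
    ext ω
    have e : (∑ i ∈ J, if i ∈ T ω then w i else 0) =
        ∑ b ∈ J, @ite ℝ (b ∈ T ω) (Classical.propDecidable (b ∈ T ω)) (w b) 0 :=
      Finset.sum_congr rfl fun i _ => by
        by_cases hi : i ∈ T ω
        · rw [if_pos hi, if_pos hi]
        · rw [if_neg hi, if_neg hi]
    simp only [Finset.mem_filter, Finset.mem_univ, true_and]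
    exact ⟨fun h g _ => h.trans_eq e, fun h => (h () (Finset.mem_singleton_self _)).trans_eq e.symm⟩
  refine h3.trans (mul_le_mul_of_nonneg_left ?_ hN)
  rw [Real.exp_add]
  refine mul_le_mul_of_nonneg_left ?_ (Real.exp_pos _).le
  have h4 : ∀ b ∈ J, 1 + (Real.exp (lam * w b) - 1) * q ≤ Real.exp (2 * lam * q * w b) := by
    intro b _
    have hy0 : 0 ≤ lam * w b := mul_nonneg hlam (hw b)
    have hy : |lam * w b| ≤ 1 := by rw [abs_of_nonneg hy0]; exact hlw b
    have h5 : Real.exp (lam * w b) - 1 ≤ 2 * (lam * w b) := by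
      have := Real.abs_exp_sub_one_le hy
      rw [abs_of_nonneg hy0] at this
      exact (le_abs_self _).trans this
    have h6 : (Real.exp (lam * w b) - 1) * q ≤ 2 * lam * q * w b := by
      have := mul_le_mul_of_nonneg_right h5 hq
      linarith
    have h7 := Real.add_one_le_exp (2 * lam * q * w b)
    linarith
  have h8 : ∀ b ∈ J, 0 ≤ 1 + (Real.exp (lam * w b) - 1) * q := by
    intro b _
    have hy0 : 0 ≤ lam * w b := mul_nonneg hlam (hw b)
    have : 0 ≤ Real.exp (lam * w b) - 1 := by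
      have := Real.one_le_exp hy0
      linarith
    have := mul_nonneg this hq
    linarith
  refine (Finset.prod_le_prod h8 h4).trans ?_
  rw [← Real.exp_sum, ← Finset.mul_sum]
  apply Real.exp_le_exp.mpr
  have h9 : ∑ b ∈ J, w b ≤ S :=
    (Finset.sum_le_sum_of_subset_of_nonneg (Finset.subset_univ J) fun i _ _ => hw i).trans hS
  exact mul_le_mul_of_nonneg_left h9 (by positivity)

open Classical in
/-- Colour the variables with `Dc` colours such that variables of one colour are not in conflict (`greedy`).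
If `∑_{i ∈ T ω} w i ≥ β` then `∑_{i ∈ T ω, colour r} w i ≥ β/Dc` for some colour `r`. For one colour `chernoff_abs`
(`F ω = True`, one set `Ig`, `lam`, `β0 = β/Dc`) gives
`N exp (-lam β/Dc) ∏ (1 + (e^{lam w_i} - 1) q) ≤ N exp (-lam β/Dc + 2 lam q ∑ w_i)` since
`e^y - 1 ≤ 2 y` for `0 ≤ y ≤ 1`. -/
theorem mass_count {Ω ι : Type*} [Fintype Ω] [Fintype ι] [DecidableEq ι]
    (T : Ω → Finset ι) (N q : ℝ) (hN : 0 ≤ N) (hq : 0 ≤ q)
    (cf : ι → Finset ι) (Dc : ℕ) (hDc0 : 0 < Dc)
    (hself : ∀ i, i ∈ cf i) (hsymm : ∀ i i', i' ∈ cf i → i ∈ cf i')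
    (hDc : ∀ i, (cf i).card ≤ Dc)
    (hT : ∀ I : Finset ι, (∀ i ∈ I, ∀ i' ∈ I, i ≠ i' → i' ∉ cf i) →
      (((univ : Finset Ω).filter (fun ω => I ⊆ T ω)).card : ℝ) ≤ N * q ^ I.card)
    (w : ι → ℝ) (hw : ∀ i, 0 ≤ w i) (lam S β : ℝ) (hlam : 0 ≤ lam) (hlw : ∀ i, lam * w i ≤ 1)
    (hS : ∑ i, w i ≤ S) :
    (((univ : Finset Ω).filter (fun ω => β ≤ ∑ i ∈ T ω, w i)).card : ℝ)
      ≤ N * (Dc * Real.exp (-(lam * β / Dc) + 2 * lam * q * S)) := by
  obtain ⟨c, hc, hcc⟩ := Pool.Agent.LibLoc73.greedy cf Dc hself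
    (fun i i' => ⟨hsymm i i', hsymm i' i⟩) hDc
  have hD0 : (0 : ℝ) < Dc := by exact_mod_cast hDc0
  -- one colour
  have hone : ∀ r : ℕ, (((univ : Finset Ω).filter (fun ω => β / Dc ≤
      ∑ i ∈ univ.filter (fun i => c i = r), if i ∈ T ω then w i else 0)).card : ℝ) ≤
      N * Real.exp (-(lam * β / Dc) + 2 * lam * q * S) := by
    intro r
    have h := one_colour T N q hN hq (univ.filter (fun i => c i = r))
      (by
        intro I hI
        refine hT I fun i hi i' hi' hne hmem => ?_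
        have h1 := (Finset.mem_filter.mp (hI hi)).2
        have h2 := (Finset.mem_filter.mp (hI hi')).2
        exact hcc i i' hmem hne (h1.trans h2.symm))
      w hw lam S (β / Dc) hlam hlw hS
    have e : lam * (β / Dc) = lam * β / Dc := by ring
    rw [e] at h
    exact h
  -- the union
  have hsub : (univ : Finset Ω).filter (fun ω => β ≤ ∑ i ∈ T ω, w i) ⊆
      (Finset.range Dc).biUnion (fun r => (univ : Finset Ω).filter (fun ω => β / Dc ≤
        ∑ i ∈ univ.filter (fun i => c i = r), if i ∈ T ω then w i else 0)) := by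
    intro ω hω
    have hβ := (Finset.mem_filter.mp hω).2
    rw [Finset.mem_biUnion]
    by_contra hcon
    push Not at hcon
    have h1 : ∀ r ∈ Finset.range Dc,
        (∑ i ∈ univ.filter (fun i => c i = r), if i ∈ T ω then w i else 0) < β / Dc := by
      intro r hr
      by_contra h2
      exact hcon r hr (Finset.mem_filter.mpr ⟨Finset.mem_univ _, not_lt.mp h2⟩)
    have h2 : ∑ i ∈ T ω, w i = ∑ r ∈ Finset.range Dc,
        ∑ i ∈ univ.filter (fun i => c i = r), if i ∈ T ω then w i else 0 := by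
      rw [Finset.sum_fiberwise_of_maps_to (s := univ) (t := Finset.range Dc) (g := c)
        (fun i _ => Finset.mem_range.mpr (hc i)) (fun i => if i ∈ T ω then w i else 0)]
      rw [← Finset.sum_filter]
      congr 1
      ext i
      simp
    have h3 : ∑ r ∈ Finset.range Dc,
        (∑ i ∈ univ.filter (fun i => c i = r), if i ∈ T ω then w i else 0) <
        ∑ _r ∈ Finset.range Dc, β / Dc :=
      Finset.sum_lt_sum_of_nonempty (Finset.nonempty_range_iff.mpr hDc0.ne') h1
    rw [Finset.sum_const, Finset.card_range, nsmul_eq_mul, mul_div_cancel₀ _ hD0.ne'] at h3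
    linarith
  have hcard : (((univ : Finset Ω).filter (fun ω => β ≤ ∑ i ∈ T ω, w i)).card : ℝ) ≤
      ∑ r ∈ Finset.range Dc, (((univ : Finset Ω).filter (fun ω => β / Dc ≤
        ∑ i ∈ univ.filter (fun i => c i = r), if i ∈ T ω then w i else 0)).card : ℝ) := by
    have h1 := (Finset.card_le_card hsub).trans Finset.card_biUnion_le
    exact_mod_cast h1
  refine hcard.trans ((Finset.sum_le_sum fun r _ => hone r).trans ?_)
  rw [Finset.sum_const, Finset.card_range, nsmul_eq_mul]
  apply le_of_eq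
  ring

end Pool.Agent.LibDB82
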