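import Pool.Agent.LibDB82.B2
import Pool.Agent.LibLev64.B3
import Pool.Agent.LibLev64.B4
import Pool.Agent.LibLev64.B5

set_option autoImplicit false

/-! N6: weighted counts of level changes in sets of rows. -/

open Finset Pool.Agent.LibLoc73
open Pool.Agent.LibLev64 (M X M_pos M_succ X_zero X_succ X_mono X_pos X_eq chernoff_abs B4_mem B5_exp)

namespace Pool.Agent.LibDB82

variable {ι κ : Type*} [Fintype ι] [Fintype κ] [DecidableEq ι]

open Classical in
/-- pairs (row, level) with row in `R` and level below `H` -/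
noncomputable def prs (P : LPar ι κ) (R : Finset κ) : Finset (κ × Fin (P.H + 1)) :=
  univ.filter (fun jl => jl.1 ∈ R ∧ (jl.2 : ℕ) < P.H)

theorem prs_prod (P : LPar ι κ) (R : Finset κ) (f : κ → ℕ → ℝ) :
    ∏ jl ∈ prs P R, f jl.1 jl.2 = ∏ j ∈ R, ∏ l ∈ range P.H, f j l := by
  classical
  unfold prs
  rw [Finset.prod_filter, Fintype.prod_prod_type]
  rw [← Finset.prod_subset (Finset.subset_univ R)]
  · refine Finset.prod_congr rfl (fun j hj => ?_)
    have h1 := Fin.prod_univ_eq_prod_range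
      (fun l => if (j ∈ R ∧ l < P.H) then f j l else 1) (P.H + 1)
    refine Eq.trans ?_ (h1.trans ?_)
    · refine Finset.prod_congr rfl (fun l _ => ?_)
      congr
    · rw [Finset.prod_range_succ, if_neg (fun h => lt_irrefl _ h.2), mul_one]
      refine Finset.prod_congr rfl (fun l hl => ?_)
      rw [Finset.mem_range] at hl
      rw [if_pos ⟨hj, hl⟩]
  · intro j _ hj
    refine Finset.prod_eq_one (fun l _ => ?_)
    rw [if_neg (fun h => hj h.1)]

theorem prs_sum (P : LPar ι κ) (R : Finset κ) (f : κ → ℕ → ℝ) :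
    ∑ jl ∈ prs P R, f jl.1 jl.2 = ∑ j ∈ R, ∑ l ∈ range P.H, f j l := by
  classical
  unfold prs
  rw [Finset.sum_filter, Fintype.sum_prod_type]
  rw [← Finset.sum_subset (Finset.subset_univ R)]
  · refine Finset.sum_congr rfl (fun j hj => ?_)
    have h1 := Fin.sum_univ_eq_sum_range
      (fun l => if (j ∈ R ∧ l < P.H) then f j l else 0) (P.H + 1)
    refine Eq.trans ?_ (h1.trans ?_)
    · refine Finset.sum_congr rfl (fun l _ => ?_)
      congr
    · rw [Finset.sum_range_succ, if_neg (fun h => lt_irrefl _ h.2), add_zero]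
      refine Finset.sum_congr rfl (fun l hl => ?_)
      rw [Finset.mem_range] at hl
      rw [if_pos ⟨hj, hl⟩]
  · intro j _ hj
    refine Finset.sum_eq_zero (fun l _ => ?_)
    rw [if_neg (fun h => hj h.1)]

theorem qq_nonneg (P : LPar ι κ) (l : ℕ) : 0 ≤ P.qq l := by unfold LPar.qq; positivity

open Classical in
/-- joint probability of large weighted counts of level changes for disjoint sets of rows -/
theorem wt_joint (P : LPar ι κ) (k : ℕ) (hP : P.Ok k) (τ : ℕ)
    (hr : 20 * P.δ ^ 2 * τ * (1 - 1 / P.Lc) ^ P.r ≤ 1)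
    (I : Finset ι) (R : ι → Finset κ)
    (hR : ∀ i ∈ I, ∀ i' ∈ I, i ≠ i' → Disjoint (R i) (R i'))
    (w : ι → κ → ℕ → ℝ) (hw : ∀ i j l, 0 ≤ w i j l) (lam β : ℝ) (hlam : 0 ≤ lam) :
    (((univ : Finset (Fin τ → ι → Bool)).filter (fun ω => ∀ i ∈ I,
        β ≤ ∑ j ∈ R i, ∑ l ∈ range P.H, if P.Up (ext τ ω) τ j l then w i j l else 0)).card : ℝ)
      ≤ (2 ^ Fintype.card ι) ^ τ * ∏ i ∈ I, (Real.exp (-(lam * β)) *
          ∏ j ∈ R i, ∏ l ∈ range P.H, (1 + (Real.exp (lam * w i j l) - 1) * P.qq l)) := by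
  have hmain := chernoff_abs (Ω := Fin τ → ι → Bool)
    (fun _ => True)
    (fun (b : κ × Fin (P.H + 1)) ω => P.Up (ext τ ω) τ b.1 b.2)
    (fun b => P.qq b.2) (fun b => qq_nonneg P _) ((2 ^ Fintype.card ι) ^ τ) univ (by
      intro S _
      have h1 := joint_tail P k hP τ hr S ∅
      simp only [Finset.card_empty, pow_zero, mul_one] at h1
      refine le_trans (Nat.cast_le.2 (Finset.card_le_card ?_)) h1
      intro ω hω
      obtain ⟨-, h3⟩ := B4_mem.1 hω
      exact B4_mem.2 ⟨h3, fun z hz => absurd hz (Finset.notMem_empty z)⟩)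
    I (fun i => prs P (R i)) (fun i _ => Finset.subset_univ _)
    (by
      intro i hi i' hi' hne
      rw [Finset.disjoint_left]
      intro b hb hb'
      exact Finset.disjoint_left.1 (hR i hi i' hi' hne) (Finset.mem_filter.1 hb).2.1
        (Finset.mem_filter.1 hb').2.1)
    (fun i b => w i b.1 b.2) (fun i b => hw i b.1 b.2) lam β hlam
  refine le_trans (Nat.cast_le.2 (Finset.card_le_card ?_)) (hmain.trans (le_of_eq ?_))
  · intro ω hω
    have h3 := B4_mem.1 hω
    refine B4_mem.2 ⟨trivial, ?_⟩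
    intro i hi
    have h4 := h3 i hi
    rw [← prs_sum P (R i) (fun j l => if P.Up (ext τ ω) τ j l then w i j l else 0)] at h4
    exact h4
  · congr 1
    refine Finset.prod_congr rfl (fun i _ => ?_)
    rw [← prs_prod P (R i) (fun j l => 1 + (Real.exp (lam * w i j l) - 1) * P.qq l)]

theorem wt_one (P : LPar ι κ) (l : ℕ) (a w lam : ℝ) (hlam : 0 ≤ lam) (hw0 : 0 ≤ w)
    (hw1 : w ≤ a ^ 2 * M (l + 1) ^ 2) (hw2 : lam * w ≤ M l ^ 2 * P.E l ^ 2 / 1620) :
    1 + (Real.exp (lam * w) - 1) * P.qq l ≤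
      Real.exp (lam * a ^ 2 * (8 * M l ^ 2 * Real.exp (-(M l ^ 2 * P.E l ^ 2 / 1620)))) := by
  have hM := M_pos l
  have hMs : M (l + 1) ^ 2 = 4 * M l ^ 2 := by rw [M_succ]; ring
  have h1 : (Real.exp (lam * w) - 1) * P.qq l ≤
      lam * a ^ 2 * (8 * M l ^ 2 * Real.exp (-(M l ^ 2 * P.E l ^ 2 / 1620))) := by
    have h2 := B5_exp (lam * w)
    have hq : 0 ≤ P.qq l := qq_nonneg P l
    calc _ ≤ (lam * w * Real.exp (lam * w)) * P.qq l :=
          mul_le_mul_of_nonneg_right h2 hq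
      _ ≤ (lam * (a ^ 2 * M (l + 1) ^ 2) * Real.exp (M l ^ 2 * P.E l ^ 2 / 1620)) * P.qq l := by
          apply mul_le_mul_of_nonneg_right _ hq
          apply mul_le_mul _ (Real.exp_le_exp.2 hw2) (Real.exp_pos _).le (by positivity)
          exact mul_le_mul_of_nonneg_left hw1 hlam
      _ = lam * a ^ 2 * (8 * M l ^ 2 * (Real.exp (M l ^ 2 * P.E l ^ 2 / 1620) *
            Real.exp (-(M l ^ 2 * P.E l ^ 2 / 810)))) := by
          unfold LPar.qq
          rw [hMs]
          ring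
      _ = _ := by
          rw [← Real.exp_add]
          congr 3
          ring
  have h6 := Real.add_one_le_exp
    (lam * a ^ 2 * (8 * M l ^ 2 * Real.exp (-(M l ^ 2 * P.E l ^ 2 / 1620))))
  linarith

theorem wt_factor (P : LPar ι κ) (k : ℕ) (hP : P.Ok k) (i : ι) (R : Finset κ)
    (w : κ → ℕ → ℝ) (lam β : ℝ) (hlam : 0 ≤ lam) (hw0 : ∀ j l, 0 ≤ w j l)
    (hw1 : ∀ j l, w j l ≤ P.a i j ^ 2 * M (l + 1) ^ 2)
    (hw2 : ∀ j ∈ R, ∀ l ∈ range P.H, lam * w j l ≤ M l ^ 2 * P.E l ^ 2 / 1620)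
    (hsum : ∑ l ∈ range P.H, 8 * M l ^ 2 * Real.exp (-(M l ^ 2 * P.E l ^ 2 / 1620)) ≤ 1 / 4) :
    Real.exp (-(lam * β)) * ∏ j ∈ R, ∏ l ∈ range P.H,
        (1 + (Real.exp (lam * w j l) - 1) * P.qq l)
      ≤ Real.exp (-(lam * (β - 1 / 4))) := by
  have hnn : ∀ (j : κ) (l : ℕ), 0 ≤ 1 + (Real.exp (lam * w j l) - 1) * P.qq l := by
    intro j l
    have h1 : 1 ≤ Real.exp (lam * w j l) := Real.one_le_exp (mul_nonneg hlam (hw0 j l))
    have := mul_nonneg (sub_nonneg.2 h1) (qq_nonneg P l)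
    linarith
  have hprod : ∏ j ∈ R, ∏ l ∈ range P.H, (1 + (Real.exp (lam * w j l) - 1) * P.qq l) ≤
      Real.exp (lam * (1 / 4)) := by
    calc _ ≤ ∏ j ∈ R, ∏ l ∈ range P.H, Real.exp
          (lam * P.a i j ^ 2 * (8 * M l ^ 2 * Real.exp (-(M l ^ 2 * P.E l ^ 2 / 1620)))) := by
          apply Finset.prod_le_prod
          · intro j _
            exact Finset.prod_nonneg fun l _ => hnn j l
          · intro j hj
            apply Finset.prod_le_prod
            · intro l _
              exact hnn j l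
            · intro l hl
              exact wt_one P l (P.a i j) (w j l) lam hlam (hw0 j l) (hw1 j l) (hw2 j hj l hl)
      _ = Real.exp (∑ j ∈ R, lam * P.a i j ^ 2 * ∑ l ∈ range P.H,
            (8 * M l ^ 2 * Real.exp (-(M l ^ 2 * P.E l ^ 2 / 1620)))) := by
          rw [Real.exp_sum]
          apply Finset.prod_congr rfl
          intro j _
          rw [Finset.mul_sum, Real.exp_sum]
      _ ≤ Real.exp (lam * (1 / 4)) := by
          apply Real.exp_le_exp.2
          rw [← Finset.sum_mul, ← Finset.mul_sum]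
          have h1 : ∑ j ∈ R, P.a i j ^ 2 ≤ 1 :=
            (Finset.sum_le_sum_of_subset_of_nonneg (Finset.subset_univ R)
              (fun j _ _ => sq_nonneg _)).trans (hP.hB.hcol i)
          have h3 : 0 ≤ ∑ l ∈ range P.H,
              (8 * M l ^ 2 * Real.exp (-(M l ^ 2 * P.E l ^ 2 / 1620))) :=
            Finset.sum_nonneg fun l _ => by positivity
          rw [mul_assoc]
          apply mul_le_mul_of_nonneg_left _ hlam
          calc _ ≤ 1 * ∑ l ∈ range P.H,
                (8 * M l ^ 2 * Real.exp (-(M l ^ 2 * P.E l ^ 2 / 1620))) :=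
                mul_le_mul_of_nonneg_right h1 h3
            _ ≤ 1 / 4 := by rw [one_mul]; exact hsum
  calc _ ≤ Real.exp (-(lam * β)) * Real.exp (lam * (1 / 4)) :=
        mul_le_mul_of_nonneg_left hprod (Real.exp_pos _).le
    _ = Real.exp (-(lam * (β - 1 / 4))) := by
        rw [← Real.exp_add]
        congr 1
        ring

end Pool.Agent.LibDB82
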