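import Pool.Agent.LibDB82.N6


set_option autoImplicit false

/-! N7: coarse and fine budgets. -/

open Finset Pool.Agent.LibLoc73
open Pool.Agent.LibLev64 (M X M_pos M_succ X_zero X_succ X_mono X_pos X_eq B4_mem)

namespace Pool.Agent.LibDB82

variable {ι κ : Type*} [Fintype ι] [Fintype κ] [DecidableEq ι]

open Classical in
/-- rows in which the entry of `i` is at least `es` -/
noncomputable def cr (P : LPar ι κ) (es : ℝ) (i : ι) : Finset κ :=
  univ.filter (fun j => es ≤ |P.a i j|)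

open Classical in
/-- rows in which the entry of `i` is less than `es` -/
noncomputable def fr (P : LPar ι κ) (es : ℝ) (i : ι) : Finset κ :=
  univ.filter (fun j => ¬ es ≤ |P.a i j|)

open Classical in
/-- many level changes in the coarse rows of `i` -/
def CBud (P : LPar ι κ) (es : ℝ) (ω : ℕ → ι → Bool) (s : ℕ) (i : ι) : Prop :=
  3 / 8 ≤ ∑ j ∈ cr P es i, ∑ l ∈ range P.H,
    if P.Up ω s j l then min (P.a i j ^ 2 * M (l + 1) ^ 2) 1 else 0

open Classical in
/-- many level changes in the fine rows of `i` -/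
def FBud (P : LPar ι κ) (es : ℝ) (ω : ℕ → ι → Bool) (s : ℕ) (i : ι) : Prop :=
  3 / 8 ≤ ∑ j ∈ fr P es i, ∑ l ∈ range P.H,
    if P.Up ω s j l then P.a i j ^ 2 * M (l + 1) ^ 2 else 0

theorem bud_split (P : LPar ι κ) (es : ℝ) (ω : ℕ → ι → Bool) (s : ℕ) (i : ι)
    (h : P.Bud ω s i) : CBud P es ω s i ∨ FBud P es ω s i := by
  classical
  by_contra hcon
  push Not at hcon
  obtain ⟨hc, hf⟩ := hcon
  unfold CBud at hc
  unfold FBud at hf
  push Not at hc hf
  unfold LPar.Bud LPar.bsum at h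
  have hnn : ∀ j ∈ cr P es i, ∀ l ∈ range P.H,
      0 ≤ (if P.Up ω s j l then min (P.a i j ^ 2 * M (l + 1) ^ 2) 1 else 0) := by
    intro j _ l _
    split_ifs
    · positivity
    · exact le_rfl
  have hcap : ∀ j ∈ cr P es i, ∀ l ∈ range P.H,
      (if P.Up ω s j l then P.a i j ^ 2 * M (l + 1) ^ 2 else 0)
        = (if P.Up ω s j l then min (P.a i j ^ 2 * M (l + 1) ^ 2) 1 else 0) := by
    intro j hj l hl
    split_ifs with hup
    · have h1 : (if P.Up ω s j l then min (P.a i j ^ 2 * M (l + 1) ^ 2) 1 else 0) < 3 / 8 := by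
        refine lt_of_le_of_lt ?_ hc
        refine le_trans ?_ (Finset.single_le_sum
          (f := fun j => ∑ l ∈ range P.H,
            if P.Up ω s j l then min (P.a i j ^ 2 * M (l + 1) ^ 2) 1 else 0)
          (fun j hj => Finset.sum_nonneg (hnn j hj)) hj)
        exact Finset.single_le_sum
          (f := fun l => if P.Up ω s j l then min (P.a i j ^ 2 * M (l + 1) ^ 2) 1 else 0)
          (hnn j hj) hl
      rw [if_pos hup] at h1
      rw [min_eq_left]
      by_contra h2
      push Not at h2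
      rw [min_eq_right h2.le] at h1
      norm_num at h1
    · rfl
  have hsplit : (∑ j, ∑ l ∈ range P.H,
      if P.Up ω s j l then P.a i j ^ 2 * M (l + 1) ^ 2 else 0) =
      (∑ j ∈ cr P es i, ∑ l ∈ range P.H,
        if P.Up ω s j l then P.a i j ^ 2 * M (l + 1) ^ 2 else 0) +
      ∑ j ∈ fr P es i, ∑ l ∈ range P.H,
        if P.Up ω s j l then P.a i j ^ 2 * M (l + 1) ^ 2 else 0 := by
    unfold cr fr
    rw [Finset.sum_filter_add_sum_filter_not]
  have h3 : (∑ j, ∑ l ∈ range P.H,
      if P.Up ω s j l then P.a i j ^ 2 * M (l + 1) ^ 2 else 0) < 3 / 8 + 3 / 8 := by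
    rw [hsplit]
    refine add_lt_add ?_ hf
    rw [Finset.sum_congr rfl (fun j hj => Finset.sum_congr rfl (fun l hl => hcap j hj l hl))]
    exact hc
  have h4 : (3 : ℝ) / 4 < 3 / 8 + 3 / 8 := lt_trans h (by convert h3)
  norm_num at h4

open Classical in
/-- product bound for the coarse budgets -/
theorem cbud_joint (P : LPar ι κ) (k : ℕ) (hP : P.Ok k) (τ : ℕ)
    (hr : 20 * P.δ ^ 2 * τ * (1 - 1 / P.Lc) ^ P.r ≤ 1) (es lam : ℝ) (hlam : 0 ≤ lam)
    (hE : ∀ l, 6480 * lam * P.pe (l + 1) ^ 2 ≤ P.E l ^ 2)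
    (hsum : ∑ l ∈ range P.H, 8 * M l ^ 2 * Real.exp (-(M l ^ 2 * P.E l ^ 2 / 1620)) ≤ 1 / 4)
    (I : Finset ι) (hI : ∀ i ∈ I, ∀ i' ∈ I, i ≠ i' → Disjoint (cr P es i) (cr P es i')) :
    (((univ : Finset (Fin τ → ι → Bool)).filter (fun ω => ∀ i ∈ I,
        CBud P es (ext τ ω) τ i)).card : ℝ)
      ≤ (2 ^ Fintype.card ι) ^ τ * Real.exp (-(lam / 8)) ^ I.card := by
  have h1 := wt_joint P k hP τ hr I (cr P es) hI
    (fun i j l => min (P.a i j ^ 2 * M (l + 1) ^ 2) 1) (fun i j l => by positivity) lam (3 / 8) hlam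
  refine le_trans (le_of_eq ?_) (h1.trans ?_)
  · congr 1
  · apply mul_le_mul_of_nonneg_left _ (by positivity)
    rw [← Finset.prod_const]
    refine Finset.prod_le_prod ?_ ?_
    · intro i _
      refine mul_nonneg (Real.exp_pos _).le (Finset.prod_nonneg fun j _ =>
        Finset.prod_nonneg fun l _ => ?_)
      have h1 : 1 ≤ Real.exp (lam * min (P.a i j ^ 2 * M (l + 1) ^ 2) 1) :=
        Real.one_le_exp (by positivity)
      have := mul_nonneg (sub_nonneg.2 h1) (qq_nonneg P l)
      linarith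
    · intro i _
      refine (wt_factor P k hP i (cr P es i) (fun j l => min (P.a i j ^ 2 * M (l + 1) ^ 2) 1)
        lam (3 / 8) hlam (fun j l => by positivity) (fun j l => min_le_left _ _) ?_ hsum).trans ?_
      · intro j _ l _
        have hM := M_pos (l + 1)
        have hM0 := M_pos l
        have hep := hP.hep i j
        have hpe : min (P.a i j ^ 2 * M (l + 1) ^ 2) 1 ≤ M (l + 1) ^ 2 * P.pe (l + 1) ^ 2 := by
          unfold LPar.pe
          rcases le_total P.ep (1 / M (l + 1)) with h | h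
          · rw [min_eq_left h]
            refine (min_le_left _ _).trans ?_
            have : P.a i j ^ 2 ≤ P.ep ^ 2 := by
              rw [← sq_abs (P.a i j)]
              exact pow_le_pow_left₀ (abs_nonneg _) hep 2
            nlinarith [sq_nonneg (M (l + 1))]
          · rw [min_eq_right h]
            refine (min_le_right _ _).trans (le_of_eq ?_)
            field_simp
        have h2 := hE l
        have hMs : M (l + 1) ^ 2 = 4 * M l ^ 2 := by rw [M_succ]; ring
        calc lam * min (P.a i j ^ 2 * M (l + 1) ^ 2) 1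
            ≤ lam * (M (l + 1) ^ 2 * P.pe (l + 1) ^ 2) := mul_le_mul_of_nonneg_left hpe hlam
          _ = M l ^ 2 * (6480 * lam * P.pe (l + 1) ^ 2) / 1620 := by rw [hMs]; ring
          _ ≤ M l ^ 2 * P.E l ^ 2 / 1620 := by gcongr
      · apply Real.exp_le_exp.2
        linarith

open Classical in
/-- bound for the fine budget of one variable -/
theorem fbud_prob (P : LPar ι κ) (k : ℕ) (hP : P.Ok k) (τ : ℕ)
    (hr : 20 * P.δ ^ 2 * τ * (1 - 1 / P.Lc) ^ P.r ≤ 1) (es lam : ℝ) (hes : 0 ≤ es) (hlam : 0 ≤ lam)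
    (hE : ∀ l, 6480 * lam * es ^ 2 ≤ P.E l ^ 2)
    (hsum : ∑ l ∈ range P.H, 8 * M l ^ 2 * Real.exp (-(M l ^ 2 * P.E l ^ 2 / 1620)) ≤ 1 / 4)
    (i : ι) :
    (((univ : Finset (Fin τ → ι → Bool)).filter (fun ω =>
        FBud P es (ext τ ω) τ i)).card : ℝ)
      ≤ (2 ^ Fintype.card ι) ^ τ * Real.exp (-(lam / 8)) := by
  have h1 := wt_joint P k hP τ hr {i} (fr P es) (by
      intro a ha b hb hab
      rw [Finset.mem_singleton] at ha hb
      exact absurd (ha.trans hb.symm) hab)
    (fun i j l => P.a i j ^ 2 * M (l + 1) ^ 2) (fun i j l => by positivity) lam (3 / 8) hlam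
  rw [Finset.prod_singleton] at h1
  refine le_trans (le_of_eq ?_) (h1.trans ?_)
  · congr 1
    congr 1
    ext ω
    rw [B4_mem, B4_mem]
    simp only [Finset.mem_singleton, forall_eq]
    rfl
  · apply mul_le_mul_of_nonneg_left _ (by positivity)
    refine (wt_factor P k hP i (fr P es i) (fun j l => P.a i j ^ 2 * M (l + 1) ^ 2)
      lam (3 / 8) hlam (fun j l => by positivity) (fun j l => le_rfl) ?_ hsum).trans ?_
    · intro j hj l _
      have hj2 : |P.a i j| < es := not_le.1 (Finset.mem_filter.1 hj).2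
      have hsq : P.a i j ^ 2 ≤ es ^ 2 := by
        rw [← sq_abs (P.a i j)]
        exact pow_le_pow_left₀ (abs_nonneg _) hj2.le 2
      have h2 := hE l
      have hMs : M (l + 1) ^ 2 = 4 * M l ^ 2 := by rw [M_succ]; ring
      calc lam * (P.a i j ^ 2 * M (l + 1) ^ 2)
          ≤ lam * (es ^ 2 * M (l + 1) ^ 2) := by gcongr
        _ = M l ^ 2 * (6480 * lam * es ^ 2) / 1620 := by rw [hMs]; ring
        _ ≤ M l ^ 2 * P.E l ^ 2 / 1620 := by gcongr
    · apply Real.exp_le_exp.2
      linarith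

end Pool.Agent.LibDB82
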