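import Pool.Agent.LibDB82.N7
import Pool.Agent.LibLev64.K1
import Pool.Agent.LibLoc73.E2

set_option autoImplicit false

/-! S0: parameters of the run. -/

open Finset Pool.Agent.LibLoc73
open Pool.Agent.LibLev64 (M X M_pos M_succ X_zero X_succ X_mono X_pos X_eq)

namespace Pool.Agent.LibDB82

variable {ι κ : Type*} [Fintype ι] [Fintype κ] [DecidableEq ι]

/-- the thresholds -/
noncomputable def thr2 (b : ℕ) (ep : ℝ) (l : ℕ) : ℝ :=
  162 * (3 / 4) ^ l + 8900 * √(Real.log b) * min ep (1 / M (l + 1)) + 1 / ((b : ℝ) + 61)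

/-- the parameters -/
noncomputable def mkQ (a : ι → κ → ℝ) (c : ι → ℕ) (n b : ℕ) (ep : ℝ) (x0 : ι → ℝ)
    (L0 : Finset ι) : LPar ι κ where
  a := a
  c := c
  T := 180000000 * n ^ 7
  r := 40 * n ^ 3
  Lc := 2 * (n : ℝ) ^ 2
  δ := 1 / (200 * (n : ℝ) ^ 3)
  η := 1 / (n : ℝ) ^ 2
  lam := 1
  H := b + 60
  ep := ep
  E := thr2 b ep
  x0 := x0
  L0 := L0

/-- the bound of the displacement of a row in one run -/
noncomputable def KB (b : ℕ) (ep : ℝ) : ℝ :=
  700 + 60000 * √(Real.log b) * (ep * Real.log (2 / ep))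

/-- number of steps -/
def tau (n : ℕ) : ℕ := 180000000 * n ^ 10

end Pool.Agent.LibDB82
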