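import Mathlib

set_option autoImplicit false

/-! S1a: elementary counting and numbers for stage 1. -/

open Finset

namespace Pool.Agent.LibDB82

open Classical in
theorem union_bd {Ω β : Type*} [Fintype Ω] (A : Finset β) (p : β → Ω → Prop) (C : ℝ)
    (h : ∀ z ∈ A, (((univ : Finset Ω).filter (fun ω => p z ω)).card : ℝ) ≤ C) :
    (((univ : Finset Ω).filter (fun ω => ∃ z ∈ A, p z ω)).card : ℝ) ≤ A.card * C := by
  have hsub : (univ : Finset Ω).filter (fun ω => ∃ z ∈ A, p z ω) ⊆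
      A.biUnion (fun z => (univ : Finset Ω).filter (fun ω => p z ω)) := by
    intro ω hω
    obtain ⟨z, hz, hp⟩ := (Finset.mem_filter.1 hω).2
    exact Finset.mem_biUnion.2 ⟨z, hz, Finset.mem_filter.2 ⟨Finset.mem_univ _, hp⟩⟩
  calc (((univ : Finset Ω).filter (fun ω => ∃ z ∈ A, p z ω)).card : ℝ)
      ≤ ∑ z ∈ A, (((univ : Finset Ω).filter (fun ω => p z ω)).card : ℝ) := by
        exact_mod_cast (Finset.card_le_card hsub).trans Finset.card_biUnion_le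
    _ ≤ ∑ z ∈ A, C := Finset.sum_le_sum h
    _ = A.card * C := by rw [Finset.sum_const, nsmul_eq_mul]

open Classical in
/-- number of large terms of a square summable family -/
theorem cnt {α : Type*} [Fintype α] (f : α → ℝ) (S g : ℝ) (hg : 0 < g) (h : ∑ j, f j ^ 2 ≤ S) :
    (((univ : Finset α).filter (fun j => g ≤ |f j|)).card : ℝ) ≤ S / g ^ 2 := by
  rw [le_div_iff₀ (by positivity)]
  refine le_trans ?_ h
  calc (((univ : Finset α).filter (fun j => g ≤ |f j|)).card : ℝ) * g ^ 2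
      = ∑ j ∈ (univ : Finset α).filter (fun j => g ≤ |f j|), g ^ 2 := by
        rw [Finset.sum_const, nsmul_eq_mul]
    _ ≤ ∑ j ∈ (univ : Finset α).filter (fun j => g ≤ |f j|), f j ^ 2 := by
        refine Finset.sum_le_sum fun j hj => ?_
        rw [← sq_abs (f j)]
        exact pow_le_pow_left₀ hg.le (Finset.mem_filter.1 hj).2 2
    _ ≤ ∑ j, f j ^ 2 := Finset.sum_le_sum_of_subset_of_nonneg (Finset.filter_subset _ _)
        (fun j _ _ => sq_nonneg _)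

open Classical in
/-- natural number version for `g = 1 / b ^ e` -/
theorem cnt_nat {α : Type*} [Fintype α] (f : α → ℝ) (b e s : ℕ) (hb : 1 ≤ b)
    (h : ∑ j, f j ^ 2 ≤ (b : ℝ) ^ s) :
    ((univ : Finset α).filter (fun j => 1 / (b : ℝ) ^ e ≤ |f j|)).card ≤ b ^ (2 * e + s) := by
  have hb0 : (0 : ℝ) < b := by exact_mod_cast hb
  have h1 := cnt f ((b : ℝ) ^ s) (1 / (b : ℝ) ^ e) (by positivity) h
  have h2 : (b : ℝ) ^ s / (1 / (b : ℝ) ^ e) ^ 2 = ((b ^ (2 * e + s) : ℕ) : ℝ) := by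
    push_cast
    rw [pow_add, pow_mul, div_pow, one_pow]
    field_simp
    ring
  rw [h2] at h1
  exact_mod_cast h1

theorem pow_le_exp_mul (b k : ℕ) (hb : 1 ≤ b) : (b : ℝ) ^ k ≤ Real.exp (k * b) := by
  have h1 : (b : ℝ) ≤ Real.exp b := (by linarith [Real.add_one_le_exp (b : ℝ)])
  calc (b : ℝ) ^ k ≤ (Real.exp b) ^ k := pow_le_pow_left₀ (by positivity) h1 k
    _ = Real.exp (k * b) := by rw [← Real.exp_nat_mul]

theorem num_s1 (b n : ℕ) (hb : 4 ≤ b) (hn : b ^ 50 ≤ n) :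
    (n : ℝ) * (1 / (n : ℝ) ^ 100) ≤ 1 / 100 := by
  have h1 : (4 : ℝ) ^ 50 ≤ n := by
    calc (4 : ℝ) ^ 50 ≤ (b : ℝ) ^ 50 := pow_le_pow_left₀ (by norm_num) (by exact_mod_cast hb) 50
      _ ≤ n := by exact_mod_cast hn
  have h2 : (100 : ℝ) ≤ n := le_trans (by norm_num) h1
  have hn0 : (0 : ℝ) < n := by linarith
  have h3 : (n : ℝ) * (1 / (n : ℝ) ^ 100) = 1 / (n : ℝ) ^ 99 := by field_simp
  rw [h3]
  apply one_div_le_one_div_of_le (by norm_num)
  calc (100 : ℝ) ≤ n := h2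
    _ = (n : ℝ) ^ 1 := (pow_one _).symm
    _ ≤ (n : ℝ) ^ 99 := pow_le_pow_right₀ (by linarith) (by norm_num)

theorem exp_small (x : ℝ) (hx : 5 ≤ x) : Real.exp (-x) ≤ 1 / 100 := by
  have h1 : Real.exp (-x) ≤ Real.exp (-5) := Real.exp_le_exp.2 (by linarith)
  refine h1.trans ?_
  rw [Real.exp_neg, one_div]
  apply inv_anti₀ (by norm_num)
  have h2 : (2.7 : ℝ) < Real.exp 1 := by linarith [Real.exp_one_gt_d9]
  have h3 : Real.exp 5 = (Real.exp 1) ^ 5 := by rw [← Real.exp_nat_mul]; norm_num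
  rw [h3]
  calc (100 : ℝ) ≤ 2.7 ^ 5 := by norm_num
    _ ≤ (Real.exp 1) ^ 5 := pow_le_pow_left₀ (by norm_num) h2.le 5

theorem num_s3 (b n : ℕ) (hb : 4 ≤ b) (hnb : (n : ℝ) ≤ Real.exp b) (r : ℝ) (hr0 : 0 ≤ r)
    (hr : r ≤ (n : ℝ) ^ 3) : r * Real.exp (-(2000 * b)) ≤ 1 / 100 := by
  have hb' : (4 : ℝ) ≤ b := by exact_mod_cast hb
  have h1 : (n : ℝ) ^ 3 ≤ Real.exp (3 * b) := by
    calc (n : ℝ) ^ 3 ≤ (Real.exp b) ^ 3 := pow_le_pow_left₀ (by positivity) hnb 3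
      _ = Real.exp (3 * b) := by rw [← Real.exp_nat_mul]; norm_num
  calc r * Real.exp (-(2000 * b)) ≤ Real.exp (3 * b) * Real.exp (-(2000 * b)) := by
        apply mul_le_mul_of_nonneg_right (hr.trans h1) (Real.exp_pos _).le
    _ = Real.exp (-(1997 * b)) := by rw [← Real.exp_add]; congr 1; ring
    _ ≤ 1 / 100 := exp_small _ (by nlinarith)

theorem num_s4 (b n : ℕ) (hb : 4 ≤ b) (hnb : (n : ℝ) ≤ Real.exp b) :
    (n : ℝ) * Real.exp (-(3 * b)) ≤ 1 / 100 := by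
  have hb' : (4 : ℝ) ≤ b := by exact_mod_cast hb
  calc (n : ℝ) * Real.exp (-(3 * b)) ≤ Real.exp b * Real.exp (-(3 * b)) := by
        apply mul_le_mul_of_nonneg_right hnb (Real.exp_pos _).le
    _ = Real.exp (-(2 * b)) := by rw [← Real.exp_add]; congr 1; ring
    _ ≤ 1 / 100 := exp_small _ (by nlinarith)

theorem pow_aux (x : ℝ) (hx : 0 < x) (A B m m' e : ℕ) (h : A * m + e = B * m') :
    (x ^ A) ^ m * (1 / x ^ B) ^ m' = 1 / x ^ e := by
  rw [one_div_pow, ← pow_mul, ← pow_mul, mul_one_div, div_eq_div_iff (by positivity)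
      (by positivity), one_mul, ← pow_add, h]

theorem num_s5 (b n : ℕ) (hb : 4 ≤ b) (hnb : (n : ℝ) ≤ Real.exp b) :
    (n : ℝ) * (((b ^ 645 : ℕ) : ℝ) ^ (2 * b) * (1 / (b : ℝ) ^ 1500) ^ (b + 1)) ≤ 1 / 100 := by
  have hb' : (4 : ℝ) ≤ b := by exact_mod_cast hb
  have hb0 : (0 : ℝ) < b := by linarith
  have h1 : ((b ^ 645 : ℕ) : ℝ) ^ (2 * b) * (1 / (b : ℝ) ^ 1500) ^ (b + 1)
      = 1 / ((b : ℝ) ^ (210 * b + 1500)) := by
    push_cast
    exact pow_aux (b : ℝ) hb0 645 1500 (2 * b) (b + 1) (210 * b + 1500) (by omega)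
  have h2 : Real.exp b ≤ (b : ℝ) ^ b := by
    have h3 : Real.exp 1 ≤ b := by linarith [Real.exp_one_lt_d9]
    calc Real.exp b = (Real.exp 1) ^ b := by rw [← Real.exp_nat_mul, mul_one]
      _ ≤ (b : ℝ) ^ b := pow_le_pow_left₀ (Real.exp_pos _).le h3 b
  rw [h1, mul_one_div, div_le_div_iff₀ (by positivity) (by norm_num)]
  calc (n : ℝ) * 100 ≤ (b : ℝ) ^ b * (b : ℝ) ^ 1500 := by
        apply mul_le_mul (hnb.trans h2) _ (by norm_num) (by positivity)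
        calc (100 : ℝ) ≤ 4 ^ 4 := by norm_num
          _ ≤ (b : ℝ) ^ 4 := pow_le_pow_left₀ (by norm_num) hb' 4
          _ ≤ (b : ℝ) ^ 1500 := pow_le_pow_right₀ (by linarith) (by norm_num)
    _ = (b : ℝ) ^ (b + 1500) := by rw [← pow_add]
    _ ≤ (b : ℝ) ^ (210 * b + 1500) := pow_le_pow_right₀ (by linarith) (by omega)
    _ = 1 * (b : ℝ) ^ (210 * b + 1500) := (one_mul _).symm

theorem num_s6 (b n : ℕ) (hb : 4 ≤ b) (hnb : (n : ℝ) ≤ Real.exp b) (r : ℝ) (hr0 : 0 ≤ r)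
    (hr : r ≤ (n : ℝ) ^ 3) :
    r * (((b ^ 82 : ℕ) : ℝ) * Real.exp (-((b : ℝ) ^ 240 * (1 / (b : ℝ) ^ 90) / ((b ^ 82 : ℕ) : ℝ))
      + 2 * (b : ℝ) ^ 240 * (1 / (b : ℝ) ^ 1500) * b)) ≤ 1 / 100 := by
  have hb' : (4 : ℝ) ≤ b := by exact_mod_cast hb
  have hb0 : (0 : ℝ) < b := by linarith
  have h1 : (n : ℝ) ^ 3 ≤ Real.exp (3 * b) := by
    calc (n : ℝ) ^ 3 ≤ (Real.exp b) ^ 3 := pow_le_pow_left₀ (by positivity) hnb 3
      _ = Real.exp (3 * b) := by rw [← Real.exp_nat_mul]; norm_num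
  have h2 : ((b ^ 82 : ℕ) : ℝ) ≤ Real.exp (82 * b) := by
    push_cast
    exact_mod_cast pow_le_exp_mul b 82 (by omega)
  have h3 : (b : ℝ) ^ 240 * (1 / (b : ℝ) ^ 90) / ((b ^ 82 : ℕ) : ℝ) = (b : ℝ) ^ 68 := by
    push_cast
    field_simp
  have h4 : 2 * (b : ℝ) ^ 240 * (1 / (b : ℝ) ^ 1500) * b ≤ 1 := by
    have : 2 * (b : ℝ) ^ 240 * (1 / (b : ℝ) ^ 1500) * b = 2 / (b : ℝ) ^ 1259 := by
      field_simp
    rw [this, div_le_one (by positivity)]
    calc (2 : ℝ) ≤ b := by linarith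
      _ = (b : ℝ) ^ 1 := (pow_one _).symm
      _ ≤ (b : ℝ) ^ 1259 := pow_le_pow_right₀ (by linarith) (by norm_num)
  have h5 : 1000 * (b : ℝ) ≤ (b : ℝ) ^ 68 := by
    calc 1000 * (b : ℝ) ≤ (b : ℝ) ^ 67 * b := by
          apply mul_le_mul_of_nonneg_right _ hb0.le
          calc (1000 : ℝ) ≤ 4 ^ 67 := by norm_num
            _ ≤ (b : ℝ) ^ 67 := pow_le_pow_left₀ (by norm_num) hb' 67
      _ = (b : ℝ) ^ 68 := by ring
  calc _ ≤ Real.exp (3 * b) * (Real.exp (82 * b) * Real.exp (-(1000 * b) + 1)) := by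
        apply mul_le_mul (hr.trans h1) _ (by positivity) (Real.exp_pos _).le
        apply mul_le_mul h2 _ (Real.exp_pos _).le (Real.exp_pos _).le
        apply Real.exp_le_exp.2
        rw [h3]
        linarith
    _ = Real.exp (-(915 * b - 1)) := by
        rw [← Real.exp_add, ← Real.exp_add]
        congr 1
        ring
    _ ≤ 1 / 100 := exp_small _ (by nlinarith)

end Pool.Agent.LibDB82
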