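import Pool.Agent.LibDB82.W1
import Pool.Agent.LibDB82.N2
import Pool.Agent.LibDB82.N3
import Pool.Agent.LibDB82.S1a

set_option autoImplicit false

/-! Stage 1: one run from `0`; the undecided variables form small clusters and have small mass in the fine
part of every row. -/

open Finset Pool.Agent.LibLoc73
open Pool.Agent.LibLev64 (B4_mem)

namespace Pool.Agent.LibDB82

variable {ι κ : Type*} [Fintype ι] [Fintype κ] [DecidableEq ι]

/-- adjacency: a common row with both entries at least `g` -/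
def RelG (a : ι → κ → ℝ) (g : ℝ) (i i' : ι) : Prop := ∃ j, g ≤ |a i j| ∧ g ≤ |a i' j|

open Classical in
/-- neighbours for the relation `RelG` -/
noncomputable def nbG (a : ι → κ → ℝ) (g : ℝ) (i : ι) : Finset ι :=
  univ.filter (fun i' => RelG a g i i')

open Classical in
theorem card_nbG (a : ι → κ → ℝ) (b e s : ℕ) (hb : 1 ≤ b)
    (hcol : ∀ i, ∑ j, (a i j) ^ 2 ≤ 1) (hL : ∀ j, ∑ i, (a i j) ^ 2 ≤ (b : ℝ) ^ s) (i : ι) :
    (nbG a (1 / (b : ℝ) ^ e) i).card ≤ b ^ (4 * e + s) := by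
  have hsub : nbG a (1 / (b : ℝ) ^ e) i ⊆
      ((univ : Finset κ).filter (fun j => 1 / (b : ℝ) ^ e ≤ |a i j|)).biUnion
        (fun j => (univ : Finset ι).filter (fun i' => 1 / (b : ℝ) ^ e ≤ |a i' j|)) := by
    intro i' hi'
    obtain ⟨j, h1, h2⟩ := (Finset.mem_filter.1 hi').2
    exact Finset.mem_biUnion.2 ⟨j, Finset.mem_filter.2 ⟨Finset.mem_univ _, h1⟩,
      Finset.mem_filter.2 ⟨Finset.mem_univ _, h2⟩⟩
  refine (Finset.card_le_card hsub).trans ?_
  refine (Finset.card_biUnion_le_card_mul _ _ (b ^ (2 * e + s)) ?_).trans ?_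
  · intro j _
    exact cnt_nat (fun i' => a i' j) b e s hb (hL j)
  · have h1 : ((univ : Finset κ).filter (fun j => 1 / (b : ℝ) ^ e ≤ |a i j|)).card
        ≤ b ^ (2 * e + 0) := by
      refine cnt_nat (fun j => a i j) b e 0 hb ?_
      rw [pow_zero]
      exact hcol i
    calc _ ≤ b ^ (2 * e + 0) * b ^ (2 * e + s) := Nat.mul_le_mul_right _ h1
      _ = b ^ (4 * e + s) := by rw [← pow_add]; congr 1; ring

theorem RelG_symm (a : ι → κ → ℝ) (g : ℝ) (i i' : ι) (h : RelG a g i i') : RelG a g i' i := by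
  obtain ⟨j, h1, h2⟩ := h
  exact ⟨j, h2, h1⟩

open Classical in
theorem stage1 (a : ι → κ → ℝ) (b n : ℕ) (hb : 4 ≤ b) (hn : b ^ 50 ≤ n)
    (hnb : (n : ℝ) ≤ Real.exp b)
    (hcard : Fintype.card ι ≤ n) (ep : ℝ) (hep0 : 0 < ep) (hep1 : ep ≤ 1)
    (hcol : ∀ i, ∑ j, (a i j) ^ 2 ≤ 1)
    (hrows : ∀ i, (univ.filter (fun j => a i j ≠ 0)).card ≤ n ^ 2)
    (hep : ∀ i j, |a i j| ≤ ep) (hL : ∀ j, ∑ i, (a i j) ^ 2 ≤ b) :
    ∃ (x : ι → ℝ) (T : Finset ι), (∀ i, |x i| ≤ 1) ∧ (∀ i, i ∉ T → 1 - 1 / (n : ℝ) ^ 2 ≤ |x i|) ∧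
      (∀ j, |∑ i, a i j * x i| ≤ KB b ep) ∧
      (∀ j, ∑ i ∈ T, (if |a i j| < 1 / (b : ℝ) ^ 120 then (a i j) ^ 2 else 0)
        ≤ 1 / (b : ℝ) ^ 90) ∧
      (∀ Q : Finset ι, Q ⊆ T → (∃ i0 ∈ Q, ∀ i ∈ Q, Relation.ReflTransGen
          (fun i i' => i ∈ Q ∧ i' ∈ Q ∧ RelG a (1 / (b : ℝ) ^ 120) i i') i0 i) →
        Q.card ≤ b ^ 83) := by
  have hb1 : 1 ≤ b := by omega
  have hb' : (4 : ℝ) ≤ b := by exact_mod_cast hb
  have hb0 : (0 : ℝ) < b := by linarith
  have hn1 : 1 ≤ n := le_trans (Nat.one_le_pow _ _ (by omega)) hn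
  have hn0 : (0 : ℝ) < n := by exact_mod_cast hn1
  -- the run
  set c : ι → ℕ := fun i => (Fintype.equivFin ι i : ℕ) with hc
  have hcinj : Function.Injective c := by
    intro i i' h
    exact (Fintype.equivFin ι).injective (Fin.ext h)
  have hcn : ∀ i, c i < n := fun i => lt_of_lt_of_le (Fintype.equivFin ι i).2 hcard
  have hη : (0 : ℝ) < 1 - 1 / (n : ℝ) ^ 2 := by
    have h4n : (4 : ℝ) ^ 50 ≤ n := by
      calc (4 : ℝ) ^ 50 ≤ (b : ℝ) ^ 50 := pow_le_pow_left₀ (by norm_num) hb' 50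
        _ ≤ n := by exact_mod_cast hn
    have h2n : (2 : ℝ) ≤ n := le_trans (by norm_num) h4n
    rw [sub_pos, div_lt_one (by positivity)]
    nlinarith
  set P : LPar ι κ := mkQ a c n b ep (fun _ => 0) univ with hP
  have hok : P.Ok n := mkQ_ok a c n b hb hn hcard hcinj ep hep0 hep1 _ _ hcol hrows hep
    (fun i => by simp) (fun i _ => by simpa using hη)
  set N : ℝ := (2 ^ Fintype.card ι) ^ (tau n) with hN
  have hN0 : 0 < N := by positivity
  obtain ⟨p1, p2, p3⟩ := single_probs1 a c n b hb hn ep hep0 (fun _ => 0) univ hok hcn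
  obtain ⟨p4, -, p6⟩ := single_probs2 a c n b hb hn ep hep0 (fun _ => 0) univ hok
  -- rows with nonzero entries
  set Rw : Finset κ := (univ : Finset ι).biUnion
    (fun i => (univ : Finset κ).filter (fun j => a i j ≠ 0)) with hRw
  have hRwcard : (Rw.card : ℝ) ≤ (n : ℝ) ^ 3 := by
    have h1 : Rw.card ≤ n * n ^ 2 := by
      refine (Finset.card_biUnion_le_card_mul _ _ (n ^ 2) ?_).trans ?_
      · intro i _
        refine le_trans (le_of_eq ?_) (hrows i)
        congr 1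
      · exact Nat.mul_le_mul_right _ (by rw [Finset.card_univ]; exact hcard)
    have h2 : (Rw.card : ℝ) ≤ n * (n : ℝ) ^ 2 := by exact_mod_cast h1
    calc (Rw.card : ℝ) ≤ n * (n : ℝ) ^ 2 := h2
      _ = (n : ℝ) ^ 3 := by ring
  have hιn : ((univ : Finset ι).card : ℝ) ≤ n := by
    rw [Finset.card_univ]
    exact_mod_cast hcard
  -- conflict sets
  set T : (Fin (tau n) → ι → Bool) → Finset ι := fun ω =>
    univ.filter (fun i => CBud P (1 / (b : ℝ) ^ 20) (ext (tau n) ω) (tau n) i) with hT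
  set cf : ι → Finset ι := fun i => insert i (nbG a (1 / (b : ℝ) ^ 20) i) with hcf
  set nb : ι → Finset ι := fun i => (cf i).biUnion
    (fun i' => (nbG a (1 / (b : ℝ) ^ 120) i').biUnion cf) with hnb'
  have hself : ∀ i, i ∈ cf i := fun i => Finset.mem_insert_self _ _
  have hsymm : ∀ i i', i' ∈ cf i → i ∈ cf i' := by
    intro i i' h
    rcases Finset.mem_insert.1 h with h | h
    · rw [h]; exact hself i
    · refine Finset.mem_insert_of_mem (Finset.mem_filter.2 ⟨Finset.mem_univ _, ?_⟩)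
      exact RelG_symm a _ _ _ (Finset.mem_filter.1 h).2
  have hL' : ∀ j, ∑ i, (a i j) ^ 2 ≤ (b : ℝ) ^ 1 := by
    intro j
    rw [pow_one]
    exact hL j
  have hDc : ∀ i, (cf i).card ≤ b ^ 82 := by
    intro i
    have h1 := card_nbG a b 20 1 hb1 hcol hL' i
    calc (cf i).card ≤ (nbG a (1 / (b : ℝ) ^ 20) i).card + 1 := Finset.card_insert_le _ _
      _ ≤ b ^ (4 * 20 + 1) + 1 := Nat.add_le_add_right h1 1
      _ ≤ b ^ (4 * 20 + 1) + b ^ (4 * 20 + 1) := Nat.add_le_add_left (Nat.one_le_pow _ _ (by omega)) _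
      _ = 2 * b ^ (4 * 20 + 1) := by ring
      _ ≤ b * b ^ (4 * 20 + 1) := Nat.mul_le_mul_right _ (by omega)
      _ = b ^ 82 := by rw [← pow_succ']
  have hΔ : ∀ i, (nb i).card ≤ b ^ 645 := by
    intro i
    have h2 : ∀ i', ((nbG a (1 / (b : ℝ) ^ 120) i').biUnion cf).card
        ≤ b ^ (4 * 120 + 1) * b ^ 82 := by
      intro i'
      refine (Finset.card_biUnion_le_card_mul _ _ (b ^ 82) (fun z _ => hDc z)).trans ?_
      exact Nat.mul_le_mul_right _ (card_nbG a b 120 1 hb1 hcol hL' i')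
    refine (Finset.card_biUnion_le_card_mul _ _ _ (fun z _ => h2 z)).trans ?_
    calc (cf i).card * (b ^ (4 * 120 + 1) * b ^ 82)
        ≤ b ^ 82 * (b ^ (4 * 120 + 1) * b ^ 82) := Nat.mul_le_mul_right _ (hDc i)
      _ = b ^ 645 := by rw [← pow_add, ← pow_add]
  set q : ℝ := 1 / (b : ℝ) ^ 1500 with hq
  have hq0 : 0 ≤ q := by positivity
  have hTI : ∀ I : Finset ι, (∀ i ∈ I, ∀ i' ∈ I, i ≠ i' → i' ∉ cf i) →
      (((univ : Finset (Fin (tau n) → ι → Bool)).filter (fun ω => I ⊆ T ω)).card : ℝ)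
        ≤ N * q ^ I.card := by
    intro I hI
    refine le_trans (Nat.cast_le.2 (Finset.card_le_card ?_)) (p6 I ?_)
    · intro ω hω
      have h1 := B4_mem.1 hω
      refine B4_mem.2 ?_
      intro i hi
      exact (Finset.mem_filter.1 (h1 hi)).2
    · intro i hi i' hi' hne j hj
      exact hI i hi i' hi' hne (Finset.mem_insert_of_mem
        (Finset.mem_filter.2 ⟨Finset.mem_univ _, j, hj.1, hj.2⟩))
  -- bad events
  have e1 := union_bd (univ : Finset ι)
    (fun z (ω : Fin (tau n) → ι → Bool) => P.toPar.Conf (ext (tau n) ω) z) _ (fun z _ => p1 z)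
  have e2 := union_bd (univ : Finset ι)
    (fun z (ω : Fin (tau n) → ι → Bool) => P.IsBig (ext (tau n) ω) (tau n) z) _ (fun z _ => p2 z)
  have e3 := union_bd Rw
    (fun j (ω : Fin (tau n) → ι → Bool) => P.Up (ext (tau n) ω) (tau n) j (b + 60)) _
    (fun j _ => p3 j)
  have e4 := union_bd (univ : Finset ι)
    (fun z (ω : Fin (tau n) → ι → Bool) =>
      FBud P (1 / (b : ℝ) ^ 20) (ext (tau n) ω) (tau n) z) _ (fun z _ => p4 z)
  have e5 := cluster_count T N q hN0.le hq0 cf nb (RelG a (1 / (b : ℝ) ^ 120)) (b ^ 82) (b ^ 645) b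
    hself hsymm hDc hΔ (RelG_symm a _) (by
      intro i1 i2 i3 i4 h12 h23 h34
      exact Finset.mem_biUnion.2 ⟨i2, h12, Finset.mem_biUnion.2
        ⟨i3, Finset.mem_filter.2 ⟨Finset.mem_univ _, h23⟩, h34⟩⟩) hTI
  have p7 : ∀ j ∈ Rw, (((univ : Finset (Fin (tau n) → ι → Bool)).filter (fun ω =>
      1 / (b : ℝ) ^ 90 ≤ ∑ i ∈ T ω, (if |a i j| < 1 / (b : ℝ) ^ 120 then (a i j) ^ 2 else 0))).card
        : ℝ) ≤ N * (((b ^ 82 : ℕ) : ℝ) *
          Real.exp (-((b : ℝ) ^ 240 * (1 / (b : ℝ) ^ 90) / ((b ^ 82 : ℕ) : ℝ))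
            + 2 * (b : ℝ) ^ 240 * q * b)) := by
    intro j _
    refine mass_count T N q hN0.le hq0 cf (b ^ 82) (by positivity) hself hsymm hDc hTI
      (fun i => if |a i j| < 1 / (b : ℝ) ^ 120 then (a i j) ^ 2 else 0) (fun i => by positivity)
      ((b : ℝ) ^ 240) b (1 / (b : ℝ) ^ 90) (by positivity) ?_ ?_
    · intro i
      split_ifs with h
      · have h1 : (a i j) ^ 2 ≤ (1 / (b : ℝ) ^ 120) ^ 2 := by
          rw [← sq_abs (a i j)]
          exact pow_le_pow_left₀ (abs_nonneg _) h.le 2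
        calc (b : ℝ) ^ 240 * (a i j) ^ 2 ≤ (b : ℝ) ^ 240 * (1 / (b : ℝ) ^ 120) ^ 2 := by gcongr
          _ = 1 := by
            rw [div_pow, one_pow, ← pow_mul, mul_one_div, div_self (by positivity)]
      · rw [mul_zero]; exact zero_le_one
    · refine le_trans (Finset.sum_le_sum fun i _ => ?_) (hL j)
      split_ifs
      · exact le_rfl
      · positivity
  have e6 := union_bd Rw _ _ p7
  -- choice of `ω`
  obtain ⟨ω, hω⟩ : ∃ ω : Fin (tau n) → ι → Bool,
      (¬ ∃ z ∈ (univ : Finset ι), P.toPar.Conf (ext (tau n) ω) z) ∧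
      (¬ ∃ z ∈ (univ : Finset ι), P.IsBig (ext (tau n) ω) (tau n) z) ∧
      (¬ ∃ j ∈ Rw, P.Up (ext (tau n) ω) (tau n) j (b + 60)) ∧
      (¬ ∃ z ∈ (univ : Finset ι), FBud P (1 / (b : ℝ) ^ 20) (ext (tau n) ω) (tau n) z) ∧
      (¬ ∃ Q : Finset ι, Q ⊆ T ω ∧ b * b ^ 82 < Q.card ∧ ∃ i0 ∈ Q, ∀ i ∈ Q,
        Relation.ReflTransGen
          (fun i i' => i ∈ Q ∧ i' ∈ Q ∧ RelG a (1 / (b : ℝ) ^ 120) i i') i0 i) ∧
      (¬ ∃ j ∈ Rw, 1 / (b : ℝ) ^ 90 ≤
        ∑ i ∈ T ω, (if |a i j| < 1 / (b : ℝ) ^ 120 then (a i j) ^ 2 else 0)) := by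
    by_contra hcon
    push Not at hcon
    have hcov : (univ : Finset (Fin (tau n) → ι → Bool)) ⊆
        (univ.filter (fun ω => ∃ z ∈ (univ : Finset ι), P.toPar.Conf (ext (tau n) ω) z)) ∪
        ((univ.filter (fun ω => ∃ z ∈ (univ : Finset ι), P.IsBig (ext (tau n) ω) (tau n) z)) ∪
        ((univ.filter (fun ω => ∃ j ∈ Rw, P.Up (ext (tau n) ω) (tau n) j (b + 60))) ∪
        ((univ.filter (fun ω => ∃ z ∈ (univ : Finset ι),
          FBud P (1 / (b : ℝ) ^ 20) (ext (tau n) ω) (tau n) z)) ∪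
        ((univ.filter (fun ω => ∃ Q : Finset ι, Q ⊆ T ω ∧ b * b ^ 82 < Q.card ∧ ∃ i0 ∈ Q,
          ∀ i ∈ Q, Relation.ReflTransGen
          (fun i i' => i ∈ Q ∧ i' ∈ Q ∧ RelG a (1 / (b : ℝ) ^ 120) i i') i0 i)) ∪
        (univ.filter (fun ω => ∃ j ∈ Rw, 1 / (b : ℝ) ^ 90 ≤
          ∑ i ∈ T ω, (if |a i j| < 1 / (b : ℝ) ^ 120 then (a i j) ^ 2 else 0))))))) := by
      intro ω _
      by_contra h
      simp only [Finset.mem_union, Finset.mem_filter, Finset.mem_univ, true_and, not_or] at h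
      obtain ⟨h1, h2, h3, h4, h5, h6⟩ := h
      push Not at h1 h2 h3 h4 h5 h6
      obtain ⟨j, hj1, hj2⟩ := hcon ω (fun z _ => h1 z) (fun z _ => h2 z) h3 (fun z _ => h4 z)
        (fun Q hQ1 hQ2 i0 hi0 => h5 Q hQ1 hQ2 i0 hi0)
      exact absurd hj2 (not_le.2 (h6 j hj1))
    have hcardΩ : ((univ : Finset (Fin (tau n) → ι → Bool)).card : ℝ) = N := by
      rw [Finset.card_univ]
      simp [hN]
    have htot := (Nat.cast_le (α := ℝ)).2 (Finset.card_le_card hcov)
    rw [hcardΩ] at htot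
    have hun : ∀ A B : Finset (Fin (tau n) → ι → Bool),
        ((A ∪ B).card : ℝ) ≤ (A.card : ℝ) + (B.card : ℝ) := by
      intro A B
      exact_mod_cast Finset.card_union_le A B
    have t1 := htot.trans (hun _ _)
    have t2 := t1.trans (add_le_add_right (hun _ _) _)
    have t3 := t2.trans (add_le_add_right (add_le_add_right (hun _ _) _) _)
    have t4 := t3.trans (add_le_add_right (add_le_add_right (add_le_add_right (hun _ _) _) _) _)
    have t5 := t4.trans (add_le_add_right (add_le_add_right (add_le_add_right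
      (add_le_add_right (hun _ _) _) _) _) _)
    have q1 : ((univ : Finset ι).card : ℝ) * (N * (1 / (n : ℝ) ^ 100)) ≤ N * (1 / 100) := by
      calc _ ≤ (n : ℝ) * (N * (1 / (n : ℝ) ^ 100)) := by gcongr
        _ = N * ((n : ℝ) * (1 / (n : ℝ) ^ 100)) := by ring
        _ ≤ N * (1 / 100) := by
          have := num_s1 b n hb hn
          gcongr
    have q3 : (Rw.card : ℝ) * (N * Real.exp (-(2000 * b))) ≤ N * (1 / 100) := by
      calc _ = N * ((Rw.card : ℝ) * Real.exp (-(2000 * b))) := by ring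
        _ ≤ N * (1 / 100) := by
          have := num_s3 b n hb hnb Rw.card (by positivity) hRwcard
          gcongr
    have q4 : ((univ : Finset ι).card : ℝ) * (N * Real.exp (-(3 * b))) ≤ N * (1 / 100) := by
      calc _ ≤ (n : ℝ) * (N * Real.exp (-(3 * b))) := by gcongr
        _ = N * ((n : ℝ) * Real.exp (-(3 * b))) := by ring
        _ ≤ N * (1 / 100) := by
          have := num_s4 b n hb hnb
          gcongr
    have q5 : N * (Fintype.card ι * (((b ^ 645 : ℕ) : ℝ) ^ (2 * b) * q ^ (b + 1)))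
        ≤ N * (1 / 100) := by
      have h1 := num_s5 b n hb hnb
      have h2 : (Fintype.card ι : ℝ) ≤ n := by exact_mod_cast hcard
      have h3 : (Fintype.card ι : ℝ) * (((b ^ 645 : ℕ) : ℝ) ^ (2 * b) * q ^ (b + 1))
          ≤ (n : ℝ) * (((b ^ 645 : ℕ) : ℝ) ^ (2 * b) * q ^ (b + 1)) := by gcongr
      exact mul_le_mul_of_nonneg_left (h3.trans h1) hN0.le
    have q6 : (Rw.card : ℝ) * (N * (((b ^ 82 : ℕ) : ℝ) *
          Real.exp (-((b : ℝ) ^ 240 * (1 / (b : ℝ) ^ 90) / ((b ^ 82 : ℕ) : ℝ))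
            + 2 * (b : ℝ) ^ 240 * q * b))) ≤ N * (1 / 100) := by
      have h1 := num_s6 b n hb hnb Rw.card (by positivity) hRwcard
      calc _ = N * ((Rw.card : ℝ) * (((b ^ 82 : ℕ) : ℝ) *
          Real.exp (-((b : ℝ) ^ 240 * (1 / (b : ℝ) ^ 90) / ((b ^ 82 : ℕ) : ℝ))
            + 2 * (b : ℝ) ^ 240 * q * b))) := by ring
        _ ≤ N * (1 / 100) := mul_le_mul_of_nonneg_left h1 hN0.le
    have f1 := e1.trans q1
    have f2 := e2.trans q1
    have f3 := e3.trans q3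
    have f4 := e4.trans q4
    have f5 := e5.trans q5
    have f6 := e6.trans q6
    linarith
  obtain ⟨w1, w2, w3, w4, w5, w6⟩ := hω
  have hwin : ∀ i, P.c i * P.T + P.T ≤ tau n := by
    intro i
    show c i * (180000000 * n ^ 7) + 180000000 * n ^ 7 ≤ 180000000 * n ^ 10
    calc c i * (180000000 * n ^ 7) + 180000000 * n ^ 7
        = (c i + 1) * (180000000 * n ^ 7) := by ring
      _ ≤ n ^ 3 * (180000000 * n ^ 7) := Nat.mul_le_mul_right _ (by
          calc c i + 1 ≤ n := hcn i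
            _ = n ^ 1 := (pow_one n).symm
            _ ≤ n ^ 3 := Nat.pow_le_pow_right (by omega) (by norm_num))
      _ = 180000000 * n ^ 10 := by ring
  set x := (P.run (ext (tau n) ω) (tau n)).x with hx
  set U : Finset ι := univ.filter (fun i => |x i| < 1 - 1 / (n : ℝ) ^ 2) with hU
  have hUT : U ⊆ T ω := by
    intro i hi
    have hi' : |x i| < 1 - P.η := (Finset.mem_filter.1 hi).2
    rcases undecided P n hok (ext (tau n) ω) (tau n) hwin i (Finset.mem_univ i) hi' with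
      h | ⟨z, -, h⟩ | ⟨j, hj, h⟩ | h
    · exact absurd ⟨i, Finset.mem_univ i, h⟩ w1
    · exact absurd ⟨z, Finset.mem_univ z, h⟩ w2
    · exact absurd ⟨j, Finset.mem_biUnion.2 ⟨i, Finset.mem_univ i,
        Finset.mem_filter.2 ⟨Finset.mem_univ _, hj⟩⟩, h⟩ w3
    · rcases bud_split P (1 / (b : ℝ) ^ 20) (ext (tau n) ω) (tau n) i h with h | h
      · exact Finset.mem_filter.2 ⟨Finset.mem_univ _, h⟩
      · exact absurd ⟨i, Finset.mem_univ i, h⟩ w4
  refine ⟨x, U, run_x_le P n hok _ _, ?_, ?_, ?_, ?_⟩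
  · intro i hi
    by_contra h
    exact hi (Finset.mem_filter.2 ⟨Finset.mem_univ _, not_le.1 h⟩)
  · intro j
    have h1 := (run_row_le P n hok (ext (tau n) ω) (tau n) j).trans
      (Bd_le a c n b hb hn ep hep0 hep1 (fun _ => 0) univ)
    have h0 : P.toPar.row P.x0 j = 0 := by
      show ∑ i, a i j * (0 : ℝ) = 0
      simp
    rw [h0, sub_zero] at h1
    exact h1
  · intro j
    by_cases hj : j ∈ Rw
    · have h1 : ¬ 1 / (b : ℝ) ^ 90 ≤
          ∑ i ∈ T ω, (if |a i j| < 1 / (b : ℝ) ^ 120 then (a i j) ^ 2 else 0) :=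
        fun h => w6 ⟨j, hj, h⟩
      refine le_trans (Finset.sum_le_sum_of_subset_of_nonneg hUT ?_) (not_le.1 h1).le
      intro i _ _
      split_ifs
      · positivity
      · exact le_rfl
    · have h1 : ∀ i, a i j = 0 := by
        intro i
        by_contra h
        exact hj (Finset.mem_biUnion.2 ⟨i, Finset.mem_univ i,
          Finset.mem_filter.2 ⟨Finset.mem_univ _, h⟩⟩)
      simp only [h1]
      simp
  · intro Q hQ hconn
    by_contra h
    push Not at h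
    apply w5
    refine ⟨Q, hQ.trans hUT, ?_, hconn⟩
    calc b * b ^ 82 = b ^ 83 := by rw [← pow_succ']
      _ < Q.card := h

end Pool.Agent.LibDB82
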