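import Pool.Agent.LibDB82.S0
import Pool.Agent.LibDB82.C7

set_option autoImplicit false

/-! W1a: the parameters satisfy the standing assumptions. Model: `LibLev64.mkP_ok` (LibLev64/Main.lean). -/

open Finset Pool.Agent.LibLoc73
open Pool.Agent.LibLev64 (M X M_pos M_succ X_zero X_succ X_mono X_pos X_eq)

namespace Pool.Agent.LibDB82

variable {ι κ : Type*} [Fintype ι] [Fintype κ] [DecidableEq ι]

/-- as `LibLev64.mkP_ok` (`c` injective: variables of different colour) -/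
theorem mkQ_ok (a : ι → κ → ℝ) (c : ι → ℕ) (n b : ℕ) (hb : 4 ≤ b) (hn : b ^ 50 ≤ n)
    (hcard : Fintype.card ι ≤ n) (hc : Function.Injective c) (ep : ℝ) (hep0 : 0 < ep)
    (hep1 : ep ≤ 1) (x0 : ι → ℝ) (L0 : Finset ι)
    (hcol : ∀ i, ∑ j, (a i j) ^ 2 ≤ 1)
    (hrows : ∀ i, (univ.filter (fun j => a i j ≠ 0)).card ≤ n ^ 2)
    (hep : ∀ i j, |a i j| ≤ ep)
    (hx0 : ∀ i, |x0 i| ≤ 1) (hL0 : ∀ i ∈ L0, |x0 i| < 1 - 1 / (n : ℝ) ^ 2) :
    (mkQ a c n b ep x0 L0).Ok n := by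
  have hbn : b + 61 ≤ n := by
    have h1 : (4 : ℕ) ^ 49 ≤ b ^ 49 := Nat.pow_le_pow_left hb 49
    have h2 : b * 4 ^ 49 ≤ b ^ 50 := by
      rw [pow_succ' b 49]
      exact Nat.mul_le_mul_left _ h1
    have h3 : b * 100 ≤ b * 4 ^ 49 := Nat.mul_le_mul_left _ (by norm_num)
    omega
  have hn2 : 2 ≤ n := by omega
  have hkr : (2 : ℝ) ≤ n := by exact_mod_cast hn2
  have hk0 : (0 : ℝ) < n := by linarith
  have hk1 : (1 : ℝ) ≤ n := by linarith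
  have hksq : (n : ℝ) ≤ (n : ℝ) ^ 2 := by nlinarith
  have hk2 : (0 : ℝ) < (n : ℝ) ^ 2 := by positivity
  have hk3 : (n : ℝ) ^ 2 ≤ (n : ℝ) ^ 3 := pow_le_pow_right₀ hk1 (by norm_num)
  have hH : b + 60 + 1 ≤ n ^ 2 := by nlinarith
  have hthr : ∀ l, 0 < thr2 b ep l := by
    intro l
    unfold thr2
    have h1 : (0 : ℝ) < 162 * (3 / 4) ^ l := by positivity
    have h2 : (0 : ℝ) ≤ min ep (1 / M (l + 1)) := by
      have := M_pos (l + 1)
      exact le_min hep0.le (by positivity)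
    have h3 : (0 : ℝ) ≤ 8900 * √(Real.log b) * min ep (1 / M (l + 1)) := by positivity
    have h4 : (0 : ℝ) < 1 / ((b : ℝ) + 61) := by positivity
    linarith
  refine ⟨⟨hn2, hcol, ?_, hrows, ?_, ?_, ?_, ?_, ?_, ?_, ?_, ?_⟩, le_rfl, ?_, hH, hep0.le, hep,
    hep1, hthr, hx0, hL0⟩
  · intro j
    exact (Finset.card_filter_le _ _).trans (by rw [Finset.card_univ]; exact hcard)
  · intro i i' j hii _ _ hcc
    exact hii (hc hcc)
  · show 0 < 180000000 * n ^ 7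
    positivity
  · show 2 * (n : ℝ) ≤ 2 * (n : ℝ) ^ 2
    linarith
  · show (0 : ℝ) < 1 / (200 * (n : ℝ) ^ 3)
    positivity
  · show (1 : ℝ) / (200 * (n : ℝ) ^ 3) ≤ 1 / (n : ℝ) ^ 2
    apply one_div_le_one_div_of_le hk2
    have : (0 : ℝ) ≤ (n : ℝ) ^ 3 := by positivity
    linarith
  · show (1 : ℝ) / (n : ℝ) ^ 2 < 1
    rw [div_lt_one hk2]; nlinarith
  · show (1 : ℝ) / (n : ℝ) ^ 2 * n ≤ 1
    rw [one_div, inv_mul_le_iff₀ hk2]
    linarith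
  · show (0 : ℝ) < 1
    norm_num
  · show (1 : ℝ) / (n : ℝ) ^ 2 * (n : ℝ) ^ 2 ≤ 1
    rw [one_div, inv_mul_cancel₀ hk2.ne']

end Pool.Agent.LibDB82
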